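import Pool.Agent.Helper74.Q8.Defs
import Pool.Agent.Helper6.QS.Rat

/-!
# Q8-FINQ8: the last step of the plane case

`Q` is a rational quadratic form and `D_(Q C l) x` is proportional to `x` for all `C` and all
`l ∈ R`. For forms `C`, `C'` of degree 6 the form `C(x) C' - C'(x) C` vanishes at `x`, so it is a
combination of `C'' l`, `l ∈ R`: `C(x) (x ∧ D_(QC') x) = C'(x) (x ∧ D_(QC) x)`. So
`w = x ∧ D_(Q X_0^6) x` satisfies `x ∧ D_(Q X_m^6) x = x_m^6 w`. If `w = 0`, then `D_(Q X_0^6) x` is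
proportional to `x`, and `0 = n . D_(Q X_0^6) x = - Q(x)`. If `w ≠ 0`, at a valuation ring with
maximal coordinate `m`, `x' = x / x_m`: `w = x_m^(2 - 6) x' ∧ D_(Q X_m^6) x'`, so `Δ^3 w x_m^4 ∈ O`,
so `Δ^3 w x_m ∈ O` (`1 / x_m = x_0 / x_m ∈ O`), and `rat_pt` applies to a coordinate of `w`.
Compare `Helper6/QS/FinQ.lean`.
-/

set_option autoImplicit false

namespace Pool.Agent.Helper74.Q8

open scoped BigOperators
open MvPolynomial
open Pool.Agent.Helper8.LG (Bdd form mon)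
open Pool.Agent.Helper49.LN (cP mo hf pl)
open Pool.Agent.Helper6.QS

section

variable {Ω : Type*} [Field Ω] {σ : Type*} [Fintype σ] [DecidableEq σ]

theorem FinQ8_dt_rr (x : σ → Ω) (o m : σ) : dt (rr x o m) x = 0 := by
  unfold dt rr
  simp only [sub_mul, mul_assoc, ite_mul, one_mul, zero_mul, Finset.sum_sub_distrib,
    mul_ite, mul_zero, Finset.sum_ite_eq', Finset.mem_univ, if_true]
  ring

theorem FinQ8_lf_rr (x : σ → Ω) (o : σ) (hx : x o = 1) (m : σ) :
    lf (rr x o m) = X m - C (x m) * X o := by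
  unfold lf rr
  simp only [hx, sub_smul, Finset.sum_sub_distrib, ite_smul, one_smul, zero_smul,
    mul_ite, mul_one, mul_zero, Finset.sum_ite_eq', Finset.mem_univ, if_true, smul_eq_C_mul]

/-- not proportional: a coordinate of the wedge product is not zero -/
theorem FinQ8_par (x v : σ → Ω) (o : σ) (hx : x o = 1) (h : ∀ j l, pl x v j l = 0) : Par x v := by
  refine ⟨v o, ?_⟩
  funext l
  have h1 := h o l
  unfold pl at h1
  rw [hx, one_mul] at h1
  rw [Pi.smul_apply, smul_eq_mul, mul_comm]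
  exact sub_eq_zero.1 h1

/-- the directions `Q X_m^6`, for an arbitrary linear map -/
theorem FinQ8_lin (L : MvPolynomial σ Ω →ₗ[Ω] (σ → Ω)) (x : σ → Ω) (o : σ) (hx : x o = 1)
    (Q : MvPolynomial σ Ω)
    (hpar : ∀ C l, dt l x = 0 → Par x (L (C * Q * lf l))) (m : σ) :
    ∃ c : Ω, L (Q * X m ^ 6) = (x m) ^ 6 • L (Q * X o ^ 6) + c • x := by
  obtain ⟨c, hc⟩ := hpar (X m ^ 5 + C (x m) * X m ^ 4 * X o + C (x m) ^ 2 * X m ^ 3 * X o ^ 2 +
    C (x m) ^ 3 * X m ^ 2 * X o ^ 3 + C (x m) ^ 4 * X m * X o ^ 4 + C (x m) ^ 5 * X o ^ 5)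
    (rr x o m) (FinQ8_dt_rr x o m)
  refine ⟨c, ?_⟩
  have hdec : Q * X m ^ 6 = C ((x m) ^ 6) * (Q * X o ^ 6) +
      (X m ^ 5 + C (x m) * X m ^ 4 * X o + C (x m) ^ 2 * X m ^ 3 * X o ^ 2 +
        C (x m) ^ 3 * X m ^ 2 * X o ^ 3 + C (x m) ^ 4 * X m * X o ^ 4 + C (x m) ^ 5 * X o ^ 5) *
        Q * lf (rr x o m) := by
    rw [FinQ8_lf_rr x o hx m, C_pow]
    ring
  rw [hdec, map_add, ← smul_eq_C_mul, map_smul, hc]

omit [Fintype σ] [DecidableEq σ] in
theorem FinQ8_coeff (O : ValuationSubring Ω) (Δ : Ω) (Q : MvPolynomial σ Ω)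
    (h : ∀ k, Δ * coeff k Q ∈ O) (m : σ) (k : σ →₀ ℕ) :
    Δ ^ 1 * coeff k (Q * X m ^ 6) ∈ O := by
  rw [X_pow_eq_monomial, coeff_mul_monomial', pow_one]
  split_ifs with h1
  · rw [mul_one]
    exact h _
  · rw [mul_zero]
    exact zero_mem _

omit [Fintype σ] [DecidableEq σ] in
theorem FinQ8_alg (x V U : σ → Ω) (m : σ) (hm : x m ≠ 0) (c c' : Ω)
    (e : x m ^ 6 • V + c • x = x m • U + c' • x) (j l : σ) :
    pl x V j l * x m ^ 4 = x j / x m * U l - x l / x m * U j := by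
  have e1 : ∀ i, x m ^ 6 * V i + c * x i = x m * U i + c' * x i := by
    intro i
    have := congrFun e i
    simpa only [Pi.add_apply, Pi.smul_apply, smul_eq_mul] using this
  unfold pl
  have h1 : x m ^ 2 * ((x j * V l - x l * V j) * x m ^ 4) =
      x m ^ 2 * (x j / x m * U l - x l / x m * U j) := by
    have h2 : x m ^ 2 * (x j / x m * U l - x l / x m * U j) =
        x j * (x m * U l) - x l * (x m * U j) := by
      field_simp
    rw [h2]
    have h3 := e1 l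
    have h4 := e1 j
    linear_combination x j * h3 - x l * h4
  exact mul_left_cancel₀ (pow_ne_zero 2 hm) h1

omit [Fintype σ] [DecidableEq σ] in
theorem FinQ8_mem (O : ValuationSubring Ω) (Δ : Ω) (x V U : σ → Ω) (m o : σ) (hx : x o = 1)
    (hm : x m ≠ 0) (hxm : ∀ l, x l / x m ∈ O) (c c' : Ω)
    (e : x m ^ 6 • V + c • x = x m • U + c' • x) (hb : ∀ l, Δ ^ (1 + 1) * U l ∈ O)
    (j l : σ) : Δ ^ 2 * (pl x V j l * x m) ∈ O := by
  have m1 : Δ ^ 2 * (x j / x m * U l) ∈ O := by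
    have := mul_mem (hxm j) (hb l)
    have e : x j / x m * (Δ ^ (1 + 1) * U l) = Δ ^ 2 * (x j / x m * U l) := by ring
    rw [← e]
    exact this
  have m2 : Δ ^ 2 * (x l / x m * U j) ∈ O := by
    have := mul_mem (hxm l) (hb j)
    have e : x l / x m * (Δ ^ (1 + 1) * U j) = Δ ^ 2 * (x l / x m * U j) := by ring
    rw [← e]
    exact this
  have m3 : Δ ^ 2 * (pl x V j l * x m ^ 4) ∈ O := by
    rw [FinQ8_alg x V U m hm c c' e j l, mul_sub]
    exact sub_mem m1 m2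
  have m4 : (1 / x m) ^ 3 ∈ O := by
    have := hxm o
    rw [hx] at this
    exact pow_mem this 3
  have h5 : Δ ^ 2 * (pl x V j l * x m) = (1 / x m) ^ 3 * (Δ ^ 2 * (pl x V j l * x m ^ 4)) := by
    field_simp
  rw [h5]
  exact mul_mem m4 m3

end

section

variable {Ω : Type*} [Field Ω] [CharZero Ω] {σ : Type*} [Fintype σ] [DecidableEq σ] {q : ℕ}

/-- the general form, the degree `q` is `2 + 6` -/
theorem FinQ8_gen {D : Sym σ q → Derivation ℤ Ω Ω} {a : Sym σ q → Ω} {B : Subfield Ω}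
    {x n : σ → Ω} (hfr : Frame D a B) (o : σ) (hx : x o = 1) (hnx : dt n x = 0)
    (hnf : ∀ f, dt n (dv D x f) = - ev q x f) (Q : MvPolynomial σ Ω) (hQ : RatP B Q)
    (hhom : (Q * X o ^ 6).IsHomogeneous q)
    (hpar : ∀ C l, dt l x = 0 → Par x (dv D x (C * Q * lf l))) :
    (∀ i, x i ∈ B) ∨ eval x Q = 0 := by
  have key : ∀ m : σ, ∃ c : Ω, dv D x (Q * X m ^ 6) =
      (x m) ^ 6 • dv D x (Q * X o ^ 6) + c • x :=
    FinQ8_lin (dv D x) x o hx Q hpar
  by_cases hw : ∀ j l, pl x (dv D x (Q * X o ^ 6)) j l = 0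
  · right
    obtain ⟨c, hc⟩ := FinQ8_par x _ o hx hw
    have h1 := hnf (Q * X o ^ 6)
    rw [hc, dt_smul', hnx, mul_zero, ev_hom q x _ hhom] at h1
    have h4 : eval x (Q * X o ^ 6) = eval x Q := by
      rw [map_mul, map_pow, eval_X, hx, one_pow, mul_one]
    rw [h4] at h1
    exact neg_eq_zero.1 h1.symm
  · left
    push Not at hw
    obtain ⟨j, l, hjl⟩ := hw
    classical
    refine rat_pt hfr x o hx (Q.support.image fun k => coeff k Q) ?_
      (pl x (dv D x (Q * X o ^ 6)) j l) hjl 2 ?_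
    · intro b hb
      obtain ⟨k, -, rfl⟩ := Finset.mem_image.1 hb
      exact hQ k
    · intro O Δ hΔ hs m hm hxm
      have hco : ∀ k, Δ * coeff k Q ∈ O := by
        intro k
        by_cases hk : k ∈ Q.support
        · exact hs _ (Finset.mem_image_of_mem _ hk)
        · rw [notMem_support_iff.1 hk, mul_zero]
          exact zero_mem _
      obtain ⟨c, hc⟩ := key m
      obtain ⟨c', hc'⟩ := dv_scale D x m hm (Q * X m ^ 6)
      have hb := dv_bdd D (fun l => x l / x m) O Δ hΔ hxm (Q * X m ^ 6) 1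
        (FinQ8_coeff O Δ Q hco m)
      exact FinQ8_mem O Δ x _ _ m o hx hm hxm c c' (hc.symm.trans hc') hb j l

end

variable {Ω : Type*} [Field Ω] [CharZero Ω] {q : ℕ} {D : Sym (Fin 6) q → Derivation ℤ Ω Ω}
  {a : Sym (Fin 6) q → Ω} {B : Subfield Ω} {x n : Fin 6 → Ω}

theorem fin_q8 (h : Pt8 D a B x n) (Q : MvPolynomial (Fin 6) Ω) (hQ : RatP B Q)
    (hQ2 : Q.IsHomogeneous 2)
    (hpar : ∀ C l, dt l x = 0 → Par x (dv D x (C * Q * lf l))) :
    (∀ i, x i ∈ B) ∨ eval x Q = 0 := by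
  have hhom : (Q * X (0 : Fin 6) ^ 6).IsHomogeneous q := by
    rw [h.hq]
    exact hQ2.mul (by simpa using (isHomogeneous_X Ω (0 : Fin 6)).pow 6)
  exact FinQ8_gen h.frame 0 h.one h.nx h.nf Q hQ hhom hpar

end Pool.Agent.Helper74.Q8
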