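import Mathlib

/-!
# Q8-TRI: a degenerate trace form gives a common triangular form

`N` is a combination of the `M i`, so `tr(N N) = 0` and `tr N = tr(N M_(i₀)) = 0`: `N^2 = 0`
(Cayley-Hamilton), so `N = v w^T` with `w . v = tr N = 0`, and `0 = tr(N M_i) = w . (M_i v)`.
`tri_eig`: `w . (A v) = 0` and `w . v = 0`, `v, w ≠ 0` in dimension 2 give `A v = f v`, `w A = g w`,
with trace `f + g` and determinant `f g`; `f, g` are linear in `P`.
-/

set_option autoImplicit false

namespace Pool.Agent.Helper74.Q8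

open scoped BigOperators Matrix

theorem tri {Ω : Type*} [Field Ω] [CharZero Ω] {ι : Type*}
    (M : ι → Matrix (Fin 2) (Fin 2) Ω) (i₀ : ι) (h1 : M i₀ = 1) (N : Matrix (Fin 2) (Fin 2) Ω)
    (hN : N ≠ 0) (hNs : N ∈ Submodule.span Ω (Set.range M)) (hN0 : ∀ i, (N * M i).trace = 0) :
    ∃ v w : Fin 2 → Ω, v ≠ 0 ∧ w ≠ 0 ∧ w ⬝ᵥ v = 0 ∧ ∀ i, w ⬝ᵥ (M i *ᵥ v) = 0 := by
  have htr : N 0 0 + N 1 1 = 0 := by
    have h := hN0 i₀
    rw [h1, mul_one, Matrix.trace_fin_two] at h
    exact h
  have hall : ∀ X ∈ Submodule.span Ω (Set.range M), (N * X).trace = 0 := by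
    intro X hX
    induction hX using Submodule.span_induction with
    | mem x hx =>
      obtain ⟨i, rfl⟩ := hx
      exact hN0 i
    | zero => simp
    | add x y _ _ hx hy => rw [mul_add, Matrix.trace_add, hx, hy, add_zero]
    | smul c x _ hx => rw [Matrix.mul_smul, Matrix.trace_smul, hx, smul_zero]
  have hNN : N 0 0 * N 0 0 + N 0 1 * N 1 0 + (N 1 0 * N 0 1 + N 1 1 * N 1 1) = 0 := by
    have h := hall N hNs
    simpa [Matrix.trace_fin_two, Matrix.mul_apply, Fin.sum_univ_two] using h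
  have hdet : N 0 0 * N 1 1 - N 0 1 * N 1 0 = 0 := by
    have h2 : (2 : Ω) * (N 0 0 * N 1 1 - N 0 1 * N 1 0) = 0 := by
      linear_combination (N 0 0 + N 1 1) * htr - hNN
    exact (mul_eq_zero.mp h2).resolve_left two_ne_zero
  obtain ⟨k, l, hkl⟩ : ∃ k l, N k l ≠ 0 := by
    by_contra hcon
    push Not at hcon
    exact hN (by ext i j; exact hcon i j)
  refine ⟨fun j => N j l, fun j => N k j, fun h => hkl (congrFun h k), fun h => hkl (congrFun h l),
    ?_, ?_⟩
  · simp only [dotProduct, Fin.sum_univ_two]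
    fin_cases k <;> fin_cases l <;> simp only [Fin.zero_eta, Fin.mk_one, Fin.isValue]
    · linear_combination N 0 0 * htr - hdet
    · linear_combination N 0 1 * htr
    · linear_combination N 1 0 * htr
    · linear_combination N 1 1 * htr - hdet
  · intro i
    have hi := hN0 i
    simp only [Matrix.trace_fin_two, Matrix.mul_apply, Fin.sum_univ_two] at hi
    simp only [dotProduct, Matrix.mulVec, Fin.sum_univ_two]
    fin_cases k <;> fin_cases l <;> simp only [Fin.zero_eta, Fin.mk_one, Fin.isValue]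
    · linear_combination N 0 0 * hi - M i 1 1 * hdet
    · linear_combination N 0 1 * hi + M i 0 1 * hdet
    · linear_combination N 1 0 * hi + M i 1 0 * hdet
    · linear_combination N 1 1 * hi - M i 0 0 * hdet

theorem tri_prop {Ω : Type*} [Field Ω] {v w u : Fin 2 → Ω} (hw : w ≠ 0)
    (hwv : w ⬝ᵥ v = 0) (hwu : w ⬝ᵥ u = 0) : u 0 * v 1 = u 1 * v 0 := by
  simp only [dotProduct, Fin.sum_univ_two] at hwv hwu
  have h0 : w 0 * (u 0 * v 1 - u 1 * v 0) = 0 := by
    linear_combination v 1 * hwu - u 1 * hwv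
  have h1 : w 1 * (u 0 * v 1 - u 1 * v 0) = 0 := by
    linear_combination u 0 * hwv - v 0 * hwu
  by_contra hne
  have hne' : u 0 * v 1 - u 1 * v 0 ≠ 0 := sub_ne_zero.mpr hne
  apply hw
  ext i
  fin_cases i
  · exact (mul_eq_zero.mp h0).resolve_right hne'
  · exact (mul_eq_zero.mp h1).resolve_right hne'

theorem tri_lin {Ω : Type*} [Field Ω] {V : Type*} [AddCommGroup V] [Module Ω V]
    (U : V →ₗ[Ω] (Fin 2 → Ω)) (v w : Fin 2 → Ω) (hv : v ≠ 0) (hw : w ≠ 0)
    (hwv : w ⬝ᵥ v = 0) (h : ∀ P, w ⬝ᵥ U P = 0) :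
    ∃ f : V →ₗ[Ω] Ω, ∀ P, U P = f P • v := by
  obtain ⟨k, hk⟩ : ∃ k, v k ≠ 0 := by
    by_contra hcon
    push Not at hcon
    exact hv (funext hcon)
  refine ⟨(v k)⁻¹ • ((LinearMap.proj k).comp U), ?_⟩
  intro P
  have hp := tri_prop hw hwv (h P)
  ext i
  simp only [LinearMap.smul_apply, LinearMap.comp_apply, LinearMap.proj_apply, Pi.smul_apply,
    smul_eq_mul]
  fin_cases k <;> fin_cases i <;> simp only [Fin.zero_eta, Fin.mk_one, Fin.isValue] at hk ⊢
  · field_simp
  · field_simp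
    linear_combination -hp
  · field_simp
    linear_combination hp
  · field_simp

theorem tri_eig {Ω : Type*} [Field Ω] [CharZero Ω] {V : Type*} [AddCommGroup V] [Module Ω V]
    (A : V →ₗ[Ω] Matrix (Fin 2) (Fin 2) Ω) (v w : Fin 2 → Ω) (hv : v ≠ 0) (hw : w ≠ 0)
    (hwv : w ⬝ᵥ v = 0) (h : ∀ P, w ⬝ᵥ (A P *ᵥ v) = 0) :
    ∃ f g : V →ₗ[Ω] Ω, (∀ P, A P *ᵥ v = f P • v) ∧ (∀ P, w ᵥ* A P = g P • w) ∧
      ∀ P, (A P).trace = f P + g P ∧ (A P).det = f P * g P := by
  obtain ⟨f, hf⟩ := tri_lin (V := V)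
    { toFun := fun P => A P *ᵥ v
      map_add' := fun P Q => by rw [map_add, Matrix.add_mulVec]
      map_smul' := fun c P => by
        rw [map_smul, Matrix.smul_mulVec, RingHom.id_apply] } v w hv hw hwv h
  obtain ⟨g, hg⟩ := tri_lin (V := V)
    { toFun := fun P => w ᵥ* A P
      map_add' := fun P Q => by rw [map_add, Matrix.vecMul_add]
      map_smul' := fun c P => by
        rw [map_smul, Matrix.vecMul_smul, RingHom.id_apply] } w v hw hv
      (by rw [dotProduct_comm]; exact hwv)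
      (fun P => by
        change v ⬝ᵥ (w ᵥ* A P) = 0
        rw [dotProduct_comm, ← Matrix.dotProduct_mulVec]
        exact h P)
  refine ⟨f, g, hf, hg, ?_⟩
  intro P
  have hf0 := congrFun (hf P) 0
  have hf1 := congrFun (hf P) 1
  have hg0 := congrFun (hg P) 0
  have hg1 := congrFun (hg P) 1
  simp only [LinearMap.coe_mk, AddHom.coe_mk, Matrix.mulVec, Matrix.vecMul, dotProduct,
    Fin.sum_univ_two, Pi.smul_apply, smul_eq_mul] at hf0 hf1 hg0 hg1
  have hwv' : w 0 * v 0 + w 1 * v 1 = 0 := by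
    simpa [dotProduct, Fin.sum_univ_two] using hwv
  rw [Matrix.trace_fin_two, Matrix.det_fin_two]
  have htr : A P 0 0 + A P 1 1 = f P + g P := by
    rcases eq_or_ne (v 0) 0 with h0 | h0
    · have hv1 : v 1 ≠ 0 := by
        intro h1
        exact hv (by ext i; fin_cases i; exacts [h0, h1])
      have hw1 : w 1 = 0 := by
        rw [h0, mul_zero, zero_add] at hwv'
        exact (mul_eq_zero.mp hwv').resolve_right hv1
      have hw0 : w 0 ≠ 0 := by
        intro h1
        exact hw (by ext i; fin_cases i; exacts [h1, hw1])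
      have e1 : A P 1 1 = f P := by
        apply mul_right_cancel₀ hv1
        rw [h0] at hf1
        linear_combination hf1
      have e2 : A P 0 0 = g P := by
        apply mul_right_cancel₀ hw0
        rw [hw1] at hg0
        linear_combination hg0
      rw [e1, e2, add_comm]
    · have hw1 : w 1 ≠ 0 := by
        intro h1
        rw [h1, zero_mul, add_zero] at hwv'
        have hw0 : w 0 = 0 := (mul_eq_zero.mp hwv').resolve_right h0
        exact hw (by ext i; fin_cases i; exacts [hw0, h1])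
      apply mul_right_cancel₀ (mul_ne_zero h0 hw1)
      linear_combination w 1 * hf0 + v 0 * hg1 - A P 0 1 * hwv'
  refine ⟨htr, ?_⟩
  have hch : (A P 0 0 - f P) * (A P 1 1 - f P) - A P 0 1 * A P 1 0 = 0 := by
    rcases eq_or_ne (v 0) 0 with h0 | h0
    · have hv1 : v 1 ≠ 0 := by
        intro h1
        exact hv (by ext i; fin_cases i; exacts [h0, h1])
      apply mul_right_cancel₀ hv1
      linear_combination (A P 0 0 - f P) * hf1 - A P 1 0 * hf0
    · apply mul_right_cancel₀ h0
      linear_combination (A P 1 1 - f P) * hf0 - A P 0 1 * hf1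
  linear_combination hch + f P * htr

end Pool.Agent.Helper74.Q8
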