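import Pool.Agent.Helper74.Q8.Lines6

/-!
# Q8-ANNPT6: the annihilator of a rational functional on forms of degree 7

`A = {m | f(C m) = 0 for all C}` is a linear subspace; `f(C lf m) = ∑ m_j f(C X_j)`, for monomials
`C` a linear system over `B`: by `ker_rat` `A` is spanned by its rational elements. It contains `k_i`
and `l'`. If all rational elements of `A` are orthogonal to `x`, then (as `l'` is in their span, not
in the span of `k`) four of them are independent: `four_line`. Otherwise let `m0 ∈ A` be rational,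
`m0 . x ≠ 0`; `l'` is not in the span of `k, m0` (evaluate at `x`), so there is a rational `m1 ∈ A`
such that `k, m0, m1` are independent (dimension 5); let `z ≠ 0` be a rational common zero of these
(`ker_rat`). `f ≠ 0` and `hf7` imply `A ≠ everything`, so `A = z^⊥`, `dt l' z = 0`. A form of degree 7
with `P(z) = 0` is a combination `∑ C_i lf(m_i)` with `m_i . z = 0` (choose `j` with `z_j ≠ 0`:
modulo these, `X_i = (z_i / z_j) X_j`), so `f(P) = 0`. Compare `Helper6/QS/AnnPt.lean`.
-/

set_option autoImplicit false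

namespace Pool.Agent.Helper74.Q8

open scoped BigOperators
open MvPolynomial
open Pool.Agent.Helper8.LG (Bdd form mon)
open Pool.Agent.Helper49.LN (cP mo hf pl)
open Pool.Agent.Helper6.QS

section AnnPt6_gen

variable {Ω : Type*} [Field Ω] {σ : Type*} [Fintype σ] {B : Subfield Ω}

theorem AnnPt6_dt_add_left (u v w : σ → Ω) : dt (u + v) w = dt u w + dt v w := by
  simp only [dt, Pi.add_apply, add_mul, Finset.sum_add_distrib]

theorem AnnPt6_dt_smul_left (c : Ω) (u w : σ → Ω) : dt (c • u) w = c * dt u w := by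
  simp only [dt, Pi.smul_apply, smul_eq_mul, Finset.mul_sum, mul_assoc]

/-- the annihilator of `v` -/
noncomputable def AnnPt6_A (v : MvPolynomial σ Ω →ₗ[Ω] Ω) : Submodule Ω (σ → Ω) where
  carrier := {l | ∀ C, v (C * lf l) = 0}
  add_mem' := by
    intro a b ha hb C
    have h : lf (a + b) = lf a + lf b := by
      simp only [lf, Pi.add_apply, add_smul, Finset.sum_add_distrib]
    rw [h, mul_add, map_add, ha C, hb C, add_zero]
  zero_mem' := by
    intro C
    have h : lf (0 : σ → Ω) = 0 := by simp [lf]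
    rw [h, mul_zero, map_zero]
  smul_mem' := by
    intro c a ha C
    have h : lf (c • a) = c • lf a := by
      simp only [lf, Pi.smul_apply, smul_eq_mul, Finset.smul_sum, mul_smul]
    rw [h, mul_smul_comm, map_smul, ha C, smul_zero]

theorem AnnPt6_mem_A (v : MvPolynomial σ Ω →ₗ[Ω] Ω) (l : σ → Ω) :
    l ∈ AnnPt6_A v ↔ ∀ C, v (C * lf l) = 0 := Iff.rfl

theorem AnnPt6_v_mul_lf (v : MvPolynomial σ Ω →ₗ[Ω] Ω) (C : MvPolynomial σ Ω)
    (l : σ → Ω) : v (C * lf l) = ∑ i, l i * v (C * X i) := by
  simp only [lf, Finset.mul_sum, mul_smul_comm, map_sum, map_smul, smul_eq_mul]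

/-- the vectors `λ(l)` are in the annihilator -/
theorem AnnPt6_lam (v : MvPolynomial σ Ω →ₗ[Ω] Ω) (hvB : ∀ P, RatP B P → v P ∈ B)
    (l : σ → Ω) (hl : l ∈ AnnPt6_A v) (lam : Ω →ₗ[B] B) :
    (fun i => ((lam (l i) : B) : Ω)) ∈ AnnPt6_A v := by
  have key : ∀ s : σ →₀ ℕ,
      v (monomial s 1 * lf (fun i => ((lam (l i) : B) : Ω))) = 0 := by
    intro s
    have hB : ∀ i : σ, v (monomial s 1 * X i) ∈ B := by
      classical
      intro i
      apply hvB
      intro m
      rw [X, monomial_mul, coeff_monomial, mul_one]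
      split_ifs
      · exact B.one_mem
      · exact B.zero_mem
    rw [AnnPt6_v_mul_lf]
    have h1 := hl (monomial s 1)
    rw [AnnPt6_v_mul_lf] at h1
    have h2 : ∑ i, (⟨v (monomial s 1 * X i), hB i⟩ : B) • l i = 0 := by
      rw [← h1]
      refine Finset.sum_congr rfl fun i _ => ?_
      rw [Subfield.smul_def, smul_eq_mul, mul_comm]
    have h3 := congrArg lam h2
    rw [map_sum, map_zero] at h3
    simp only [map_smul, smul_eq_mul] at h3
    have h4 := congrArg (Subtype.val : B → Ω) h3
    rw [show (Subtype.val (0 : B) : Ω) = 0 from rfl] at h4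
    rw [← h4]
    rw [show (Subtype.val : B → Ω) = B.subtype from rfl, map_sum]
    refine Finset.sum_congr rfl fun i _ => ?_
    exact mul_comm _ _
  rw [AnnPt6_mem_A]
  intro C
  induction C using MvPolynomial.induction_on' with
  | monomial s a =>
    have h1 : (monomial s a : MvPolynomial σ Ω) = a • monomial s 1 := by
      rw [smul_monomial, smul_eq_mul, mul_one]
    rw [h1, smul_mul_assoc, map_smul, key, smul_zero]
  | add p q hp hq => rw [add_mul, map_add, hp, hq, add_zero]

/-- a vector is a combination of the `λ(l)` -/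
theorem AnnPt6_mem (M : Submodule Ω (σ → Ω)) (l : σ → Ω)
    (h : ∀ lam : Ω →ₗ[B] B, (fun i => ((lam (l i) : B) : Ω)) ∈ M) : l ∈ M := by
  classical
  set e := Module.Basis.ofVectorSpace B Ω with he
  set S : Finset _ := Finset.univ.biUnion fun i : σ => (e.repr (l i)).support with hS
  have h1 : l = ∑ s ∈ S, e s • (fun i => ((e.coord s (l i) : B) : Ω)) := by
    funext i
    rw [Finset.sum_apply]
    have h2 := e.linearCombination_repr (l i)
    rw [Finsupp.linearCombination_apply] at h2
    rw [Finsupp.sum_of_support_subset (s := S) _ _ _ (by intro s _; exact zero_smul _ _)] at h2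
    · refine h2.symm.trans ?_
      refine Finset.sum_congr rfl fun s _ => ?_
      exact mul_comm _ _
    · intro s hs
      rw [hS, Finset.mem_biUnion]
      exact ⟨i, Finset.mem_univ _, hs⟩
  rw [h1]
  exact M.sum_mem fun s _ => M.smul_mem _ (h (e.coord s))

omit [Fintype σ] in
/-- the relation between the monomials -/
theorem AnnPt6_mono (v : MvPolynomial σ Ω →ₗ[Ω] Ω) (z : σ → Ω) (j : σ)
    (hr : ∀ C (i : σ), z j * v (C * X i) = z i * v (C * X j)) (s : σ →₀ ℕ) :
    ∀ C, z j ^ s.degree * v (C * monomial s 1) =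
      eval z (monomial s 1) * v (C * X j ^ s.degree) := by
  induction s using Finsupp.induction_linear with
  | zero => intro C; simp
  | add s t hs ht =>
    intro C
    have h1 : (monomial (s + t) 1 : MvPolynomial σ Ω) = monomial s 1 * monomial t 1 := by
      rw [monomial_mul, one_mul]
    rw [h1, map_add, pow_add, pow_add, ← mul_assoc C, (eval z).map_mul]
    have h2 := ht (C * monomial s 1)
    have h3 := hs (C * X j ^ t.degree)
    have h4 : C * X j ^ t.degree * monomial s 1 = C * monomial s 1 * X j ^ t.degree := by ring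
    have h5 : C * X j ^ t.degree * X j ^ s.degree = C * (X j ^ s.degree * X j ^ t.degree) := by
      ring
    rw [h4, h5] at h3
    rw [mul_assoc, h2]
    linear_combination (eval z (monomial t 1)) * h3
  | single i k =>
    induction k with
    | zero => intro C; simp
    | succ k ih =>
      intro C
      have h1 : (monomial (Finsupp.single i (k + 1)) 1 : MvPolynomial σ Ω) =
          monomial (Finsupp.single i k) 1 * X i := by
        rw [X, monomial_mul, one_mul, ← Finsupp.single_add]
      have h2 : (Finsupp.single i (k + 1)).degree = k + 1 := Finsupp.degree_single _ _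
      have h3 : (Finsupp.single i k).degree = k := Finsupp.degree_single _ _
      rw [h3] at ih
      rw [h1, h2, (eval z).map_mul, eval_X, pow_succ, pow_succ]
      have h4 := hr (C * monomial (Finsupp.single i k) 1) i
      have h5 := ih (C * X j)
      have h6 : C * X j * monomial (Finsupp.single i k) 1 =
          C * monomial (Finsupp.single i k) 1 * X j := by ring
      have h7 : C * X j * X j ^ k = C * (X j ^ k * X j) := by ring
      rw [h6, h7] at h5
      rw [← mul_assoc C]
      linear_combination (z j ^ k) * h4 + z i * h5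

omit [Fintype σ] in
/-- the value of `v` on a form -/
theorem AnnPt6_form (v : MvPolynomial σ Ω →ₗ[Ω] Ω) (z : σ → Ω) (j : σ)
    (hr : ∀ C (i : σ), z j * v (C * X i) = z i * v (C * X j)) (n : ℕ)
    (Q : MvPolynomial σ Ω) (hQ : Q.IsHomogeneous n) :
    z j ^ n * v Q = eval z Q * v (X j ^ n) := by
  conv_lhs => rw [Q.as_sum]
  conv_rhs => rw [Q.as_sum]
  rw [map_sum, map_sum, Finset.mul_sum, Finset.sum_mul]
  refine Finset.sum_congr rfl fun s hs => ?_
  have h1 : s.degree = n := by
    have := hQ (mem_support_iff.1 hs)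
    rwa [Finsupp.degree_eq_weight_one]
  have h2 := AnnPt6_mono v z j hr s 1
  rw [one_mul, one_mul, h1] at h2
  have h3 : (monomial s (coeff s Q) : MvPolynomial σ Ω) = coeff s Q • monomial s 1 := by
    rw [smul_monomial, smul_eq_mul, mul_one]
  rw [h3, map_smul, smul_eq_mul, smul_eval]
  linear_combination (coeff s Q) * h2

/-- the functional `dt _ x` -/
def AnnPt6_ort (x : σ → Ω) : (σ → Ω) →ₗ[Ω] Ω where
  toFun := fun l => dt l x
  map_add' := fun a b => AnnPt6_dt_add_left a b x
  map_smul' := fun c a => AnnPt6_dt_smul_left c a x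

/-- a rational common zero -/
theorem AnnPt6_zero {ι : Type*} [Fintype ι] (u : ι → σ → Ω) (hu : ∀ i j, u i j ∈ B)
    (hc : Fintype.card ι < Fintype.card σ) :
    ∃ z : σ → Ω, (∀ i, z i ∈ B) ∧ z ≠ 0 ∧ ∀ i, dt (u i) z = 0 := by
  set L : (σ → B) →ₗ[B] (ι → B) := Matrix.mulVecLin (Matrix.of
    fun i j => (⟨u i j, hu i j⟩ : B)) with hL
  have hker : L.ker ≠ ⊥ := LinearMap.ker_ne_bot_of_finrank_lt (by
    rw [Module.finrank_fintype_fun_eq_card, Module.finrank_fintype_fun_eq_card]
    exact hc)
  obtain ⟨w, hw, hw0⟩ := L.ker.ne_bot_iff.1 hker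
  have hw' : L w = 0 := hw
  refine ⟨fun i => ((w i : B) : Ω), fun i => (w i).2, ?_, ?_⟩
  · intro hz
    apply hw0
    funext i
    exact Subtype.ext (congrFun hz i)
  · intro i
    have h1 : ∑ j, (⟨u i j, hu i j⟩ : B) * w j = 0 := congrFun hw' i
    have h2 := congrArg B.subtype h1
    rw [map_sum, map_zero] at h2
    exact h2

/-- the abstract conclusion -/
theorem AnnPt6_concl [DecidableEq σ] (v : MvPolynomial σ Ω →ₗ[Ω] Ω) (hv0 : v ≠ 0) {d : ℕ}
    (hv : ∀ P, v P = v (homogeneousComponent (d + 1) P)) {ι : Type*} [Fintype ι]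
    (u : ι → σ → Ω) (hu : LinearIndependent Ω u) (hc : Fintype.card ι + 1 = Fintype.card σ)
    (huA : ∀ i, u i ∈ AnnPt6_A v) (z : σ → Ω) (hz0 : z ≠ 0) (hz : ∀ i, dt (u i) z = 0) :
    (∀ l ∈ AnnPt6_A v, dt l z = 0) ∧
      ∀ P, eval z (homogeneousComponent (d + 1) P) = 0 → v P = 0 := by
  obtain ⟨j, hj⟩ : ∃ j, z j ≠ 0 := by
    by_contra hcon
    push Not at hcon
    exact hz0 (funext hcon)
  let fz : (σ → Ω) →ₗ[Ω] Ω :=
    { toFun := fun l => dt l z
      map_add' := fun a b => AnnPt6_dt_add_left a b z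
      map_smul' := fun c a => AnnPt6_dt_smul_left c a z }
  have hfz : fz ≠ 0 := by
    intro h1
    have h2 := congrArg (fun f : (σ → Ω) →ₗ[Ω] Ω => f (Pi.single j 1)) h1
    have h3 : dt (Pi.single j 1) z = z j := by
      rw [dt, Finset.sum_eq_single j]
      · simp
      · intro i _ hij
        rw [Pi.single_eq_of_ne hij, zero_mul]
      · intro h; exact absurd (Finset.mem_univ j) h
    exact hj (h3.symm.trans h2)
  have hsp : Submodule.span Ω (Set.range u) = fz.ker := by
    apply Submodule.eq_of_le_of_finrank_le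
    · rw [Submodule.span_le]
      rintro _ ⟨i, rfl⟩
      exact hz i
    · have h1 := Module.Dual.finrank_ker_add_one_of_ne_zero (f := fz) hfz
      rw [finrank_span_eq_card hu]
      rw [Module.finrank_fintype_fun_eq_card] at h1
      omega
  have hperp : ∀ l, dt l z = 0 → l ∈ AnnPt6_A v := by
    intro l hl
    have h1 : l ∈ fz.ker := hl
    rw [← hsp] at h1
    refine (Submodule.span_le.2 ?_) h1
    rintro _ ⟨i, rfl⟩
    exact huA i
  have hr : ∀ C (i : σ), z j * v (C * X i) = z i * v (C * X j) := by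
    intro C i
    have h1 : dt (z j • Pi.single i 1 - z i • Pi.single j 1 : σ → Ω) z = 0 := by
      simp only [dt, Pi.sub_apply, Pi.smul_apply, smul_eq_mul, sub_mul, Finset.sum_sub_distrib,
        Pi.single_apply, mul_ite, mul_one, mul_zero, ite_mul, zero_mul, Finset.sum_ite_eq',
        Finset.mem_univ, if_true]
      ring
    have h2 := hperp _ h1 C
    rw [AnnPt6_v_mul_lf] at h2
    simp only [Pi.sub_apply, Pi.smul_apply, smul_eq_mul, sub_mul, Finset.sum_sub_distrib,
        Pi.single_apply, mul_ite, mul_one, mul_zero, ite_mul, zero_mul, Finset.sum_ite_eq',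
        Finset.mem_univ, if_true] at h2
    exact sub_eq_zero.1 h2
  have hform := fun Q hQ => AnnPt6_form v z j hr (d + 1) Q hQ
  refine ⟨?_, ?_⟩
  · intro l1 hA1
    by_contra hlz
    apply hv0
    have hall : ∀ l, l ∈ AnnPt6_A v := by
      intro l
      have h1 : l = (l - (dt l z / dt l1 z) • l1) + (dt l z / dt l1 z) • l1 := by abel
      rw [h1]
      refine (AnnPt6_A v).add_mem (hperp _ ?_) ((AnnPt6_A v).smul_mem _ hA1)
      have h2 : dt (l - (dt l z / dt l1 z) • l1) z = dt l z - (dt l z / dt l1 z) * dt l1 z := by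
        rw [sub_eq_add_neg, ← neg_smul, AnnPt6_dt_add_left, AnnPt6_dt_smul_left]
        ring
      rw [h2, div_mul_cancel₀ _ hlz, sub_self]
    have hX : v (X j ^ (d + 1)) = 0 := by
      have h1 := hall (Pi.single j 1) (X j ^ d)
      rw [AnnPt6_v_mul_lf] at h1
      simp only [Pi.single_apply, ite_mul, one_mul, zero_mul, Finset.sum_ite_eq',
        Finset.mem_univ, if_true] at h1
      rwa [← pow_succ] at h1
    refine LinearMap.ext fun P => ?_
    have h1 := hform _ (homogeneousComponent_isHomogeneous (d + 1) P)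
    rw [hX, mul_zero, mul_eq_zero] at h1
    rw [hv, LinearMap.zero_apply]
    exact h1.resolve_left (pow_ne_zero _ hj)
  · intro P hP
    have h1 := hform _ (homogeneousComponent_isHomogeneous (d + 1) P)
    rw [hP, zero_mul, mul_eq_zero] at h1
    rw [hv]
    exact h1.resolve_left (pow_ne_zero _ hj)

end AnnPt6_gen

variable {Ω : Type*} [Field Ω] [CharZero Ω] {q : ℕ} {D : Sym (Fin 6) q → Derivation ℤ Ω Ω}
  {a : Sym (Fin 6) q → Ω} {B : Subfield Ω} {x n : Fin 6 → Ω}

theorem ann_pt6 {k : Fin 3 → Fin 6 → Ω} {l : Fin 2 → Fin 6 → Ω} (pl : Pl8 D a B x n k l)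
    (l' : Fin 6 → Ω) (hl' : dt l' x = 0) (hk : l' ∉ Submodule.span Ω (Set.range k))
    (f : MvPolynomial (Fin 6) Ω →ₗ[Ω] Ω) (hf0 : f ≠ 0) (hfB : ∀ P, RatP B P → f P ∈ B)
    (hf7 : ∀ P, f P = f (homogeneousComponent 7 P)) (fk : ∀ C i, f (C * lf (k i)) = 0)
    (fl : ∀ C, f (C * lf l') = 0) :
    (∀ i, x i ∈ B) ∨ ∃ z : Fin 6 → Ω, (∀ i, z i ∈ B) ∧ z ≠ 0 ∧ (∀ i, dt (k i) z = 0) ∧
      dt l' z = 0 ∧ ∀ P, eval z (homogeneousComponent 7 P) = 0 → f P = 0 := by
  classical
  have hA1 : l' ∈ AnnPt6_A f := fl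
  have hkind : LinearIndependent Ω k := by
    have h1 := pl.ind.comp Sum.inl Sum.inl_injective
    exact h1
  have hkA : ∀ i, k i ∈ AnnPt6_A f := fun i C => fk C i
  -- a first vector
  obtain ⟨lam, hm⟩ : ∃ lam : Ω →ₗ[B] B,
      (fun i => ((lam (l' i) : B) : Ω)) ∉ Submodule.span Ω (Set.range k) := by
    by_contra hcon
    push Not at hcon
    exact hk (AnnPt6_mem _ l' hcon)
  set m : Fin 6 → Ω := fun i => ((lam (l' i) : B) : Ω) with hmdef
  have hmB : ∀ i, m i ∈ B := fun i => (lam (l' i)).2
  have hmA : m ∈ AnnPt6_A f := AnnPt6_lam f hfB l' hA1 lam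
  have hli : LinearIndependent Ω (Matrix.vecCons m k) := linearIndependent_finCons.2 ⟨hkind, hm⟩
  have hliB : ∀ i j, (Matrix.vecCons m k) i j ∈ B := by
    intro i j
    refine Fin.cases ?_ (fun i => ?_) i
    · exact hmB j
    · exact pl.kB i j
  by_cases hmx : dt m x = 0
  · left
    refine four_line pl.pt (Matrix.vecCons m k) hliB ?_ hli
    intro i
    refine Fin.cases ?_ (fun i => ?_) i
    · exact hmx
    · exact pl.kx i
  right
  -- a second vector
  obtain ⟨lam', hm'⟩ : ∃ lam' : Ω →ₗ[B] B,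
      (fun i => ((lam' (l' i) : B) : Ω)) ∉ Submodule.span Ω (Set.range (Matrix.vecCons m k)) := by
    by_contra hcon
    push Not at hcon
    have h0 := AnnPt6_mem _ l' hcon
    rw [Matrix.range_cons, Set.singleton_union, Submodule.mem_span_insert] at h0
    obtain ⟨β, y, hy, hab⟩ := h0
    have hyx : dt y x = 0 := by
      have h2 : y ∈ (AnnPt6_ort x).ker := by
        refine (Submodule.span_le.2 ?_) hy
        rintro _ ⟨i, rfl⟩
        exact pl.kx i
      exact h2
    have h1 : dt l' x = β * dt m x := by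
      rw [hab, AnnPt6_dt_add_left, AnnPt6_dt_smul_left, hyx, add_zero]
    rw [hl'] at h1
    have h2 : β = 0 := (mul_eq_zero.1 h1.symm).resolve_right hmx
    rw [h2, zero_smul, zero_add] at hab
    exact hk (hab ▸ hy)
  set m' : Fin 6 → Ω := fun i => ((lam' (l' i) : B) : Ω) with hm'def
  have hm'B : ∀ i, m' i ∈ B := fun i => (lam' (l' i)).2
  have hm'A : m' ∈ AnnPt6_A f := AnnPt6_lam f hfB l' hA1 lam'
  have hli5 : LinearIndependent Ω (Matrix.vecCons m' (Matrix.vecCons m k)) :=
    linearIndependent_finCons.2 ⟨hli, hm'⟩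
  have hB5 : ∀ i j, (Matrix.vecCons m' (Matrix.vecCons m k)) i j ∈ B := by
    intro i j
    refine Fin.cases ?_ (fun i => ?_) i
    · exact hm'B j
    · exact hliB i j
  have hA5 : ∀ i, (Matrix.vecCons m' (Matrix.vecCons m k)) i ∈ AnnPt6_A f := by
    intro i
    refine Fin.cases ?_ (fun i => ?_) i
    · exact hm'A
    · refine Fin.cases ?_ (fun i => ?_) i
      · exact hmA
      · exact hkA i
  obtain ⟨z, hzB, hz0, hz⟩ := AnnPt6_zero (Matrix.vecCons m' (Matrix.vecCons m k)) hB5
    (by rw [Fintype.card_fin, Fintype.card_fin]; norm_num)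
  obtain ⟨h1, h2⟩ := AnnPt6_concl f hf0 (d := 6) hf7 (Matrix.vecCons m' (Matrix.vecCons m k)) hli5
    (by rw [Fintype.card_fin, Fintype.card_fin]) hA5 z hz0 hz
  exact ⟨z, hzB, hz0, fun i => h1 _ (hkA i), h1 _ hA1, h2⟩

end Pool.Agent.Helper74.Q8
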