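import Pool.Agent.Helper74.Q8.Vol

/-!
# Q8-TRAT: the determinants of two blocks have exponent 0

`T4 D x P Q l l' m m' = vol(D_(P l) x, D_(P l') x, D_(Q m) x, D_(Q m') x)`. With
`T(bc, b'c') = T4 .. (rr x 0 b) (rr x 0 c) (rr x 0 b') (rr x 0 c')` (alternating in `b, c` and in
`b', c'`, zero if an index is `0`) let
`t(j,b,c; b'c') = x_j T(bc, b'c') - x_b T(jc, b'c') + x_c T(jb, b'c')` and
`S(j,b,c; j',b',c') = x_(j') t(j,b,c; b'c') - x_(b') t(j,b,c; j'c') + x_(c') t(j,b,c; j'b')`, so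
`t(j,b,c; b'c') = S(j,b,c; 0,b',c')` (`x_0 = 1`). `rr x j b = x_j rr x 0 b - x_b rr x 0 j`, so
`T4 .. (rr x j b) (rr x j c) (rr x j' b') (rr x j' c') = x_j x_(j') S(j,b,c; j',b',c')`, and
`x_m S(j,b,c; .) = x_j S(m,b,c; .) - x_b S(m,j,c; .) + x_c S(m,j,b; .)`, the same on the right.
At a valuation ring with maximal coordinate `m` (`rat_max`), `x' = x / x_m`:
`vol_x(..) = det(x, D_(f1) x, .., D_(f4) x, D_(X_0^8) x) = x_m^(-8) det(.., D_(X_m^8) x)` for `f_i`
vanishing at `x` (the determinant only depends on `n . D_(f0) x = - f0(x)`), `= x_m^(6-8) det(x', ..)`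
by `dv_scale`, and `rr x m b = x_m rr x' m b`: so `S(m,b,c; m,b',c') = x_m^(6-8+4-2) det(x',
D_(P rr x' m b) x', .., D_(X_m^8) x')`, bounded by a power of `Δ` (`dv_bdd`; `s` = the coefficients
of `P`, `Q`). Compare `Helper6/QS/Gam.lean` (`hv_mem`).
-/

set_option autoImplicit false

namespace Pool.Agent.Helper74.Q8

open scoped BigOperators
open MvPolynomial
open Pool.Agent.Helper8.LG (Bdd form mon)
open Pool.Agent.Helper49.LN (cP mo hf pl)
open Pool.Agent.Helper6.QS

section general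

variable {Ω : Type*} [Field Ω]

theorem trat_ev_pow {σ : Type*} [Fintype σ] [DecidableEq σ] (n : ℕ) (x : σ → Ω) (m : σ) :
    ev n x (X m ^ n : MvPolynomial σ Ω) = x m ^ n := by
  rw [ev_hom n x _ (isHomogeneous_X_pow m n), map_pow, eval_X]

theorem trat_ev_lf {σ : Type*} [Fintype σ] [DecidableEq σ] (n k : ℕ) (hk : n + 1 = k)
    (x l : σ → Ω) (Q : MvPolynomial σ Ω) (hl : dt l x = 0) : ev k x (Q * lf l) = 0 := by
  subst hk
  rw [ev_lf, hl, mul_zero]

theorem trat_coeff_lf {σ : Type*} [Fintype σ] [DecidableEq σ] (O : ValuationSubring Ω)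
    (l : σ → Ω) (hl : ∀ i, l i ∈ O) (mm : σ →₀ ℕ) : coeff mm (lf l) ∈ O := by
  classical
  unfold lf
  rw [coeff_sum]
  refine sum_mem fun i _ => ?_
  rw [coeff_smul, smul_eq_mul, coeff_X]
  refine mul_mem (hl i) ?_
  split_ifs
  · exact one_mem O
  · exact zero_mem O

theorem trat_coeff_mul {σ : Type*} [Fintype σ] [DecidableEq σ] (O : ValuationSubring Ω) (Δ : Ω)
    (P : MvPolynomial σ Ω) (hP : ∀ m, Δ * coeff m P ∈ O) (l : σ → Ω) (hl : ∀ i, l i ∈ O)
    (mm : σ →₀ ℕ) : Δ ^ 1 * coeff mm (P * lf l) ∈ O := by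
  classical
  rw [pow_one, coeff_mul, Finset.mul_sum]
  refine sum_mem fun p _ => ?_
  rw [← mul_assoc]
  exact mul_mem (hP p.1) (trat_coeff_lf O l hl p.2)

theorem trat_coeff_pow {σ : Type*} [Fintype σ] [DecidableEq σ] (O : ValuationSubring Ω) (Δ : Ω)
    (m : σ) (q : ℕ) (mm : σ →₀ ℕ) : Δ ^ 0 * coeff mm (X m ^ q : MvPolynomial σ Ω) ∈ O := by
  classical
  rw [pow_zero, one_mul, coeff_X_pow]
  split_ifs
  · exact one_mem O
  · exact zero_mem O

/-- the determinant: scaled rows, multiples of the first row added -/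
theorem trat_det_scale {k : ℕ} (A A' : Matrix (Fin (k + 1)) (Fin (k + 1)) Ω)
    (s c : Fin (k + 1) → Ω) (hc : c 0 = 0) (h : ∀ i l, A i l = s i * A' i l + c i * A 0 l) :
    A.det = (∏ i, s i) * A'.det := by
  have h0 : ∀ l, A 0 l = s 0 * A' 0 l := fun l => by
    have h1 := h 0 l
    rwa [hc, zero_mul, add_zero] at h1
  rw [← Matrix.det_mul_column]
  refine Matrix.det_eq_of_forall_row_eq_smul_add_const c 0 hc fun i j => ?_
  rw [h i j, Matrix.of_apply, Matrix.of_apply, h0]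

/-- the determinant of a matrix with bounded entries -/
theorem trat_det_mem (O : ValuationSubring Ω) {k : ℕ} (M : Matrix (Fin k) (Fin k) Ω)
    (h : ∀ i j, M i j ∈ O) : M.det ∈ O := by
  rw [Matrix.det_apply']
  exact sum_mem fun σ _ => mul_mem (intCast_mem O _) (prod_mem fun i _ => h _ _)

theorem trat_det_bdd (O : ValuationSubring Ω) (δ : Ω) {k : ℕ} (M : Matrix (Fin k) (Fin k) Ω)
    (h : ∀ i j, δ * M i j ∈ O) : δ ^ k * M.det ∈ O := by
  have e : δ ^ k * M.det = (δ • M).det := by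
    rw [Matrix.det_smul, Fintype.card_fin]
  rw [e]
  exact trat_det_mem O _ h

/-- the determinant only depends on the value of `n` at the second row -/
theorem trat_last {k : ℕ} (n x w w' : Fin (k + 2) → Ω) (v : Fin k → Fin (k + 2) → Ω) (e : Ω)
    (hx : dt n x = 0) (hv : ∀ i, dt n (v i) = 0) (hw : dt n w = - e) (hw' : dt n w' = - 1) :
    Matrix.det (Matrix.of (Matrix.vecCons x (Matrix.vecCons w v))) =
      e * Matrix.det (Matrix.of (Matrix.vecCons x (Matrix.vecCons w' v))) := by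
  classical
  have hn0 : n ≠ 0 := by
    intro h
    rw [h] at hw'
    simp only [dt, Pi.zero_apply, zero_mul, Finset.sum_const_zero] at hw'
    exact one_ne_zero (neg_eq_zero.1 hw'.symm)
  have hnw : dt n (w - e • w') = 0 := by
    have h3 : dt n (w - e • w') = dt n w - e * dt n w' := by
      simp only [dt, Pi.sub_apply, Pi.smul_apply, smul_eq_mul, Finset.mul_sum,
        ← Finset.sum_sub_distrib]
      exact Finset.sum_congr rfl fun i _ => by ring
    rw [h3, hw, hw']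
    ring
  have hdet : Matrix.det (Matrix.of (Matrix.vecCons x (Matrix.vecCons (w - e • w') v))) = 0 := by
    rw [← Matrix.exists_mulVec_eq_zero_iff]
    refine ⟨n, hn0, ?_⟩
    have h4 : ∀ u : Fin (k + 2) → Ω, dt n u = 0 → u ⬝ᵥ n = 0 := by
      intro u hu
      rw [← hu]
      simp only [dotProduct, dt]
      exact Finset.sum_congr rfl fun i _ => mul_comm _ _
    funext i
    refine h4 _ ?_
    refine Fin.cases ?_ (fun i => Fin.cases ?_ (fun i => ?_) i) i
    · exact hx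
    · exact hnw
    · exact hv i
  have h5 : ∀ w : Fin (k + 2) → Ω,
      Matrix.det (Matrix.of (Matrix.vecCons x (Matrix.vecCons w v))) =
      ((Matrix.detRowAlternating (R := Ω) (n := Fin (k + 2))).curryLeft x).curryLeft w v := by
    intro w
    rw [AlternatingMap.curryLeft_apply_apply, AlternatingMap.curryLeft_apply_apply]
    rfl
  rw [h5, map_sub, map_smul, AlternatingMap.sub_apply, AlternatingMap.smul_apply, ← h5, ← h5,
    smul_eq_mul] at hdet
  exact sub_eq_zero.1 hdet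

variable {M : Type*} [AddCommGroup M] [Module Ω M]

theorem trat_sw (f : M [⋀^Fin 4]→ₗ[Ω] Ω) (a b c d : M) :
    f ![b, a, c, d] = - f ![a, b, c, d] := by
  have h := f.map_swap ![a, b, c, d] (i := 0) (j := 1) (by decide)
  rw [← h]
  congr 1
  funext i
  fin_cases i <;> rfl

theorem trat_sw2 (f : M [⋀^Fin 4]→ₗ[Ω] Ω) (a b c d : M) :
    f ![c, d, a, b] = f ![a, b, c, d] := by
  have h1 := f.map_swap ![a, b, c, d] (i := 0) (j := 2) (by decide)
  have h2 := f.map_swap ![c, b, a, d] (i := 1) (j := 3) (by decide)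
  have e1 : (![a, b, c, d] : Fin 4 → M) ∘ Equiv.swap 0 2 = ![c, b, a, d] := by
    funext i
    fin_cases i <;> rfl
  have e2 : (![c, b, a, d] : Fin 4 → M) ∘ Equiv.swap 1 3 = ![c, d, a, b] := by
    funext i
    fin_cases i <;> rfl
  rw [e1] at h1
  rw [e2] at h2
  rw [h2, h1, neg_neg]

theorem trat_eq (f : M [⋀^Fin 4]→ₗ[Ω] Ω) (a c d : M) : f ![a, a, c, d] = 0 :=
  f.map_eq_zero_of_eq ![a, a, c, d] (i := 0) (j := 1) rfl (by decide)

theorem trat_lin (f : M [⋀^Fin 4]→ₗ[Ω] Ω) (α β : Ω) (a a' b c d : M) :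
    f ![α • a + β • a', b, c, d] = α * f ![a, b, c, d] + β * f ![a', b, c, d] := by
  rw [f.map_vecCons_add, f.map_vecCons_smul, f.map_vecCons_smul, smul_eq_mul, smul_eq_mul]

/-! ### the alternating sums -/

/-- the alternating sum over three indices -/
def trat_t (x : Fin 6 → Ω) (F : Fin 6 → Fin 6 → Ω) (j b c : Fin 6) : Ω :=
  x j * F b c - x b * F j c + x c * F j b

/-- the alternating sum over three and three indices -/
def trat_S (x : Fin 6 → Ω) (F : Fin 6 → Fin 6 → Fin 6 → Fin 6 → Ω)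
    (j b c j' b' c' : Fin 6) : Ω :=
  trat_t x (fun u v => trat_t x (fun p r => F p r u v) j b c) j' b' c'

theorem trat_rel1 (x : Fin 6 → Ω) (F : Fin 6 → Fin 6 → Fin 6 → Fin 6 → Ω)
    (m j b c j' b' c' : Fin 6) : x m * trat_S x F j b c j' b' c' =
      x j * trat_S x F m b c j' b' c' - x b * trat_S x F m j c j' b' c' +
        x c * trat_S x F m j b j' b' c' := by
  unfold trat_S trat_t
  ring

theorem trat_rel2 (x : Fin 6 → Ω) (F : Fin 6 → Fin 6 → Fin 6 → Fin 6 → Ω)
    (m j b c j' b' c' : Fin 6) : x m * trat_S x F j b c j' b' c' =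
      x j' * trat_S x F j b c m b' c' - x b' * trat_S x F j b c m j' c' +
        x c' * trat_S x F j b c m j' b' := by
  unfold trat_S trat_t
  ring

theorem trat_step (O : ValuationSubring Ω) (x : Fin 6 → Ω) (m : Fin 6) (hm : x m ≠ 0)
    (hx : ∀ l, x l / x m ∈ O) (y A B C δ : Ω) (j b c : Fin 6)
    (h : x m * y = x j * A - x b * B + x c * C) (hA : δ * A ∈ O) (hB : δ * B ∈ O)
    (hC : δ * C ∈ O) : δ * y ∈ O := by
  have e : δ * y = x j / x m * (δ * A) - x b / x m * (δ * B) + x c / x m * (δ * C) := by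
    refine mul_left_cancel₀ hm ?_
    field_simp
    linear_combination δ * h
  rw [e]
  exact add_mem (sub_mem (mul_mem (hx j) hA) (mul_mem (hx b) hB)) (mul_mem (hx c) hC)

theorem trat_rr (x : Fin 6 → Ω) (hx : x 0 = 1) (j b : Fin 6) :
    rr x j b = x j • rr x 0 b + (- x b) • rr x 0 j := by
  funext i
  simp only [rr, Pi.add_apply, Pi.smul_apply, smul_eq_mul, hx]
  ring

theorem trat_rr_zero (x : Fin 6 → Ω) (j : Fin 6) : rr x j j = 0 := by
  funext i
  simp only [rr, Pi.zero_apply, sub_self]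

theorem trat_rr_dt (x : Fin 6 → Ω) (j b : Fin 6) : dt (rr x j b) x = 0 := by
  classical
  unfold dt rr
  simp only [sub_mul, mul_ite, mul_one, mul_zero, ite_mul, zero_mul, Finset.sum_sub_distrib,
    Finset.sum_ite_eq', Finset.mem_univ, if_true]
  ring

theorem trat_rr_scale (x x' : Fin 6 → Ω) (m : Fin 6) (hm : x m ≠ 0)
    (hx' : x' = fun l => x l / x m) (b : Fin 6) : rr x m b = x m • rr x' m b := by
  rw [hx']
  funext i
  simp only [rr, Pi.smul_apply, smul_eq_mul, div_self hm, one_mul]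
  rw [mul_sub, ← mul_assoc, mul_div_cancel₀ _ hm]

variable {q : ℕ} (D : Sym (Fin 6) q → Derivation ℤ Ω Ω) (x : Fin 6 → Ω)

theorem trat_left (P Q : MvPolynomial (Fin 6) Ω) (α β : Ω) (u w l m m' : Fin 6 → Ω) :
    T4 D x P Q (α • u + β • w) l m m' = α * T4 D x P Q u l m m' + β * T4 D x P Q w l m m' := by
  unfold T4
  rw [dl_add_right, dl_smul_right, dl_smul_right, trat_lin]

theorem trat_anti (P Q : MvPolynomial (Fin 6) Ω) (l l' m m' : Fin 6 → Ω) :
    T4 D x P Q l' l m m' = - T4 D x P Q l l' m m' := by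
  unfold T4
  rw [trat_sw]

theorem trat_right (P Q : MvPolynomial (Fin 6) Ω) (α β : Ω) (u w l m m' : Fin 6 → Ω) :
    T4 D x P Q l (α • u + β • w) m m' = α * T4 D x P Q l u m m' + β * T4 D x P Q l w m m' := by
  rw [trat_anti, trat_left, trat_anti D x P Q l u, trat_anti D x P Q l w]
  ring

theorem trat_self (P Q : MvPolynomial (Fin 6) Ω) (l m m' : Fin 6 → Ω) :
    T4 D x P Q l l m m' = 0 := by
  unfold T4
  rw [trat_eq]

theorem trat_blk (P Q : MvPolynomial (Fin 6) Ω) (l l' m m' : Fin 6 → Ω) :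
    T4 D x P Q l l' m m' = T4 D x Q P m m' l l' := by
  unfold T4
  rw [trat_sw2]

theorem trat_T_rr (hx : x 0 = 1) (P Q : MvPolynomial (Fin 6) Ω) (j b c : Fin 6)
    (m m' : Fin 6 → Ω) : T4 D x P Q (rr x j b) (rr x j c) m m' =
      x j * trat_t x (fun p r => T4 D x P Q (rr x 0 p) (rr x 0 r) m m') j b c := by
  rw [trat_rr x hx j b, trat_rr x hx j c, trat_left, trat_right, trat_right, trat_self]
  unfold trat_t
  rw [trat_anti D x P Q (rr x 0 j) (rr x 0 b)]
  ring

/-- the values at the forms `rr x j b` -/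
theorem trat_T_rr2 (hx : x 0 = 1) (P Q : MvPolynomial (Fin 6) Ω) (j b c j' b' c' : Fin 6) :
    T4 D x P Q (rr x j b) (rr x j c) (rr x j' b') (rr x j' c') =
      x j * (x j' * trat_S x (fun p r u v => T4 D x P Q (rr x 0 p) (rr x 0 r) (rr x 0 u)
        (rr x 0 v)) j b c j' b' c') := by
  rw [trat_T_rr D x hx]
  have h : ∀ p r, T4 D x P Q (rr x 0 p) (rr x 0 r) (rr x j' b') (rr x j' c') =
      x j' * trat_t x (fun u v => T4 D x P Q (rr x 0 p) (rr x 0 r) (rr x 0 u) (rr x 0 v))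
        j' b' c' := by
    intro p r
    rw [trat_blk, trat_T_rr D x hx]
    simp only [trat_t, trat_blk D x Q P]
  simp only [h]
  unfold trat_S trat_t
  ring

/-- the derivative of the product with a scaled linear form -/
theorem trat_dl_rr (x' : Fin 6 → Ω) (m : Fin 6) (hm : x m ≠ 0)
    (hx' : x' = fun l => x l / x m) (P : MvPolynomial (Fin 6) Ω) (b : Fin 6) :
    ∃ c : Ω, dl D x P (rr x m b) = (x m * x m) • dl D x' P (rr x' m b) + c • x := by
  obtain ⟨c, hc⟩ := dv_scale D x m hm (P * lf (rr x' m b))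
  rw [← hx'] at hc
  refine ⟨x m * c, ?_⟩
  rw [trat_rr_scale x x' m hm hx' b, dl_smul_right, dl_eq, dl_eq, hc, smul_add, smul_smul,
    smul_smul]

theorem trat_scale6 (x x' w w' v1 v2 v3 v4 u1 u2 u3 u4 : Fin 6 → Ω) (t c0 c1 c2 c3 c4 : Ω)
    (hx : ∀ l, x l = t * x' l) (hw : w = t • w' + c0 • x) (h1 : v1 = (t * t) • u1 + c1 • x)
    (h2 : v2 = (t * t) • u2 + c2 • x) (h3 : v3 = (t * t) • u3 + c3 • x)
    (h4 : v4 = (t * t) • u4 + c4 • x) :
    Matrix.det (Matrix.of ![x, w, v1, v2, v3, v4]) =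
      t ^ 10 * Matrix.det (Matrix.of ![x', w', u1, u2, u3, u4]) := by
  rw [trat_det_scale (k := 5) (Matrix.of ![x, w, v1, v2, v3, v4])
    (Matrix.of ![x', w', u1, u2, u3, u4]) ![t, t, t * t, t * t, t * t, t * t]
    ![0, c0, c1, c2, c3, c4] rfl]
  · congr 1
    rw [Fin.prod_univ_six]
    simp only [Matrix.cons_val_zero, Matrix.cons_val_one, Matrix.cons_val]
    ring
  · intro i l
    fin_cases i
    · show x l = t * x' l + 0 * x l
      rw [hx, zero_mul, add_zero]
    · show w l = t * w' l + c0 * x l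
      rw [hw]; rfl
    · show v1 l = t * t * u1 l + c1 * x l
      rw [h1]; rfl
    · show v2 l = t * t * u2 l + c2 * x l
      rw [h2]; rfl
    · show v3 l = t * t * u3 l + c3 * x l
      rw [h3]; rfl
    · show v4 l = t * t * u4 l + c4 * x l
      rw [h4]; rfl

end general

variable {Ω : Type*} [Field Ω] [CharZero Ω] {q : ℕ} {D : Sym (Fin 6) q → Derivation ℤ Ω Ω}
  {a : Sym (Fin 6) q → Ω} {B : Subfield Ω} {x n : Fin 6 → Ω}

omit [CharZero Ω] in
theorem trat_n0 (h : Pt8 D a B x n) (P : MvPolynomial (Fin 6) Ω) (j b : Fin 6) :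
    dt n (dl D x P (rr x j b)) = 0 := by
  rw [dl_eq, h.nf, trat_ev_lf 7 q (by rw [h.hq]) x _ P (trat_rr_dt x j b), neg_zero]

omit [CharZero Ω] in
theorem trat_w0 (h : Pt8 D a B x n) (m : Fin 6) : dt n (dv D x (X m ^ q)) = - x m ^ q := by
  rw [h.nf, trat_ev_pow]

omit [CharZero Ω] in
theorem trat_T4 (P Q : MvPolynomial (Fin 6) Ω) (l l' m m' : Fin 6 → Ω) :
    T4 D x P Q l l' m m' = Matrix.det (Matrix.of ![x, dv D x (X 0 ^ q), dl D x P l,
      dl D x P l', dl D x Q m, dl D x Q m']) := by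
  unfold T4
  rw [vol_apply]

/-- change of scale: the exponent is `0` -/
theorem trat_sc (h : Pt8 D a B x n) (x' : Fin 6 → Ω) (m : Fin 6) (hm : x m ≠ 0)
    (hx' : x' = fun l => x l / x m) (P Q : MvPolynomial (Fin 6) Ω) (b c b' c' : Fin 6) :
    trat_S x (fun p r u v => T4 D x P Q (rr x 0 p) (rr x 0 r) (rr x 0 u) (rr x 0 v))
      m b c m b' c' = Matrix.det (Matrix.of ![x', dv D x' (X m ^ q), dl D x' P (rr x' m b),
        dl D x' P (rr x' m c), dl D x' Q (rr x' m b'), dl D x' Q (rr x' m c')]) := by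
  have e4 := trat_T_rr2 D x h.one P Q m b c m b' c'
  rw [trat_T4] at e4
  have hone : dt n (dv D x (X 0 ^ q)) = - 1 := by rw [trat_w0 h, h.one, one_pow]
  have e1 := trat_last n x (dv D x (X m ^ q)) (dv D x (X 0 ^ q)) ![dl D x P (rr x m b),
    dl D x P (rr x m c), dl D x Q (rr x m b'), dl D x Q (rr x m c')] (x m ^ q) h.nx
    (by
      intro i
      fin_cases i
      · exact trat_n0 h P m b
      · exact trat_n0 h P m c
      · exact trat_n0 h Q m b'
      · exact trat_n0 h Q m c') (trat_w0 h m) hone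
  rw [e4] at e1
  obtain ⟨c0, h0⟩ := dv_scale D x m hm (X m ^ q)
  rw [← hx'] at h0
  obtain ⟨c1, h1⟩ := trat_dl_rr D x x' m hm hx' P b
  obtain ⟨c2, h2⟩ := trat_dl_rr D x x' m hm hx' P c
  obtain ⟨c3, h3⟩ := trat_dl_rr D x x' m hm hx' Q b'
  obtain ⟨c4, h4⟩ := trat_dl_rr D x x' m hm hx' Q c'
  have hxx : ∀ l, x l = x m * x' l := fun l => by
    rw [hx']
    simp only
    rw [mul_div_cancel₀ _ hm]
  have e2 := trat_scale6 x x' _ _ _ _ _ _ _ _ _ _ (x m) c0 c1 c2 c3 c4 hxx h0 h1 h2 h3 h4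
  rw [e2] at e1
  have hq8 : x m ^ q = x m ^ 8 := by rw [h.hq]
  rw [hq8] at e1
  refine mul_left_cancel₀ (pow_ne_zero 10 hm) ?_
  rw [e1]
  ring

theorem trat_S_mem (h : Pt8 D a B x n) (P Q : MvPolynomial (Fin 6) Ω) (hP : RatP B P)
    (hQ : RatP B Q) (j b c j' b' c' : Fin 6) :
    trat_S x (fun p r u v => T4 D x P Q (rr x 0 p) (rr x 0 r) (rr x 0 u) (rr x 0 v))
      j b c j' b' c' ∈ B := by
  classical
  refine rat_max h.frame x 0 h.one (P.support.image (fun m => coeff m P) ∪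
    Q.support.image (fun m => coeff m Q)) ?_ _ (2 * 6) ?_
  · intro y hy
    rcases Finset.mem_union.1 hy with hy | hy
    · obtain ⟨m, -, rfl⟩ := Finset.mem_image.1 hy
      exact hP m
    · obtain ⟨m, -, rfl⟩ := Finset.mem_image.1 hy
      exact hQ m
  · intro O Δ hΔ hs m hm hxm
    have hcP : ∀ mm, Δ * coeff mm P ∈ O := by
      intro mm
      by_cases h : coeff mm P = 0
      · rw [h, mul_zero]
        exact zero_mem O
      · exact hs _ (Finset.mem_union_left _ (Finset.mem_image.2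
          ⟨mm, mem_support_iff.2 h, rfl⟩))
    have hcQ : ∀ mm, Δ * coeff mm Q ∈ O := by
      intro mm
      by_cases h : coeff mm Q = 0
      · rw [h, mul_zero]
        exact zero_mem O
      · exact hs _ (Finset.mem_union_right _ (Finset.mem_image.2
          ⟨mm, mem_support_iff.2 h, rfl⟩))
    obtain ⟨x', hx'⟩ : ∃ x' : Fin 6 → Ω, x' = fun l => x l / x m := ⟨_, rfl⟩
    have hxm' : ∀ l, x' l ∈ O := fun l => by
      rw [hx']
      exact hxm l
    have hrr : ∀ b i, rr x' m b i ∈ O := by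
      intro b i
      simp only [rr]
      refine sub_mem (mul_mem (hxm' m) ?_) (mul_mem (hxm' b) ?_)
      · split_ifs
        · exact one_mem O
        · exact zero_mem O
      · split_ifs
        · exact one_mem O
        · exact zero_mem O
    have hv : ∀ (b : Fin 6) (R : MvPolynomial (Fin 6) Ω), (∀ mm, Δ * coeff mm R ∈ O) → ∀ l,
        Δ ^ 2 * dl D x' R (rr x' m b) l ∈ O := fun b R hR =>
      dv_bdd D x' O Δ hΔ hxm' _ 1 (trat_coeff_mul O Δ R hR _ (hrr b))
    have hw : ∀ l, Δ ^ 2 * dv D x' (X m ^ q) l ∈ O := fun l => by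
      have h1 := dv_bdd D x' O Δ hΔ hxm' (X m ^ q) 0 (trat_coeff_pow O Δ m q) l
      have h2 : Δ ^ 2 * dv D x' (X m ^ q) l = Δ * (Δ ^ (0 + 1) * dv D x' (X m ^ q) l) := by
        ring
      rw [h2]
      exact mul_mem hΔ.1 h1
    have hbd : ∀ b c b' c', Δ ^ (2 * 6) * trat_S x (fun p r u v =>
        T4 D x P Q (rr x 0 p) (rr x 0 r) (rr x 0 u) (rr x 0 v)) m b c m b' c' ∈ O := by
      intro b c b' c'
      rw [trat_sc h x' m hm hx' P Q b c b' c', pow_mul]
      refine trat_det_bdd O (Δ ^ 2) _ fun i l => ?_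
      fin_cases i
      · exact mul_mem (pow_mem hΔ.1 2) (hxm' l)
      · exact hw l
      · exact hv b P hcP l
      · exact hv c P hcP l
      · exact hv b' Q hcQ l
      · exact hv c' Q hcQ l
    have h1 : ∀ j b c b' c', Δ ^ (2 * 6) * trat_S x (fun p r u v =>
        T4 D x P Q (rr x 0 p) (rr x 0 r) (rr x 0 u) (rr x 0 v)) j b c m b' c' ∈ O :=
      fun j b c b' c' => trat_step O x m hm hxm _ _ _ _ _ j b c
        (trat_rel1 x _ m j b c m b' c') (hbd b c b' c') (hbd j c b' c') (hbd j b b' c')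
    exact trat_step O x m hm hxm _ _ _ _ _ j' b' c'
      (trat_rel2 x _ m j b c j' b' c') (h1 j b c b' c') (h1 j b c j' c') (h1 j b c j' b')

theorem t_rat (h : Pt8 D a B x n) (P Q : MvPolynomial (Fin 6) Ω) (hP : RatP B P)
    (hQ : RatP B Q) (j b c b' c' : Fin 6) :
    x j * T4 D x P Q (rr x 0 b) (rr x 0 c) (rr x 0 b') (rr x 0 c') -
      x b * T4 D x P Q (rr x 0 j) (rr x 0 c) (rr x 0 b') (rr x 0 c') +
      x c * T4 D x P Q (rr x 0 j) (rr x 0 b) (rr x 0 b') (rr x 0 c') ∈ B := by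
  have h1 := trat_S_mem h P Q hP hQ j b c 0 b' c'
  have hz : ∀ l l' m, T4 D x P Q l l' (rr x 0 0) m = 0 := fun l l' m => by
    have e : rr x 0 0 = (0 : Ω) • (0 : Fin 6 → Ω) + (0 : Ω) • (0 : Fin 6 → Ω) := by
      rw [trat_rr_zero, zero_smul, add_zero]
    rw [trat_blk, e, trat_left, zero_mul, add_zero]
  unfold trat_S trat_t at h1
  simp only [h.one, one_mul, hz, mul_zero, sub_zero, add_zero] at h1
  exact h1

theorem t_rat0 (h : Pt8 D a B x n) (P Q : MvPolynomial (Fin 6) Ω) (hP : RatP B P)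
    (hQ : RatP B Q) (b c b' c' : Fin 6) :
    T4 D x P Q (rr x 0 b) (rr x 0 c) (rr x 0 b') (rr x 0 c') ∈ B := by
  have h1 := t_rat h P Q hP hQ 0 b c b' c'
  have hz : ∀ l m m', T4 D x P Q (rr x 0 0) l m m' = 0 := fun l m m' => by
    have e : rr x 0 0 = (0 : Ω) • (0 : Fin 6 → Ω) + (0 : Ω) • (0 : Fin 6 → Ω) := by
      rw [trat_rr_zero, zero_smul, add_zero]
    rw [e, trat_left, zero_mul, add_zero]
  simp only [h.one, one_mul, hz, mul_zero, sub_zero, add_zero] at h1
  exact h1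

end Pool.Agent.Helper74.Q8
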