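import Pool.Agent.Helper6.QS.Ev
import Pool.Agent.Helper6.QS.Line

/-!
# Q8: generic octic fourfolds, definitions

The degree `q` is a VARIABLE in all statements (`q = 8` is a field of `Pt8`): with the numeral `8`
the kernel and the unifier try to enumerate `Sym (Fin 6) 8`. Keep it a variable in all proofs.

`dl D x P l` is the derivative of the point `x` in the direction `P l`, `l` a linear form.
`vol D x` is the determinant with first rows `x` and `D_(X_0^q) x`: a volume form on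
`U = n^⊥ / x` (dimension 4). `rr x j b`: the coefficients of the linear form `x_j X_b - x_b X_j`.
-/

set_option autoImplicit false

namespace Pool.Agent.Helper74.Q8

open scoped BigOperators
open MvPolynomial
open Pool.Agent.Helper8.LG (Bdd form mon)
open Pool.Agent.Helper49.LN (cP mo hf pl)
open Pool.Agent.Helper6.QS

section general

variable {Ω : Type*} [Field Ω] {σ : Type*} [Fintype σ] [DecidableEq σ] {q : ℕ}

/-- the derivative of `x` in the direction `P l` -/
noncomputable def dl (D : Sym σ q → Derivation ℤ Ω Ω) (x : σ → Ω)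
    (P : MvPolynomial σ Ω) (l : σ → Ω) : σ → Ω := dv D x (P * lf l)

theorem dl_add (D : Sym σ q → Derivation ℤ Ω Ω) (x : σ → Ω) (P P' : MvPolynomial σ Ω)
    (l : σ → Ω) : dl D x (P + P') l = dl D x P l + dl D x P' l := by
  unfold dl
  rw [add_mul, map_add]

theorem dl_smul (D : Sym σ q → Derivation ℤ Ω Ω) (x : σ → Ω) (c : Ω) (P : MvPolynomial σ Ω)
    (l : σ → Ω) : dl D x (c • P) l = c • dl D x P l := by
  unfold dl
  rw [smul_mul_assoc, map_smul]

omit [DecidableEq σ] in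
theorem lf_add' (l l' : σ → Ω) : (lf (l + l') : MvPolynomial σ Ω) = lf l + lf l' := by
  unfold lf
  rw [← Finset.sum_add_distrib]
  exact Finset.sum_congr rfl fun i _ => by rw [Pi.add_apply, add_smul]

omit [DecidableEq σ] in
theorem lf_smul' (c : Ω) (l : σ → Ω) : (lf (c • l) : MvPolynomial σ Ω) = c • lf l := by
  unfold lf
  rw [Finset.smul_sum]
  exact Finset.sum_congr rfl fun i _ => by rw [Pi.smul_apply, smul_eq_mul, mul_smul]

omit [DecidableEq σ] in
theorem lf_zero' : (lf (0 : σ → Ω) : MvPolynomial σ Ω) = 0 := by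
  unfold lf
  exact Finset.sum_eq_zero fun i _ => by rw [Pi.zero_apply, zero_smul]

theorem dl_add_right (D : Sym σ q → Derivation ℤ Ω Ω) (x : σ → Ω) (P : MvPolynomial σ Ω)
    (l l' : σ → Ω) : dl D x P (l + l') = dl D x P l + dl D x P l' := by
  unfold dl
  rw [lf_add', mul_add, map_add]

theorem dl_smul_right (D : Sym σ q → Derivation ℤ Ω Ω) (x : σ → Ω) (P : MvPolynomial σ Ω)
    (c : Ω) (l : σ → Ω) : dl D x P (c • l) = c • dl D x P l := by
  unfold dl
  rw [lf_smul', mul_smul_comm, map_smul]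

theorem dl_zero_right (D : Sym σ q → Derivation ℤ Ω Ω) (x : σ → Ω) (P : MvPolynomial σ Ω) :
    dl D x P (0 : σ → Ω) = 0 := by
  unfold dl
  rw [lf_zero', mul_zero, map_zero]

theorem dl_zero (D : Sym σ q → Derivation ℤ Ω Ω) (x : σ → Ω) (l : σ → Ω) :
    dl D x 0 l = 0 := by
  unfold dl
  rw [zero_mul, map_zero]

/-- the symmetry `D_((C l') l) x = D_((C l) l') x` -/
theorem dl_comm (D : Sym σ q → Derivation ℤ Ω Ω) (x : σ → Ω) (C : MvPolynomial σ Ω)
    (l l' : σ → Ω) : dl D x (C * lf l') l = dl D x (C * lf l) l' := by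
  unfold dl
  rw [mul_assoc, mul_assoc, mul_comm (lf l') (lf l)]

theorem dl_eq (D : Sym σ q → Derivation ℤ Ω Ω) (x : σ → Ω) (P : MvPolynomial σ Ω)
    (l : σ → Ω) : dl D x P l = dv D x (P * lf l) := rfl

omit [DecidableEq σ] in
theorem dt_add' (u v w : σ → Ω) : dt u (v + w) = dt u v + dt u w := by
  unfold dt
  rw [← Finset.sum_add_distrib]
  exact Finset.sum_congr rfl fun i _ => mul_add _ _ _

omit [DecidableEq σ] in
theorem dt_smul' (u v : σ → Ω) (c : Ω) : dt u (c • v) = c * dt u v := by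
  unfold dt
  rw [Finset.mul_sum]
  exact Finset.sum_congr rfl fun i _ => mul_left_comm _ _ _

omit [DecidableEq σ] in
theorem dt_comm' (u v : σ → Ω) : dt u v = dt v u := by
  unfold dt
  exact Finset.sum_congr rfl fun i _ => mul_comm _ _

omit [DecidableEq σ] in
theorem dt_zero' (u : σ → Ω) : dt u 0 = 0 := by
  unfold dt
  exact Finset.sum_eq_zero fun i _ => by rw [Pi.zero_apply, mul_zero]

omit [DecidableEq σ] in
theorem dt_sum' {ι : Type*} (s : Finset ι) (u : σ → Ω) (v : ι → σ → Ω) :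
    dt u (∑ i ∈ s, v i) = ∑ i ∈ s, dt u (v i) := by
  unfold dt
  rw [Finset.sum_comm]
  exact Finset.sum_congr rfl fun i _ => by rw [Finset.sum_apply, Finset.mul_sum]

/-- `dl D x P` as a linear map -/
noncomputable def dlm (D : Sym σ q → Derivation ℤ Ω Ω) (x : σ → Ω) (P : MvPolynomial σ Ω) :
    (σ → Ω) →ₗ[Ω] (σ → Ω) where
  toFun := dl D x P
  map_add' := dl_add_right D x P
  map_smul' := dl_smul_right D x P

theorem dlm_apply (D : Sym σ q → Derivation ℤ Ω Ω) (x : σ → Ω) (P : MvPolynomial σ Ω)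
    (l : σ → Ω) : dlm D x P l = dl D x P l := rfl

/-- the coefficients of the linear form `x_j X_b - x_b X_j` -/
def rr (x : σ → Ω) (j b : σ) (i : σ) : Ω :=
  x j * (if i = b then 1 else 0) - x b * (if i = j then 1 else 0)

/-- the 2 x 2 matrices of functionals `θ_(s,j)(D_(P l_i) x)`, `s = 0, 1` -/
noncomputable def um (D : Sym σ q → Derivation ℤ Ω Ω) (x : σ → Ω)
    (l : Fin 2 → σ → Ω) (θ : Fin 2 → Fin 2 → σ → Ω) (s : Fin 2) :
    MvPolynomial σ Ω →ₗ[Ω] Matrix (Fin 2) (Fin 2) Ω where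
  toFun P := Matrix.of fun i j => dt (θ s j) (dl D x P (l i))
  map_add' P P' := by
    ext i j
    show dt (θ s j) (dl D x (P + P') (l i)) = dt (θ s j) (dl D x P (l i)) +
      dt (θ s j) (dl D x P' (l i))
    rw [dl_add, dt_add']
  map_smul' c P := by
    ext i j
    show dt (θ s j) (dl D x (c • P) (l i)) = c * dt (θ s j) (dl D x P (l i))
    rw [dl_smul, dt_smul']

theorem um_apply (D : Sym σ q → Derivation ℤ Ω Ω) (x : σ → Ω)
    (l : Fin 2 → σ → Ω) (θ : Fin 2 → Fin 2 → σ → Ω) (s : Fin 2)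
    (P : MvPolynomial σ Ω) (i j : Fin 2) :
    um D x l θ s P i j = dt (θ s j) (dl D x P (l i)) := rfl

/-- the family of matrices: `1` and the matrices of the monomials -/
noncomputable def fam (D : Sym σ q → Derivation ℤ Ω Ω) (x : σ → Ω)
    (l : Fin 2 → σ → Ω) (θ : Fin 2 → Fin 2 → σ → Ω) :
    Option (Fin 2 × (σ →₀ ℕ)) → Matrix (Fin 2) (Fin 2) Ω
  | none => 1
  | some p => um D x l θ p.1 (monomial p.2 1)

end general

variable {Ω : Type*} [Field Ω] {q : ℕ}

/-- the volume form: the determinant with rows `x`, `D_(X_0^q) x`, `v_0`, .., `v_(m-1)`; `m = 4` -/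
noncomputable def vol {m : ℕ} (D : Sym (Fin (m + 2)) q → Derivation ℤ Ω Ω)
    (x : Fin (m + 2) → Ω) : (Fin (m + 2) → Ω) [⋀^Fin m]→ₗ[Ω] Ω :=
  ((Matrix.detRowAlternating (R := Ω) (n := Fin (m + 2))).curryLeft x).curryLeft
    (dv D x (X 0 ^ q))

theorem vol_apply {m : ℕ} (D : Sym (Fin (m + 2)) q → Derivation ℤ Ω Ω) (x : Fin (m + 2) → Ω)
    (v : Fin m → Fin (m + 2) → Ω) : vol D x v =
      Matrix.det (Matrix.of (Matrix.vecCons x (Matrix.vecCons (dv D x (X 0 ^ q)) v))) := by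
  unfold vol
  rw [AlternatingMap.curryLeft_apply_apply, AlternatingMap.curryLeft_apply_apply]
  rfl

/-- two blocks: the volume of `D_(P l) x`, `D_(P l') x`, `D_(Q m) x`, `D_(Q m') x` -/
noncomputable def T4 (D : Sym (Fin 6) q → Derivation ℤ Ω Ω) (x : Fin 6 → Ω)
    (P Q : MvPolynomial (Fin 6) Ω) (l l' m m' : Fin 6 → Ω) : Ω :=
  vol D x ![dl D x P l, dl D x P l', dl D x Q m, dl D x Q m']

/-- the point `x` and the normal vector `n` -/
structure Pt8 (D : Sym (Fin 6) q → Derivation ℤ Ω Ω) (a : Sym (Fin 6) q → Ω) (B : Subfield Ω)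
    (x n : Fin 6 → Ω) : Prop where
  hq : q = 8
  frame : Frame D a B
  one : x 0 = 1
  zero : form a x = 0
  nx : dt n x = 0
  nf : ∀ f, dt n (dv D x f) = - ev q x f

/-- **The plane case.** `k` are three rational linear forms vanishing at `x` which do not move `x`;
`l` completes them to a basis of the linear forms vanishing at `x`. -/
structure Pl8 (D : Sym (Fin 6) q → Derivation ℤ Ω Ω) (a : Sym (Fin 6) q → Ω) (B : Subfield Ω)
    (x n : Fin 6 → Ω) (k : Fin 3 → Fin 6 → Ω) (l : Fin 2 → Fin 6 → Ω) : Prop where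
  pt : Pt8 D a B x n
  kB : ∀ i j, k i j ∈ B
  kx : ∀ i, dt (k i) x = 0
  kp : ∀ P i, Par x (dl D x P (k i))
  lx : ∀ i, dt (l i) x = 0
  ind : LinearIndependent Ω (Sum.elim k l)
  span : ∀ m, dt m x = 0 → ∃ (α : Fin 3 → Ω) (β : Fin 2 → Ω), m = ∑ i, α i • k i + ∑ i, β i • l i
  rat : ∀ P Q, RatP B P → RatP B Q →
    T4 D x P Q (l 0) (l 1) (l 0) (l 1) ∈ B

/-- **The matrices.** `θ_(s,j)` are the coordinates of `U` in the basis `D_(P_1 l_0) x`,
`D_(P_1 l_1) x`, `D_(P_2 l_0) x`, `D_(P_2 l_1) x`. -/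
structure Mt8 (D : Sym (Fin 6) q → Derivation ℤ Ω Ω) (a : Sym (Fin 6) q → Ω) (B : Subfield Ω)
    (x n : Fin 6 → Ω) (k : Fin 3 → Fin 6 → Ω) (l : Fin 2 → Fin 6 → Ω)
    (θ : Fin 2 → Fin 2 → Fin 6 → Ω) (P1 P2 : MvPolynomial (Fin 6) Ω) : Prop where
  pl : Pl8 D a B x n k l
  r1 : RatP B P1
  r2 : RatP B P2
  tx : ∀ s j, dt (θ s j) x = 0
  tp : ∀ v, dt n v = 0 → (∀ s j, dt (θ s j) v = 0) → Par x v
  a1 : um D x l θ 0 P1 = 1
  c1 : um D x l θ 1 P1 = 0
  a2 : um D x l θ 0 P2 = 0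
  c2 : um D x l θ 1 P2 = 1
  det : ∀ P Q, RatP B P → RatP B Q → (Matrix.fromBlocks (um D x l θ 0 P) (um D x l θ 1 P)
    (um D x l θ 0 Q) (um D x l θ 1 Q)).det ∈ B

end Pool.Agent.Helper74.Q8
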