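import Mathlib

/-!
# Q8-KERRAT: the solutions of a linear system over a subfield

Let `e_β` be a basis of `Ω` over `B` with coordinates `λ_β : Ω → B` (`B`-linear). For a solution `l`
of the system the vectors `(λ_β(l_j))_j` are solutions in `B`, and `l = ∑_β e_β λ_β(l)` (finitely
many `β`, as `σ` is finite).
-/

set_option autoImplicit false

namespace Pool.Agent.Helper74.Q8

open scoped BigOperators

theorem ker_rat {Ω : Type*} [Field Ω] (B : Subfield Ω) {σ : Type*} [Fintype σ] {ι : Type*}
    (c : ι → σ → Ω) (hc : ∀ i j, c i j ∈ B) (l : σ → Ω) (hl : ∀ i, ∑ j, l j * c i j = 0) :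
    l ∈ Submodule.span Ω {m : σ → Ω | (∀ j, m j ∈ B) ∧ ∀ i, ∑ j, m j * c i j = 0} := by
  classical
  let b := Module.Basis.ofVectorSpace B Ω
  let S : Finset (Module.Basis.ofVectorSpaceIndex B Ω) :=
    Finset.univ.biUnion fun j => (b.repr (l j)).support
  have hlS : l = ∑ β ∈ S, b β • fun j => ((b.repr (l j) β : B) : Ω) := by
    funext j
    rw [Finset.sum_apply]
    have h1 : l j = ∑ β ∈ (b.repr (l j)).support, (b.repr (l j) β) • b β := by
      conv_lhs => rw [← b.linearCombination_repr (l j)]
      rw [Finsupp.linearCombination_apply, Finsupp.sum]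
    have h2 : ∑ β ∈ (b.repr (l j)).support, (b.repr (l j) β) • b β
        = ∑ β ∈ S, (b.repr (l j) β) • b β := by
      apply Finset.sum_subset
      · intro β hβ
        exact Finset.mem_biUnion.mpr ⟨j, Finset.mem_univ j, hβ⟩
      · intro β _ hβ
        rw [Finsupp.notMem_support_iff.mp hβ, zero_smul]
    rw [h2] at h1
    refine h1.trans (Finset.sum_congr rfl fun β _ => ?_)
    rw [Pi.smul_apply, smul_eq_mul, Subfield.smul_def, smul_eq_mul, mul_comm]
  rw [hlS]
  refine Submodule.sum_mem _ fun β _ => Submodule.smul_mem _ _ (Submodule.subset_span ⟨?_, ?_⟩)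
  · intro j
    exact (b.repr (l j) β).2
  · intro i
    have h3 : ∑ j, (⟨c i j, hc i j⟩ : B) • l j = 0 := by
      rw [← hl i]
      refine Finset.sum_congr rfl fun j _ => ?_
      rw [Subfield.smul_def, smul_eq_mul, mul_comm]
    have h4 : ∑ j, (⟨c i j, hc i j⟩ : B) * b.repr (l j) β = 0 := by
      have h5 := congrArg (fun w => b.repr w β) h3
      simp only [map_sum, map_smul, map_zero, Finsupp.coe_zero, Pi.zero_apply,
        Finsupp.finsetSum_apply, Finsupp.smul_apply, smul_eq_mul] at h5
      exact h5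
    have h6 := congrArg (fun w : B => (w : Ω)) h4
    simp only [AddSubmonoidClass.coe_finsetSum, Subfield.coe_mul, Subfield.coe_zero] at h6
    rw [← h6]
    refine Finset.sum_congr rfl fun j _ => ?_
    rw [mul_comm]

end Pool.Agent.Helper74.Q8
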