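import Pool.Agent.Helper6.QS.DefsQ

/-!
# Q8-TRACES: the traces are rational

`g(P, Q) = det(A P, C P; A Q, C Q)`. `g(P1 + P, P2) = det(1 + A P) = 1 + tr + det`,
`g(P, P2) = det (A P)`, so `tr (A P) ∈ B`; `g(P1, P2 + P) = det(1 + C P)`, `g(P1, P) = det (C P)`.
`tr (A P) tr (A Q) - tr (A P A Q) = det(A P + A Q) - det (A P) - det (A Q)` (2 x 2 matrices).
The coefficient of `s t` in `g(P1 + s P, P2 + t Q)` (degree at most 2 in `s` and in `t`), which is
`(f(1,1) - f(1,-1) - f(-1,1) + f(-1,-1)) / 4`, is `tr (A P) tr (C Q) - tr (C P A Q)`.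
Expand all determinants (`Matrix.det_fromBlocks..`, or `Matrix.det_succ_row_zero` after reindexing
by `Fin 4`) and use `ring`.
-/

set_option autoImplicit false

namespace Pool.Agent.Helper74.Q8

open scoped BigOperators Matrix
open MvPolynomial
open Pool.Agent.Helper6.QS

/-- the determinant of a block matrix with blocks of size two -/
theorem Traces_det4 {R : Type*} [CommRing R] (a b c d : Matrix (Fin 2) (Fin 2) R) :
    (Matrix.fromBlocks a b c d).det =
      (a 0 0 * a 1 1 - a 0 1 * a 1 0) * (d 0 0 * d 1 1 - d 0 1 * d 1 0)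
      - (a 0 0 * b 1 0 - b 0 0 * a 1 0) * (c 0 1 * d 1 1 - d 0 1 * c 1 1)
      + (a 0 0 * b 1 1 - b 0 1 * a 1 0) * (c 0 1 * d 1 0 - d 0 0 * c 1 1)
      + (a 0 1 * b 1 0 - b 0 0 * a 1 1) * (c 0 0 * d 1 1 - d 0 1 * c 1 0)
      - (a 0 1 * b 1 1 - b 0 1 * a 1 1) * (c 0 0 * d 1 0 - d 0 0 * c 1 0)
      + (b 0 0 * b 1 1 - b 0 1 * b 1 0) * (c 0 0 * c 1 1 - c 0 1 * c 1 0) := by
  have h : (Matrix.fromBlocks a b c d).det =
      (Matrix.of ![![a 0 0, a 0 1, b 0 0, b 0 1], ![a 1 0, a 1 1, b 1 0, b 1 1],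
        ![c 0 0, c 0 1, d 0 0, d 0 1], ![c 1 0, c 1 1, d 1 0, d 1 1]]).det := by
    rw [← Matrix.det_reindex_self (finSumFinEquiv : Fin 2 ⊕ Fin 2 ≃ Fin 4)]
    congr 1
    ext i j
    fin_cases i <;> fin_cases j <;> rfl
  rw [h]
  simp only [Matrix.det_succ_row_zero, Matrix.submatrix_apply, Fin.sum_univ_succ,
    Matrix.of_apply, Matrix.cons_val_zero, Matrix.cons_val_succ, Fin.succ_zero_eq_one]
  simp [Fin.sum_univ_succ, Fin.succAbove]
  ring

theorem Traces_add {Ω : Type*} [Field Ω] {B : Subfield Ω} {σ : Type*}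
    {P Q : MvPolynomial σ Ω} (hP : RatP B P) (hQ : RatP B Q) : RatP B (P + Q) := by
  intro m
  rw [coeff_add]
  exact B.add_mem (hP m) (hQ m)

theorem Traces_sub {Ω : Type*} [Field Ω] {B : Subfield Ω} {σ : Type*}
    {P Q : MvPolynomial σ Ω} (hP : RatP B P) (hQ : RatP B Q) : RatP B (P - Q) := by
  intro m
  rw [coeff_sub]
  exact B.sub_mem (hP m) (hQ m)

theorem traces {Ω : Type*} [Field Ω] [CharZero Ω] {B : Subfield Ω} {σ : Type*}
    (A C : MvPolynomial σ Ω →ₗ[Ω] Matrix (Fin 2) (Fin 2) Ω) (P1 P2 : MvPolynomial σ Ω)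
    (r1 : RatP B P1) (r2 : RatP B P2) (a1 : A P1 = 1) (c1 : C P1 = 0) (a2 : A P2 = 0)
    (c2 : C P2 = 1)
    (h : ∀ P Q, RatP B P → RatP B Q → (Matrix.fromBlocks (A P) (C P) (A Q) (C Q)).det ∈ B)
    (P Q : MvPolynomial σ Ω) (hP : RatP B P) (hQ : RatP B Q) :
    (A P).trace ∈ B ∧ (C P).trace ∈ B ∧ (A P).det ∈ B ∧ (C P).det ∈ B ∧
      (A P * A Q).trace ∈ B ∧ (C P * C Q).trace ∈ B ∧ (A P * C Q).trace ∈ B := by
  have hdA : ∀ R, RatP B R → (A R).det ∈ B := by
    intro R hR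
    have e := h R P2 hR r2
    rw [a2, c2, Matrix.det_fromBlocks_zero₂₁, Matrix.det_one, mul_one] at e
    exact e
  have hdC : ∀ R, RatP B R → (C R).det ∈ B := by
    intro R hR
    have e := h P1 R r1 hR
    rw [a1, c1, Matrix.det_fromBlocks_zero₁₂, Matrix.det_one, one_mul] at e
    exact e
  have htA : ∀ R, RatP B R → (A R).trace ∈ B := by
    intro R hR
    have e := hdA (P1 + R) (Traces_add r1 hR)
    have e2 : (A R).trace = (A (P1 + R)).det - (A R).det - 1 := by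
      rw [map_add, a1, Matrix.det_fin_two, Matrix.det_fin_two, Matrix.trace_fin_two]
      simp only [Matrix.add_apply, Matrix.one_apply_eq, Matrix.one_apply_ne, ne_eq,
        zero_ne_one, one_ne_zero, not_false_eq_true]
      ring
    rw [e2]
    exact B.sub_mem (B.sub_mem e (hdA R hR)) B.one_mem
  have htC : ∀ R, RatP B R → (C R).trace ∈ B := by
    intro R hR
    have e := hdC (P2 + R) (Traces_add r2 hR)
    have e2 : (C R).trace = (C (P2 + R)).det - (C R).det - 1 := by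
      rw [map_add, c2, Matrix.det_fin_two, Matrix.det_fin_two, Matrix.trace_fin_two]
      simp only [Matrix.add_apply, Matrix.one_apply_eq, Matrix.one_apply_ne, ne_eq,
        zero_ne_one, one_ne_zero, not_false_eq_true]
      ring
    rw [e2]
    exact B.sub_mem (B.sub_mem e (hdC R hR)) B.one_mem
  have h2 : ∀ M N : Matrix (Fin 2) (Fin 2) Ω,
      (M * N).trace = M.trace * N.trace - ((M + N).det - M.det - N.det) := by
    intro M N
    rw [Matrix.det_fin_two, Matrix.det_fin_two, Matrix.det_fin_two, Matrix.trace_fin_two,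
      Matrix.trace_fin_two, Matrix.trace_fin_two]
    simp only [Matrix.mul_apply, Fin.sum_univ_two, Matrix.add_apply]
    ring
  refine ⟨htA P hP, htC P hP, hdA P hP, hdC P hP, ?_, ?_, ?_⟩
  · rw [h2, ← map_add]
    exact B.sub_mem (B.mul_mem (htA P hP) (htA Q hQ))
      (B.sub_mem (B.sub_mem (hdA _ (Traces_add hP hQ)) (hdA P hP)) (hdA Q hQ))
  · rw [h2, ← map_add]
    exact B.sub_mem (B.mul_mem (htC P hP) (htC Q hQ))
      (B.sub_mem (B.sub_mem (hdC _ (Traces_add hP hQ)) (hdC P hP)) (hdC Q hQ))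
  · -- mixed trace
    have f1 := h (P1 + Q) (P2 + P) (Traces_add r1 hQ) (Traces_add r2 hP)
    have f2 := h (P1 + Q) (P2 - P) (Traces_add r1 hQ) (Traces_sub r2 hP)
    have f3 := h (P1 - Q) (P2 + P) (Traces_sub r1 hQ) (Traces_add r2 hP)
    have f4 := h (P1 - Q) (P2 - P) (Traces_sub r1 hQ) (Traces_sub r2 hP)
    have e : (A P * C Q).trace = (A Q).trace * (C P).trace -
        ((Matrix.fromBlocks (A (P1 + Q)) (C (P1 + Q)) (A (P2 + P)) (C (P2 + P))).det
        - (Matrix.fromBlocks (A (P1 + Q)) (C (P1 + Q)) (A (P2 - P)) (C (P2 - P))).det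
        - (Matrix.fromBlocks (A (P1 - Q)) (C (P1 - Q)) (A (P2 + P)) (C (P2 + P))).det
        + (Matrix.fromBlocks (A (P1 - Q)) (C (P1 - Q)) (A (P2 - P)) (C (P2 - P))).det) / 4 := by
      rw [Traces_det4, Traces_det4, Traces_det4, Traces_det4]
      simp only [map_add, map_sub, a1, a2, c1, c2, Matrix.add_apply, Matrix.sub_apply,
        Matrix.one_apply_eq, Matrix.one_apply_ne, ne_eq, zero_ne_one, one_ne_zero,
        not_false_eq_true, Matrix.zero_apply, Matrix.trace_fin_two, Matrix.mul_apply,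
        Fin.sum_univ_two]
      ring
    rw [e]
    have h4 : (4 : Ω) ∈ B := by
      have : ((4 : ℕ) : Ω) ∈ B := natCast_mem B 4
      exact_mod_cast this
    exact B.sub_mem (B.mul_mem (htA Q hQ) (htC P hP))
      (B.div_mem (B.add_mem (B.sub_mem (B.sub_mem f1 f2) f3) f4) h4)

end Pool.Agent.Helper74.Q8
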