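import Pool.Agent.Helper74.Q8.Defs
import Pool.Agent.Helper74.Q8.Traces
import Pool.Agent.Helper74.Q8.KerRat
import Pool.Agent.Helper6.QS.RatQ

/-!
# Q8-RATQ8: a rational quadratic form

`Q` does not vanish identically on the rational space `k_i . y = 0`, so `Q(y1) ≠ 0` for a rational
`y1` in it (`ker_rat`-like: the space is spanned by rational vectors; a polynomial vanishing on all
rational combinations is zero, `B` is infinite). Choose a `B`-linear map `λ : Ω → B` with
`λ(Q(y1)) ≠ 0` and `Q1 = λ(Q)` (coefficientwise): `Q1(y1) = λ(Q(y1)) ≠ 0`. For rational `C`, `P`: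
`um s (C Q) = 0` (`um s (C Q) i j = θ_(s,j) . D_(C Q l_i) x`, `hpar`, `tx`). The functions
`P ↦ tr(um s P * M)` for `M` in the family `fam` are linear and rational on rational `P` (`traces`),
so `tr(um s (C Q1) * M) = λ(tr(um s (C Q) * M)) = 0` for rational `C`, hence for all `C`. By `hnd`
`um s (C Q1) = 0` (`um s P` is in the span of the family). So `D_(C Q1 l_i) x` is a multiple of `x`
(`tp`; `n . D_(C Q1 l_i) x = 0`), the same for `k_i` by `kp`, and for all `l'` by `span`.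
Compare `Helper6/QS/RatQ.lean`.
-/

set_option autoImplicit false

namespace Pool.Agent.Helper74.Q8

open scoped BigOperators
open MvPolynomial
open Pool.Agent.Helper8.LG (Bdd form mon)
open Pool.Agent.Helper49.LN (cP mo hf pl)
open Pool.Agent.Helper6.QS

section ratq8_general

variable {Ω : Type*} [Field Ω] {σ : Type*}

theorem ratq8_par_zero (x : σ → Ω) : Par x (0 : σ → Ω) := ⟨0, (zero_smul _ _).symm⟩

theorem ratq8_par_add {x u v : σ → Ω} (hu : Par x u) (hv : Par x v) : Par x (u + v) := by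
  obtain ⟨a, rfl⟩ := hu
  obtain ⟨b, rfl⟩ := hv
  exact ⟨a + b, (add_smul _ _ _).symm⟩

theorem ratq8_par_smul {x u : σ → Ω} (c : Ω) (hu : Par x u) : Par x (c • u) := by
  obtain ⟨a, rfl⟩ := hu
  exact ⟨c * a, smul_smul _ _ _⟩

theorem ratq8_par_sum {ι : Type*} (s : Finset ι) {x : σ → Ω} (u : ι → σ → Ω)
    (hu : ∀ i ∈ s, Par x (u i)) : Par x (∑ i ∈ s, u i) := by
  classical
  induction s using Finset.induction_on with
  | empty => rw [Finset.sum_empty]; exact ratq8_par_zero x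
  | insert a s ha ih =>
    rw [Finset.sum_insert ha]
    exact ratq8_par_add (hu a (Finset.mem_insert_self _ _))
      (ih fun i hi => hu i (Finset.mem_insert_of_mem hi))

variable [Fintype σ]

theorem ratq8_par_dt {x u w : σ → Ω} (hu : Par x u) (hw : dt w x = 0) : dt w u = 0 := by
  obtain ⟨c, rfl⟩ := hu
  rw [dt_smul', hw, mul_zero]

variable [DecidableEq σ]

theorem ratq8_ev (q : ℕ) (hq : 1 ≤ q) (x l : σ → Ω) (h : dt l x = 0) (P : MvPolynomial σ Ω) :
    ev q x (P * lf l) = 0 := by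
  obtain ⟨n, rfl⟩ := Nat.exists_eq_add_of_le' hq
  rw [ev_lf, h, mul_zero]

omit [DecidableEq σ] in
/-- a rational point of a rational subspace at which `Q` does not vanish -/
theorem ratq8_pt [CharZero Ω] {B : Subfield Ω} {ι : Type*} (k : ι → σ → Ω)
    (hB : ∀ i l, k i l ∈ B) (Q : MvPolynomial σ Ω)
    (hy : ∃ y, (∀ i, dt (k i) y = 0) ∧ eval y Q ≠ 0) :
    ∃ y : σ → Ω, (∀ i, y i ∈ B) ∧ (∀ i, dt (k i) y = 0) ∧ eval y Q ≠ 0 := by
  obtain ⟨y, hy1, hy2⟩ := hy
  have hmem := ker_rat B k hB y (fun i => by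
    rw [← hy1 i]
    unfold dt
    exact Finset.sum_congr rfl fun j _ => mul_comm _ _)
  rw [Submodule.mem_span_set'] at hmem
  obtain ⟨N, f, g, hfg⟩ := hmem
  have hR : ∀ t : Fin N → Ω, eval t (bind₁ (fun j => ∑ i, C ((g i : σ → Ω) j) * X i) Q :
      MvPolynomial (Fin N) Ω) = eval (∑ i, t i • (g i : σ → Ω)) Q := by
    intro t
    have h1 : eval t (bind₁ (fun j => ∑ i, C ((g i : σ → Ω) j) * X i) Q :
        MvPolynomial (Fin N) Ω) = eval₂Hom (RingHom.id Ω) t
        (bind₁ (fun j => ∑ i, C ((g i : σ → Ω) j) * X i) Q) := rfl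
    rw [h1, eval₂Hom_bind₁]
    have h2 : (fun j => eval₂Hom (RingHom.id Ω) t
        (∑ i, C ((g i : σ → Ω) j) * X i : MvPolynomial (Fin N) Ω)) =
        ∑ i, t i • (g i : σ → Ω) := by
      funext j
      rw [map_sum, Finset.sum_apply]
      refine Finset.sum_congr rfl fun i _ => ?_
      simp [mul_comm]
    rw [h2]
    rfl
  by_contra hcon
  push Not at hcon
  have hR0 : (bind₁ (fun j => ∑ i, C ((g i : σ → Ω) j) * X i) Q : MvPolynomial (Fin N) Ω) = 0 := by
    refine MvPolynomial.funext_set (fun _ => (B : Set Ω)) ?_ ?_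
    · intro _
      exact Set.infinite_of_injective_forall_mem (f := fun n : ℕ => (n : Ω)) Nat.cast_injective
        fun n => natCast_mem B n
    · intro t ht
      rw [hR, map_zero]
      refine hcon _ ?_ ?_
      · intro j
        rw [Finset.sum_apply]
        refine sum_mem fun i _ => ?_
        rw [Pi.smul_apply, smul_eq_mul]
        exact mul_mem (ht i (Set.mem_univ i)) ((g i).2.1 j)
      · intro i
        rw [dt_sum']
        refine Finset.sum_eq_zero fun s _ => ?_
        rw [dt_smul', dt_comm']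
        have := (g s).2.2 i
        unfold dt
        rw [this, mul_zero]
  have h3 := hR f
  rw [hR0, map_zero, hfg] at h3
  exact hy2 h3.symm

/-- `um s P` is in the span of the family -/
theorem ratq8_um_mem {q : ℕ} (D : Sym σ q → Derivation ℤ Ω Ω) (x : σ → Ω)
    (l : Fin 2 → σ → Ω) (θ : Fin 2 → Fin 2 → σ → Ω) (s : Fin 2) (P : MvPolynomial σ Ω) :
    um D x l θ s P ∈ Submodule.span Ω (Set.range (fam D x l θ)) := by
  rw [P.as_sum, map_sum]
  refine Submodule.sum_mem _ fun m _ => ?_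
  have h3 : monomial m (coeff m P) = coeff m P • monomial m (1 : Ω) := by
    rw [smul_monomial, smul_eq_mul, mul_one]
  rw [h3, map_smul]
  exact Submodule.smul_mem _ _ (Submodule.subset_span ⟨some (s, m), rfl⟩)

/-- the trace of the product with a fixed matrix, as a linear functional -/
noncomputable def ratq8_tr (M : Matrix (Fin 2) (Fin 2) Ω) :
    Matrix (Fin 2) (Fin 2) Ω →ₗ[Ω] Ω where
  toFun N := (N * M).trace
  map_add' N N' := by rw [add_mul, Matrix.trace_add]
  map_smul' c N := by rw [Matrix.smul_mul, Matrix.trace_smul, RingHom.id_apply]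

omit [Fintype σ] [DecidableEq σ] in
/-- the abstract step: `A`, `Cc` two linear maps to matrices with rational traces -/
theorem ratq8_abs [CharZero Ω] {B : Subfield Ω}
    (U : Fin 2 → MvPolynomial σ Ω →ₗ[Ω] Matrix (Fin 2) (Fin 2) Ω)
    (h1 : ∀ s m, (U s (monomial m 1)).trace ∈ B)
    (h2 : ∀ s s' m m', (U s (monomial m 1) * U s' (monomial m' 1)).trace ∈ B)
    (F : Option (Fin 2 × (σ →₀ ℕ)) → Matrix (Fin 2) (Fin 2) Ω)
    (hF1 : F none = 1) (hF2 : ∀ s m, F (some (s, m)) = U s (monomial m 1))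
    (hU : ∀ s P, U s P ∈ Submodule.span Ω (Set.range F))
    (hnd : ∀ N ∈ Submodule.span Ω (Set.range F), (∀ i, (N * F i).trace = 0) → N = 0)
    (Q : MvPolynomial σ Ω) (μ : Ω →ₗ[B] Ω) (hQ : ∀ s C, U s (C * Q) = 0) :
    ∀ s C, U s (C * ∑ m ∈ Q.support, monomial m (μ (coeff m Q))) = 0 := by
  intro s
  have hmon : ∀ c : σ →₀ ℕ,
      U s (monomial c 1 * ∑ m ∈ Q.support, monomial m (μ (coeff m Q))) = 0 := by
    intro c
    refine hnd _ (hU s _) ?_
    intro i
    have hmem : ∀ m, ((ratq8_tr (F i)) ∘ₗ (U s) ∘ₗ LinearMap.mulLeft Ω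
        (monomial c (1 : Ω) : MvPolynomial σ Ω)) (monomial m 1) ∈ B := by
      intro m
      rw [LinearMap.comp_apply, LinearMap.comp_apply, LinearMap.mulLeft_apply, monomial_mul,
        one_mul]
      show (U s (monomial (c + m) 1) * F i).trace ∈ B
      rcases i with _ | ⟨s', m'⟩
      · rw [hF1, mul_one]
        exact h1 _ _
      · rw [hF2]
        exact h2 _ _ _ _
    have h3 := ratQ_lin μ Q _ hmem
    rw [LinearMap.comp_apply, LinearMap.comp_apply, LinearMap.mulLeft_apply,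
      LinearMap.comp_apply, LinearMap.comp_apply, LinearMap.mulLeft_apply, hQ, map_zero,
      map_zero] at h3
    exact h3
  generalize (∑ m ∈ Q.support, monomial m (μ (coeff m Q))) = Q1 at hmon ⊢
  intro C
  rw [C.as_sum, Finset.sum_mul, map_sum]
  refine Finset.sum_eq_zero fun c _ => ?_
  have h3 : monomial c (coeff c C) = coeff c C • monomial c (1 : Ω) := by
    rw [smul_monomial, smul_eq_mul, mul_one]
  rw [h3, smul_mul_assoc, map_smul, hmon, smul_zero]

end ratq8_general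

variable {Ω : Type*} [Field Ω] [CharZero Ω] {q : ℕ} {D : Sym (Fin 6) q → Derivation ℤ Ω Ω}
  {a : Sym (Fin 6) q → Ω} {B : Subfield Ω} {x n : Fin 6 → Ω}

theorem rat_q8 {k : Fin 3 → Fin 6 → Ω} {l : Fin 2 → Fin 6 → Ω}
    {θ : Fin 2 → Fin 2 → Fin 6 → Ω} {P1 P2 : MvPolynomial (Fin 6) Ω}
    (m : Mt8 D a B x n k l θ P1 P2)
    (hnd : ∀ N ∈ Submodule.span Ω (Set.range (fam D x l θ)),
      (∀ i, (N * fam D x l θ i).trace = 0) → N = 0)
    (Q : MvPolynomial (Fin 6) Ω) (hQ : Q.IsHomogeneous 2)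
    (hy : ∃ y, (∀ i, dt (k i) y = 0) ∧ eval y Q ≠ 0) (hpar : ∀ C, Par x (dv D x (C * Q))) :
    ∃ Q1 : MvPolynomial (Fin 6) Ω, RatP B Q1 ∧ Q1.IsHomogeneous 2 ∧
      (∃ y, (∀ i, dt (k i) y = 0) ∧ eval y Q1 ≠ 0) ∧
      ∀ C l', dt l' x = 0 → Par x (dv D x (C * Q1 * lf l')) := by
  obtain ⟨y, hyB, hy1, hy2⟩ := ratq8_pt k m.pl.kB Q hy
  obtain ⟨φ, hφ⟩ : ∃ φ : Module.Dual B Ω, φ (eval y Q) ≠ 0 := by
    by_contra hcon
    push Not at hcon
    exact hy2 ((Module.forall_dual_apply_eq_zero_iff B (eval y Q)).1 hcon)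
  obtain ⟨μ, hμB, hμ⟩ : ∃ μ : Ω →ₗ[B] Ω, (∀ b, μ b ∈ B) ∧ μ (eval y Q) ≠ 0 :=
    ⟨(Algebra.linearMap B Ω) ∘ₗ φ, fun b => (φ b).2, fun h => hφ (Subtype.ext h)⟩
  have hae : ∀ f : MvPolynomial (Fin 6) Ω, aeval y f = eval y f := fun f => by
    rw [← coe_aeval_eq_eval]
    rfl
  -- the matrices of the multiples of `Q` vanish
  have hum : ∀ s C, um D x l θ s (C * Q) = 0 := by
    intro s C
    ext i j
    rw [um_apply, dl_eq, Matrix.zero_apply]
    have e : C * Q * lf (l i) = C * lf (l i) * Q := by ring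
    rw [e]
    exact ratq8_par_dt (hpar _) (m.tx s j)
  have tr := traces (um D x l θ 0) (um D x l θ 1) P1 P2 m.r1 m.r2 m.a1 m.c1 m.a2 m.c2 m.det
  have h1 : ∀ s p, (um D x l θ s (monomial p 1)).trace ∈ B := by
    intro s p
    have := tr _ _ (ratQ_ratP p) (ratQ_ratP p)
    fin_cases s
    · exact this.1
    · exact this.2.1
  have h2 : ∀ s s' p p', (um D x l θ s (monomial p 1) * um D x l θ s' (monomial p' 1)).trace ∈
      B := by
    intro s s' p p'
    have t1 := tr _ _ (ratQ_ratP p) (ratQ_ratP p')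
    have t2 := tr _ _ (ratQ_ratP p') (ratQ_ratP p)
    fin_cases s <;> fin_cases s'
    · exact t1.2.2.2.2.1
    · exact t1.2.2.2.2.2.2
    · have := t2.2.2.2.2.2.2
      rw [Matrix.trace_mul_comm] at this
      exact this
    · exact t1.2.2.2.2.2.1
  have hab := ratq8_abs (B := B) (um D x l θ) h1 h2 (fam D x l θ) rfl (fun _ _ => rfl)
    (ratq8_um_mem D x l θ) hnd Q μ hum
  refine ⟨∑ m ∈ Q.support, monomial m (μ (coeff m Q)), ?_, ?_, ⟨y, hy1, ?_⟩, ?_⟩
  · intro p
    rw [ratQ_coeff]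
    exact hμB _
  · intro p hp
    rw [ratQ_coeff] at hp
    exact hQ fun h => hp (by rw [h, map_zero])
  · have hmem : ∀ m, (aeval y : MvPolynomial (Fin 6) Ω →ₐ[Ω] Ω).toLinearMap (monomial m 1) ∈ B := by
      intro m
      rw [AlgHom.toLinearMap_apply, aeval_monomial, map_one, one_mul]
      exact prod_mem fun i _ => pow_mem (hyB i) _
    have h1 := ratQ_lin μ Q (aeval y : MvPolynomial (Fin 6) Ω →ₐ[Ω] Ω).toLinearMap hmem
    rw [AlgHom.toLinearMap_apply, AlgHom.toLinearMap_apply, hae, hae] at h1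
    intro h2
    exact hμ (h1.symm.trans h2)
  · generalize (∑ m ∈ Q.support, monomial m (μ (coeff m Q))) = Q1 at hab ⊢
    intro C l' hl'
    have hl : ∀ i, Par x (dl D x (C * Q1) (l i)) := by
      intro i
      refine m.tp _ ?_ ?_
      · rw [dl_eq, m.pl.pt.nf, ratq8_ev q (by rw [m.pl.pt.hq]; norm_num) x (l i) (m.pl.lx i),
          neg_zero]
      · intro s j
        rw [← um_apply, hab, Matrix.zero_apply]
    obtain ⟨α, β, hαβ⟩ := m.pl.span l' hl'
    have e : dv D x (C * Q1 * lf l') = dlm D x (C * Q1) l' := rfl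
    rw [e, hαβ, map_add, map_sum, map_sum]
    refine ratq8_par_add (ratq8_par_sum _ _ fun i _ => ?_) (ratq8_par_sum _ _ fun i _ => ?_)
    · rw [map_smul]
      exact ratq8_par_smul _ (m.pl.kp _ i)
    · rw [map_smul]
      exact ratq8_par_smul _ (hl i)

end Pool.Agent.Helper74.Q8
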