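import Pool.Agent.Helper74.Q8.AdX
import Pool.Agent.Helper74.Q8.Traces
import Pool.Agent.Helper74.Q8.Delta8
import Pool.Agent.Helper6.QS.Rat
import Pool.Agent.Helper6.QS.Der

/-!
# Q8-CASEN: the nondegenerate case, a quadratic form
-/

set_option autoImplicit false

namespace Pool.Agent.Helper74.Q8

open scoped BigOperators
open MvPolynomial
open Pool.Agent.Helper8.LG (Bdd form mon)
open Pool.Agent.Helper49.LN (cP mo hf pl)
open Pool.Agent.Helper6.QS

variable {Ω : Type*} [Field Ω] [CharZero Ω] {q : ℕ} {D : Sym (Fin 6) q → Derivation ℤ Ω Ω}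
  {a : Sym (Fin 6) q → Ω} {B : Subfield Ω} {x n : Fin 6 → Ω}

theorem ratP_monomial (B : Subfield Ω) (e : Fin 6 →₀ ℕ) : RatP B (monomial e (1 : Ω)) := by
  classical
  intro m
  rw [coeff_monomial]
  split_ifs
  · exact B.one_mem
  · exact B.zero_mem

theorem fam_trace {k : Fin 3 → Fin 6 → Ω} {l : Fin 2 → Fin 6 → Ω}
    {θ : Fin 2 → Fin 2 → Fin 6 → Ω} {P1 P2 : MvPolynomial (Fin 6) Ω}
    (m : Mt8 D a B x n k l θ P1 P2) (i j : Option (Fin 2 × (Fin 6 →₀ ℕ))) :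
    (fam D x l θ i * fam D x l θ j).trace ∈ B := by
  have key := traces (um D x l θ 0) (um D x l θ 1) P1 P2 m.r1 m.r2 m.a1 m.c1 m.a2 m.c2 m.det
  have h1 : ∀ (s : Fin 2) (e : Fin 6 →₀ ℕ), (um D x l θ s (monomial e 1)).trace ∈ B := by
    intro s e
    have h := key _ _ (ratP_monomial B e) (ratP_monomial B e)
    fin_cases s
    · exact h.1
    · exact h.2.1
  rcases i with _ | ⟨s, e⟩
  · rcases j with _ | ⟨s', e'⟩
    · show ((1 : Matrix (Fin 2) (Fin 2) Ω) * 1).trace ∈ B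
      rw [mul_one, Matrix.trace_one]
      exact natCast_mem B _
    · show (1 * um D x l θ s' (monomial e' 1)).trace ∈ B
      rw [one_mul]
      exact h1 _ _
  · rcases j with _ | ⟨s', e'⟩
    · show (um D x l θ s (monomial e 1) * 1).trace ∈ B
      rw [mul_one]
      exact h1 _ _
    · show (um D x l θ s (monomial e 1) * um D x l θ s' (monomial e' 1)).trace ∈ B
      have h := key _ _ (ratP_monomial B e) (ratP_monomial B e')
      have h' := key _ _ (ratP_monomial B e') (ratP_monomial B e)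
      fin_cases s <;> fin_cases s'
      · exact h.2.2.2.2.1
      · exact h.2.2.2.2.2.2
      · rw [Matrix.trace_mul_comm]
        exact h'.2.2.2.2.2.2
      · exact h.2.2.2.2.2.1

theorem case_n {k : Fin 3 → Fin 6 → Ω} {l : Fin 2 → Fin 6 → Ω}
    {θ : Fin 2 → Fin 2 → Fin 6 → Ω} {P1 P2 : MvPolynomial (Fin 6) Ω}
    (m : Mt8 D a B x n k l θ P1 P2)
    (hnd : ∀ N ∈ Submodule.span Ω (Set.range (fam D x l θ)),
      (∀ i, (N * fam D x l θ i).trace = 0) → N = 0) (hx : ¬ ∀ i, x i ∈ B) :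
    ∃ Q : MvPolynomial (Fin 6) Ω, Q.IsHomogeneous 2 ∧
      (∃ y, (∀ i, dt (k i) y = 0) ∧ eval y Q ≠ 0) ∧ ∀ C, Par x (dv D x (C * Q)) := by
  push Not at hx
  obtain ⟨i, hi⟩ := hx
  obtain ⟨δ, hδ, hδx⟩ := exists_der B (x i) fun h => hi (rat_alg m.pl.pt.frame _ h)
  obtain ⟨X₀, hX⟩ := ad_X (fam D x l θ) none rfl (fam_trace m) hnd δ hδ
  exact delta8 m δ hδ ⟨i, hδx⟩ X₀ fun s e => hX (some (s, e))

end Pool.Agent.Helper74.Q8
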