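import Pool.Agent.Helper74.Q8.AnnPt6
import Pool.Agent.Helper74.Q8.Traces
import Pool.Agent.Helper74.Q8.Tri
import Pool.Agent.Helper74.Q8.Vol
import Pool.Agent.Helper6.QS.Rat

/-!
# Q8-CASET: the triangular case

`tri_eig` for `A = um .. 0` and `A = um .. 1`: functionals `f_0, g_0, f_1, g_1`. For rational `P` the
numbers `f_s(P) + g_s(P)` and `f_s(P) g_s(P)` are in `B` (`traces`), so `f_s(P)` is algebraic over
`B`, so in `B` (`rat_alg`). `um s (C lf(k_i)) = 0` for all `C` (`dl_comm`, `kp`, `tx`), so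
`f_s(C lf(k_i)) = 0`. Let `l' = w_0 l_0 + w_1 l_1` (not in the span of `k`): `um s (C lf l') i j =
θ_(s,j) . D_(C l' l_i) x = ∑_i' w_i' um s (C lf(l_i)) i' j = (w A)_j` with `A = um s (C lf(l_i))`, so
`um s (C lf l') = μ w^T` and `um s (C lf l') v = 0`: `f_s(C lf l') = 0`. `f_s` only sees the part of
degree 7 (`dv_part`, `q = 7 + 1`). `f_0(P1) = 1, f_0(P2) = 0, f_1(P1) = 0, f_1(P2) = 1`. `ann_pt6` for
`f_0` and `f_1` gives rational `z, z'` orthogonal to `k_i, l'`. If they were proportional, `f_0` and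
`f_1` would both be multiples of the value at `z` of the part of degree 7, so proportional. So
`z, z'` is a basis of the vectors orthogonal to `k_0, k_1, k_2, l'` (independent), and `x` is such a
vector: `two_line`.
-/

set_option autoImplicit false

namespace Pool.Agent.Helper74.Q8

open scoped BigOperators
open MvPolynomial
open Pool.Agent.Helper8.LG (Bdd form mon)
open Pool.Agent.Helper49.LN (cP mo hf pl)
open Pool.Agent.Helper6.QS

section CaseT_gen

variable {Ω : Type*} [Field Ω] {σ : Type*} [Fintype σ] [DecidableEq σ] {q : ℕ}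

/-- the matrices of `C lf k` vanish when `k` does not move `x` -/
theorem CaseT_k (D : Sym σ q → Derivation ℤ Ω Ω) (x : σ → Ω) (l : Fin 2 → σ → Ω)
    (θ : Fin 2 → Fin 2 → σ → Ω) (s : Fin 2) (htx : ∀ j, dt (θ s j) x = 0) (k : σ → Ω)
    (hk : ∀ P, Par x (dl D x P k)) (C : MvPolynomial σ Ω) : um D x l θ s (C * lf k) = 0 := by
  ext i j
  rw [um_apply, dl_comm]
  obtain ⟨c, hc⟩ := hk (C * lf (l i))
  rw [hc, dt_smul', htx, mul_zero, Matrix.zero_apply]

open scoped Matrix in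
/-- the matrices of `C lf l'`, `l' = w_0 l_0 + w_1 l_1` -/
theorem CaseT_l (D : Sym σ q → Derivation ℤ Ω Ω) (x : σ → Ω) (l : Fin 2 → σ → Ω)
    (θ : Fin 2 → Fin 2 → σ → Ω) (s : Fin 2) (w : Fin 2 → Ω) (C : MvPolynomial σ Ω)
    (i j : Fin 2) : um D x l θ s (C * lf (w 0 • l 0 + w 1 • l 1)) i j =
      (w ᵥ* um D x l θ s (C * lf (l i))) j := by
  rw [um_apply, dl_comm, dl_add_right, dl_smul_right, dl_smul_right, dt_add', dt_smul', dt_smul',
    Matrix.vecMul, dotProduct, Fin.sum_univ_two, um_apply, um_apply]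

/-- only one part counts -/
theorem CaseT_part (D : Sym σ q → Derivation ℤ Ω Ω) (x : σ → Ω) (l : Fin 2 → σ → Ω)
    (θ : Fin 2 → Fin 2 → σ → Ω) (s : Fin 2) (n : ℕ) (hq : n + 1 = q) (P : MvPolynomial σ Ω) :
    um D x l θ s P = um D x l θ s (homogeneousComponent n P) := by
  ext i j
  rw [um_apply, um_apply, dl_eq, dl_eq, dv_part D x n 1 hq P (lf (l i)) (lf_hom (l i))]

omit [Fintype σ] [DecidableEq σ] in
theorem CaseT_alg {B : Subfield Ω} (f g : Ω) (ht : f + g ∈ B) (hd : f * g ∈ B) :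
    IsAlgebraic B f := by
  obtain ⟨t, ht'⟩ : ∃ t : B, (t : Ω) = f + g := ⟨⟨_, ht⟩, rfl⟩
  obtain ⟨d, hd'⟩ : ∃ d : B, (d : Ω) = f * g := ⟨⟨_, hd⟩, rfl⟩
  refine ⟨Polynomial.X ^ 2 - Polynomial.C t * Polynomial.X + Polynomial.C d, ?_, ?_⟩
  · intro h
    have h1 := congrArg (fun p => Polynomial.coeff p 2) h
    simp at h1
  · have h1 : algebraMap B Ω t = f + g := ht'
    have h2 : algebraMap B Ω d = f * g := hd'
    simp only [map_add, map_sub, map_mul, map_pow, Polynomial.aeval_X, Polynomial.aeval_C, h1, h2]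
    ring

open scoped Matrix in
/-- the eigenvalue functional -/
theorem CaseT_fun (D : Sym σ q → Derivation ℤ Ω Ω) (x : σ → Ω) (l : Fin 2 → σ → Ω)
    (θ : Fin 2 → Fin 2 → σ → Ω) (s : Fin 2) (v w : Fin 2 → Ω) (hv : v ≠ 0) (hwv : w ⬝ᵥ v = 0)
    (f g : MvPolynomial σ Ω →ₗ[Ω] Ω) (hf : ∀ P, um D x l θ s P *ᵥ v = f P • v)
    (hg : ∀ P, w ᵥ* um D x l θ s P = g P • w) {ι : Type*} (k : ι → σ → Ω)
    (htx : ∀ j, dt (θ s j) x = 0) (hk : ∀ P i, Par x (dl D x P (k i)))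
    (n : ℕ) (hq : n + 1 = q) :
    (∀ P, f P = f (homogeneousComponent n P)) ∧ (∀ C i, f (C * lf (k i)) = 0) ∧
      ∀ C, f (C * lf (w 0 • l 0 + w 1 • l 1)) = 0 := by
  have hv' : ∀ a b : Ω, a • v = b • v → a = b := fun a b h => smul_left_injective Ω hv h
  refine ⟨fun P => ?_, fun C i => ?_, fun C => ?_⟩
  · apply hv'
    rw [← hf, ← hf, ← CaseT_part D x l θ s n hq P]
  · apply hv'
    rw [← hf, CaseT_k D x l θ s htx (k i) (fun P => hk P i) C, Matrix.zero_mulVec, zero_smul]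
  · apply hv'
    rw [← hf, zero_smul]
    funext i
    rw [Matrix.mulVec, dotProduct, Fin.sum_univ_two, CaseT_l, CaseT_l, hg, Pi.smul_apply,
      Pi.smul_apply, smul_eq_mul, smul_eq_mul, Pi.zero_apply]
    rw [dotProduct, Fin.sum_univ_two] at hwv
    linear_combination (g (C * lf (l i))) * hwv

omit [Fintype σ] [DecidableEq σ] in
/-- two functionals which factor through proportional points are proportional -/
theorem CaseT_prop (f0 f1 : MvPolynomial σ Ω →ₗ[Ω] Ω) (n : ℕ) (z z' : σ → Ω) (c : Ω)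
    (hc : z' = c • z) (h0 : ∀ P, eval z (homogeneousComponent n P) = 0 → f0 P = 0)
    (h1 : ∀ P, eval z' (homogeneousComponent n P) = 0 → f1 P = 0) (P1 P2 : MvPolynomial σ Ω)
    (a1 : f0 P1 = 1) (b1 : f1 P1 = 0) (b2 : f1 P2 = 1) : False := by
  obtain ⟨e1, he1⟩ : ∃ e1, e1 = eval z (homogeneousComponent n P1) := ⟨_, rfl⟩
  obtain ⟨e2, he2⟩ : ∃ e2, e2 = eval z (homogeneousComponent n P2) := ⟨_, rfl⟩
  have hQ : eval z (homogeneousComponent n (e2 • P1 - e1 • P2)) = 0 := by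
    rw [map_sub, map_smul, map_smul, map_sub, smul_eval, smul_eval, ← he1, ← he2, mul_comm,
      sub_self]
  have hz' : ∀ P : MvPolynomial σ Ω, eval z (homogeneousComponent n P) = 0 →
      eval z' (homogeneousComponent n P) = 0 := by
    intro P hP
    have h2 : eval (c • z) (homogeneousComponent n P) = c ^ n * eval z (homogeneousComponent n P) := by
      have h3 := (homogeneousComponent_isHomogeneous n P)
      rw [eval_eq, eval_eq, Finset.mul_sum]
      refine Finset.sum_congr rfl fun d hd => ?_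
      have h4 : d.degree = n := by
        have := h3 (mem_support_iff.1 hd)
        rwa [Finsupp.degree_eq_weight_one]
      have h5 : ∏ i ∈ d.support, (c • z) i ^ d i = c ^ n * ∏ i ∈ d.support, z i ^ d i := by
        have h6 : ∑ i ∈ d.support, d i = n := h4
        rw [← h6, ← Finset.prod_pow_eq_pow_sum, ← Finset.prod_mul_distrib]
        exact Finset.prod_congr rfl fun i _ => by rw [Pi.smul_apply, smul_eq_mul, mul_pow]
      rw [h5]
      ring
    rw [hc, h2, hP, mul_zero]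
  have h3 := h1 _ (hz' _ hQ)
  rw [map_sub, map_smul, map_smul, b1, b2, smul_zero, zero_sub, smul_eq_mul, mul_one,
    neg_eq_zero] at h3
  rw [h3] at he1
  have h4 := h0 P1 he1.symm
  rw [a1] at h4
  exact one_ne_zero h4

end CaseT_gen

theorem CaseT_dt_left {Ω : Type*} [Field Ω] {σ : Type*} [Fintype σ] (l : Fin 2 → σ → Ω)
    (w : Fin 2 → Ω) (x : σ → Ω) (h : ∀ i, dt (l i) x = 0) :
    dt (w 0 • l 0 + w 1 • l 1) x = 0 := by
  rw [dt_comm', dt_add', dt_smul', dt_smul', dt_comm' x, dt_comm' x, h, h, mul_zero, mul_zero,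
    add_zero]

/-- `l'` is not in the span of `k` -/
theorem CaseT_ind {Ω : Type*} [Field Ω] {σ : Type*} (k : Fin 3 → σ → Ω) (l : Fin 2 → σ → Ω)
    (hind : LinearIndependent Ω (Sum.elim k l)) (w : Fin 2 → Ω) (hw : w ≠ 0) :
    w 0 • l 0 + w 1 • l 1 ∉ Submodule.span Ω (Set.range k) := by
  intro h
  obtain ⟨-, h2, h3⟩ := linearIndependent_sum.1 hind
  rw [Sum.elim_comp_inl, Sum.elim_comp_inr] at h3
  rw [Sum.elim_comp_inr] at h2
  have h4 : w 0 • l 0 + w 1 • l 1 ∈ Submodule.span Ω (Set.range l) :=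
    Submodule.add_mem _ (Submodule.smul_mem _ _ (Submodule.subset_span ⟨0, rfl⟩))
      (Submodule.smul_mem _ _ (Submodule.subset_span ⟨1, rfl⟩))
  have h5 := Submodule.disjoint_def.1 h3 _ h h4
  have h6 := Fintype.linearIndependent_iff.1 h2 w (by rw [Fin.sum_univ_two]; exact h5)
  exact hw (funext h6)

variable {Ω : Type*} [Field Ω] [CharZero Ω] {q : ℕ} {D : Sym (Fin 6) q → Derivation ℤ Ω Ω}
  {a : Sym (Fin 6) q → Ω} {B : Subfield Ω} {x n : Fin 6 → Ω}

open scoped Matrix in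
theorem case_t {k : Fin 3 → Fin 6 → Ω} {l : Fin 2 → Fin 6 → Ω}
    {θ : Fin 2 → Fin 2 → Fin 6 → Ω} {P1 P2 : MvPolynomial (Fin 6) Ω}
    (m : Mt8 D a B x n k l θ P1 P2) (v w : Fin 2 → Ω) (hv : v ≠ 0) (hw : w ≠ 0)
    (hwv : w ⬝ᵥ v = 0) (hM : ∀ s P, w ⬝ᵥ (um D x l θ s P *ᵥ v) = 0) : ∀ i, x i ∈ B := by
  have pl := m.pl
  have hq : 7 + 1 = q := pl.pt.hq.symm
  have htr : ∀ P, RatP B P → (um D x l θ 0 P).trace ∈ B ∧ (um D x l θ 1 P).trace ∈ B ∧
      (um D x l θ 0 P).det ∈ B ∧ (um D x l θ 1 P).det ∈ B := by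
    intro P hP
    obtain ⟨h1, h2, h3, h4, -⟩ := traces (um D x l θ 0) (um D x l θ 1) P1 P2 m.r1 m.r2 m.a1 m.c1
      m.a2 m.c2 m.det P P hP hP
    exact ⟨h1, h2, h3, h4⟩
  obtain ⟨f0, g0, hf0, hg0, ht0⟩ := tri_eig (um D x l θ 0) v w hv hw hwv (hM 0)
  obtain ⟨f1, g1, hf1, hg1, ht1⟩ := tri_eig (um D x l θ 1) v w hv hw hwv (hM 1)
  have hB0 : ∀ P, RatP B P → f0 P ∈ B := fun P hP =>
    rat_alg pl.pt.frame _ (CaseT_alg (f0 P) (g0 P) (by rw [← (ht0 P).1]; exact (htr P hP).1)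
      (by rw [← (ht0 P).2]; exact (htr P hP).2.2.1))
  have hB1 : ∀ P, RatP B P → f1 P ∈ B := fun P hP =>
    rat_alg pl.pt.frame _ (CaseT_alg (f1 P) (g1 P) (by rw [← (ht1 P).1]; exact (htr P hP).2.1)
      (by rw [← (ht1 P).2]; exact (htr P hP).2.2.2))
  obtain ⟨p0, k0, l0⟩ := CaseT_fun D x l θ 0 v w hv hwv f0 g0 hf0 hg0 k (m.tx 0) pl.kp 7 hq
  obtain ⟨p1, k1, l1⟩ := CaseT_fun D x l θ 1 v w hv hwv f1 g1 hf1 hg1 k (m.tx 1) pl.kp 7 hq
  have hv' : ∀ a b : Ω, a • v = b • v → a = b := fun a b h => smul_left_injective Ω hv h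
  have e01 : f0 P1 = 1 := hv' _ _ (by rw [← hf0, m.a1, Matrix.one_mulVec, one_smul])
  have e11 : f1 P1 = 0 := hv' _ _ (by rw [← hf1, m.c1, Matrix.zero_mulVec, zero_smul])
  have e12 : f1 P2 = 1 := hv' _ _ (by rw [← hf1, m.c2, Matrix.one_mulVec, one_smul])
  obtain ⟨l', hl'⟩ : ∃ l', l' = w 0 • l 0 + w 1 • l 1 := ⟨_, rfl⟩
  rw [← hl'] at l0 l1
  have hlx : dt l' x = 0 := by
    rw [hl']
    exact CaseT_dt_left l w x pl.lx
  have hli : l' ∉ Submodule.span Ω (Set.range k) := by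
    rw [hl']
    exact CaseT_ind k l pl.ind w hw
  rcases ann_pt6 pl l' hlx hli f0 (fun h => by rw [h] at e01; exact zero_ne_one e01) hB0 p0 k0 l0
    with h | ⟨z, hzB, hz0, hzk, hzl, hzf⟩
  · exact h
  rcases ann_pt6 pl l' hlx hli f1 (fun h => by rw [h] at e12; exact zero_ne_one e12) hB1 p1 k1 l1
    with h | ⟨z', hzB', hz0', hzk', hzl', hzf'⟩
  · exact h
  have hzz : LinearIndependent Ω ![z, z'] := by
    rw [LinearIndependent.pair_iff' hz0]
    intro c hc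
    exact CaseT_prop f0 f1 7 z z' c hc.symm hzf hzf' P1 P2 e01 e11 e12
  have hkind : LinearIndependent Ω k := by
    have h1 := pl.ind.comp Sum.inl Sum.inl_injective
    exact h1
  have hK : LinearIndependent Ω (Fin.cons l' k : Fin 4 → Fin 6 → Ω) := hkind.finCons hli
  have hsum : ∀ y : Fin 6 → Ω, (∀ i, dt (k i) y = 0) → dt l' y = 0 →
      ∀ i, ∑ j, y j * (Fin.cons l' k : Fin 4 → Fin 6 → Ω) i j = 0 := by
    intro y hy hy' i
    have h1 : ∀ u : Fin 6 → Ω, dt u y = 0 → ∑ j, y j * u j = 0 := by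
      intro u hu
      rw [← hu]
      exact Finset.sum_congr rfl fun j _ => mul_comm _ _
    refine Fin.cases ?_ (fun i => ?_) i
    · exact h1 l' hy'
    · exact h1 (k i) (hy i)
  obtain ⟨α, β, hx⟩ := Lines6_span _ hK z z' (hsum z hzk hzl) (hsum z' hzk' hzl') hzz x
    (hsum x pl.kx hlx)
  exact two_line pl.pt z z' hzB hzB' α β hx

end Pool.Agent.Helper74.Q8
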