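import Pool.Agent.Helper74.Q8.Vol

/-!
# Q8-MATS: the matrices

`w = ![D_(P1 l_0) x, D_(P1 l_1) x, D_(P2 l_0) x, D_(P2 l_1) x]`, `vol_coord` gives `θ_0, .., θ_3`; let
`θ_(0,0), θ_(0,1), θ_(1,0), θ_(1,1)` be these. `det`: the determinant is
`T4 D x P Q (l 0) (l 1) (l 0) (l 1) / vol w`, both in `B` (`rat`); reindex `Fin 4` by
`Fin 2 ⊕ Fin 2` (`finSumFinEquiv`, `Matrix.det_reindex_self` or `Matrix.det_submatrix_equiv_self`).
-/

set_option autoImplicit false

namespace Pool.Agent.Helper74.Q8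

open scoped BigOperators
open MvPolynomial
open Pool.Agent.Helper8.LG (Bdd form mon)
open Pool.Agent.Helper49.LN (cP mo hf pl)
open Pool.Agent.Helper6.QS

variable {Ω : Type*} [Field Ω] [CharZero Ω] {q : ℕ} {D : Sym (Fin 6) q → Derivation ℤ Ω Ω}
  {a : Sym (Fin 6) q → Ω} {B : Subfield Ω} {x n : Fin 6 → Ω}

omit [CharZero Ω] in
theorem mats_T4 (l : Fin 2 → Fin 6 → Ω) (P Q : MvPolynomial (Fin 6) Ω) (w : Fin 4 → Fin 6 → Ω)
    (hw : w = ![dl D x P (l 0), dl D x P (l 1), dl D x Q (l 0), dl D x Q (l 1)]) :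
    T4 D x P Q (l 0) (l 1) (l 0) (l 1) = vol D x w := by
  unfold T4
  exact congrArg (vol D x) hw.symm

theorem mats {k : Fin 3 → Fin 6 → Ω} {l : Fin 2 → Fin 6 → Ω} (pl : Pl8 D a B x n k l)
    (P1 P2 : MvPolynomial (Fin 6) Ω) (hP1 : RatP B P1) (hP2 : RatP B P2)
    (hne : T4 D x P1 P2 (l 0) (l 1) (l 0) (l 1) ≠ 0) :
    ∃ θ : Fin 2 → Fin 2 → Fin 6 → Ω, Mt8 D a B x n k l θ P1 P2 := by
  have ht : ∀ (P : MvPolynomial (Fin 6) Ω) (i : Fin 2), dt n (dl D x P (l i)) = 0 := fun P i =>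
    vol_tan pl.pt P (l i) (pl.lx i)
  obtain ⟨w, hwd⟩ : ∃ w : Fin 4 → Fin 6 → Ω,
      w = ![dl D x P1 (l 0), dl D x P1 (l 1), dl D x P2 (l 0), dl D x P2 (l 1)] := ⟨_, rfl⟩
  have h0 : vol D x w ≠ 0 := by
    rw [← mats_T4 l P1 P2 w hwd]
    exact hne
  have h4 : vol D x w ∈ B := by
    rw [← mats_T4 l P1 P2 w hwd]
    exact pl.rat P1 P2 hP1 hP2
  have hw : ∀ i, dt n (w i) = 0 := by
    intro i
    rw [hwd]
    fin_cases i
    · exact ht P1 0
    · exact ht P1 1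
    · exact ht P2 0
    · exact ht P2 1
  obtain ⟨t, ht0, ht1, -, ht3, ht4⟩ := vol_coord pl.pt w hw h0
  have w0 : w 0 = dl D x P1 (l 0) := by rw [hwd]; rfl
  have w1 : w 1 = dl D x P1 (l 1) := by rw [hwd]; rfl
  have w2 : w 2 = dl D x P2 (l 0) := by rw [hwd]; rfl
  have w3 : w 3 = dl D x P2 (l 1) := by rw [hwd]; rfl
  refine ⟨![![t 0, t 1], ![t 2, t 3]], pl, hP1, hP2, ?_, ?_, ?_, ?_, ?_, ?_, ?_⟩
  · intro s j
    fin_cases s <;> fin_cases j
    · exact ht0 0
    · exact ht0 1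
    · exact ht0 2
    · exact ht0 3
  · intro v hv h
    refine ht3 v hv fun j => ?_
    fin_cases j
    · exact h 0 0
    · exact h 0 1
    · exact h 1 0
    · exact h 1 1
  · ext i j
    rw [um_apply]
    fin_cases i <;> fin_cases j
    · exact (congrArg (dt (t 0)) w0).symm.trans (ht1 0 0)
    · exact (congrArg (dt (t 1)) w0).symm.trans (ht1 0 1)
    · exact (congrArg (dt (t 0)) w1).symm.trans (ht1 1 0)
    · exact (congrArg (dt (t 1)) w1).symm.trans (ht1 1 1)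
  · ext i j
    rw [um_apply]
    fin_cases i <;> fin_cases j
    · exact (congrArg (dt (t 2)) w0).symm.trans (ht1 0 2)
    · exact (congrArg (dt (t 3)) w0).symm.trans (ht1 0 3)
    · exact (congrArg (dt (t 2)) w1).symm.trans (ht1 1 2)
    · exact (congrArg (dt (t 3)) w1).symm.trans (ht1 1 3)
  · ext i j
    rw [um_apply]
    fin_cases i <;> fin_cases j
    · exact (congrArg (dt (t 0)) w2).symm.trans (ht1 2 0)
    · exact (congrArg (dt (t 1)) w2).symm.trans (ht1 2 1)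
    · exact (congrArg (dt (t 0)) w3).symm.trans (ht1 3 0)
    · exact (congrArg (dt (t 1)) w3).symm.trans (ht1 3 1)
  · ext i j
    rw [um_apply]
    fin_cases i <;> fin_cases j
    · exact (congrArg (dt (t 2)) w2).symm.trans (ht1 2 2)
    · exact (congrArg (dt (t 3)) w2).symm.trans (ht1 2 3)
    · exact (congrArg (dt (t 2)) w3).symm.trans (ht1 3 2)
    · exact (congrArg (dt (t 3)) w3).symm.trans (ht1 3 3)
  · intro P Q hP hQ
    obtain ⟨v, hvd⟩ : ∃ v : Fin 4 → Fin 6 → Ω,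
        v = ![dl D x P (l 0), dl D x P (l 1), dl D x Q (l 0), dl D x Q (l 1)] := ⟨_, rfl⟩
    have h3 : vol D x v ∈ B := by
      rw [← mats_T4 l P Q v hvd]
      exact pl.rat P Q hP hQ
    have hv : ∀ i, dt n (v i) = 0 := by
      intro i
      rw [hvd]
      fin_cases i
      · exact ht P 0
      · exact ht P 1
      · exact ht Q 0
      · exact ht Q 1
    have h1 := ht4 v hv
    have h2 : Matrix.fromBlocks (um D x l ![![t 0, t 1], ![t 2, t 3]] 0 P)
        (um D x l ![![t 0, t 1], ![t 2, t 3]] 1 P) (um D x l ![![t 0, t 1], ![t 2, t 3]] 0 Q)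
        (um D x l ![![t 0, t 1], ![t 2, t 3]] 1 Q) =
        (Matrix.of fun i j => dt (t j) (v i)).submatrix
          (finSumFinEquiv (m := 2) (n := 2)) (finSumFinEquiv (m := 2) (n := 2)) := by
      rw [hvd]
      ext i j
      rcases i with i | i <;> rcases j with j | j <;> fin_cases i <;> fin_cases j <;> rfl
    rw [h2, Matrix.det_submatrix_equiv_self]
    have h5 : (Matrix.of fun i j => dt (t j) (v i)).det = vol D x v / vol D x w := by
      rw [h1, mul_div_cancel_left₀ _ h0]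
    rw [h5]
    exact div_mem h3 h4

end Pool.Agent.Helper74.Q8
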