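import Pool.Agent.Helper74.Q8.PlaneC
import Pool.Agent.Helper74.Q8.Mats
import Pool.Agent.Helper74.Q8.CaseT
import Pool.Agent.Helper74.Q8.CaseN
import Pool.Agent.Helper74.Q8.RatQ8
import Pool.Agent.Helper74.Q8.FinQ8
import Pool.Agent.Helper74.Q8.ConicDiv8
import Pool.Agent.Helper74.Q8.ConicCount8

/-!
# Q8-KEYBLK8: octic fourfolds, the block case (assembly)
-/

set_option autoImplicit false

namespace Pool.Agent.Helper74.Q8

open scoped BigOperators
open MvPolynomial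
open Pool.Agent.Helper8.LG (Bdd form mon)
open Pool.Agent.Helper49.LN (cP mo hf pl)
open Pool.Agent.Helper6.QS

section general

variable {Ω : Type*} [Field Ω] {σ : Type*} [Fintype σ] [DecidableEq σ] {q : ℕ}

omit [Fintype σ] [DecidableEq σ] in
theorem eval_mo8 (x : σ → Ω) (J : Sym σ q) : eval x (mo Ω (J : Multiset σ)) = mon x J := by
  unfold mo mon
  rw [map_multiset_prod, Multiset.map_map]
  congr 1
  exact Multiset.map_congr rfl fun i _ => eval_X i

theorem eval_sum8 (x : σ → Ω) (a : Sym σ q → Ω) :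
    eval x (∑ J : Sym σ q, a J • mo Ω (J : Multiset σ)) = form a x := by
  rw [map_sum]
  unfold form
  refine Finset.sum_congr rfl fun J _ => ?_
  rw [smul_eval, eval_mo8]

theorem sum_hom8 (a : Sym σ q → Ω) :
    (∑ J : Sym σ q, a J • mo Ω (J : Multiset σ) : MvPolynomial σ Ω).IsHomogeneous q := by
  refine IsHomogeneous.sum _ _ _ fun J _ => ?_
  have h4 := Pool.Agent.Helper49.LN.mo_hom (E := Ω) (J : Multiset σ)
  rw [Sym.card_coe] at h4
  rw [smul_eq_C_mul]
  have h5 := (isHomogeneous_C σ (a J)).mul h4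
  rwa [zero_add] at h5

theorem sum_rat8 (B : Subfield Ω) (a : Sym σ q → Ω) (ha : ∀ J, a J ∈ B) :
    RatP B (∑ J : Sym σ q, a J • mo Ω (J : Multiset σ)) := by
  intro m
  rw [coeff_sum]
  refine sum_mem fun J _ => ?_
  rw [coeff_smul, smul_eq_mul, Pool.Agent.Helper49.LN.mo_eq, coeff_monomial]
  refine mul_mem (ha J) ?_
  split_ifs
  · exact one_mem B
  · exact zero_mem B

end general

variable {Ω : Type*} [Field Ω] [CharZero Ω] {q : ℕ} {D : Sym (Fin 6) q → Derivation ℤ Ω Ω}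
  {a : Sym (Fin 6) q → Ω} {B : Subfield Ω} {x n : Fin 6 → Ω}

/-- the plane case -/
theorem key_mt8 {k : Fin 3 → Fin 6 → Ω} {l : Fin 2 → Fin 6 → Ω}
    {θ : Fin 2 → Fin 2 → Fin 6 → Ω} {P1 P2 : MvPolynomial (Fin 6) Ω}
    (m : Mt8 D a B x n k l θ P1 P2) : ∀ i, x i ∈ B := by
  by_contra hcon
  by_cases hnd : ∀ N ∈ Submodule.span Ω (Set.range (fam D x l θ)),
      (∀ i, (N * fam D x l θ i).trace = 0) → N = 0
  swap
  · push Not at hnd
    obtain ⟨N, hNs, hN0, hN⟩ := hnd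
    obtain ⟨v, w, hv, hw, hwv, hM⟩ := tri (fam D x l θ) none rfl N hN hNs hN0
    refine hcon (case_t m v w hv hw hwv fun s P => ?_)
    have h1 : ∀ e : Fin 6 →₀ ℕ, dotProduct w (Matrix.mulVec (um D x l θ s (monomial e 1)) v) = 0 :=
      fun e => hM (some (s, e))
    induction P using MvPolynomial.induction_on' with
    | monomial e c =>
      have h2 : monomial e c = c • (monomial e (1 : Ω) : MvPolynomial (Fin 6) Ω) := by
        rw [smul_monomial, smul_eq_mul, mul_one]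
      rw [h2, map_smul, Matrix.smul_mulVec, dotProduct_smul, h1, smul_zero]
    | add P P' hP hP' =>
      rw [map_add, Matrix.add_mulVec, dotProduct_add, hP, hP', add_zero]
  obtain ⟨Q, hQ2, hQy, hQpar⟩ := case_n m hnd hcon
  obtain ⟨Q1, hQ1, hQ12, hQ1y, hpar⟩ := rat_q8 m hnd Q hQ2 hQy hQpar
  have hpt := m.pl.pt
  rcases fin_q8 hpt Q1 hQ1 hQ12 hpar with h3 | h3
  · exact hcon h3
  have hq : q = 8 := hpt.hq
  obtain ⟨F, hFdef⟩ : ∃ F, F = ∑ J : Sym (Fin 6) q, a J • mo Ω (J : Multiset (Fin 6)) :=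
    ⟨_, rfl⟩
  have hFq : F.IsHomogeneous q := by
    rw [hFdef]
    exact sum_hom8 a
  have hFhom : F.IsHomogeneous (6 + 2) := by
    rw [hq] at hFq
    exact hFq
  have hFx : eval x F = 0 := by
    rw [hFdef, eval_sum8]
    exact hpt.zero
  have hFB : RatP B F := by
    rw [hFdef]
    exact sum_rat8 B a hpt.frame.mem
  have hkind : LinearIndependent Ω k := by
    have h5 := m.pl.ind.comp Sum.inl Sum.inl_injective
    exact h5
  rcases conic_div8 (rat_alg hpt.frame) x hpt.one k m.pl.kB m.pl.kx hkind Q1 F hQ1 hFB 6 hQ12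
    hFhom hQ1y h3 hFx with h4 | ⟨h', h5, h6, h7⟩ | ⟨A, C, h5, h6, h7⟩
  · exact hcon h4
  · refine hcon (four_line hpt (Matrix.vecCons h' k) ?_ ?_ h6)
    · intro i j
      refine Fin.cases ?_ (fun i => ?_) i
      · exact h5 j
      · exact m.pl.kB i j
    · intro i
      refine Fin.cases ?_ (fun i => ?_) i
      · exact h7
      · exact m.pl.kx i
  · exact conic_count8 hq D a hpt.frame.dual k hkind Q1 C A hQ12 h5 h6 (hFdef ▸ h7)

/-- **The block case.** -/
theorem key_blk8 (hq : q = 8) (hB : Frame D a B) (x : Fin 6 → Ω) (hx : x 0 = 1)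
    (hF : form a x = 0) (P1 P2 : MvPolynomial (Fin 6) Ω) (hP1 : RatP B P1) (hP2 : RatP B P2)
    (l l' m m' : Fin 6 → Ω) (hl : dt l x = 0) (hl' : dt l' x = 0) (hm : dt m x = 0)
    (hm' : dt m' x = 0)
    (hlin : LinearIndependent Ω ![x, dl D x P1 l, dl D x P1 l', dl D x P2 m, dl D x P2 m']) :
    ∀ i, x i ∈ B := by
  obtain ⟨n, hn, hf⟩ := dv_normal D a hB.dual (by omega) x hF
  have hpt : Pt8 D a B x n := ⟨hq, hB, hx, hF, hn, hf⟩
  have hne : T4 D x P1 P2 l l' m m' ≠ 0 := by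
    refine vol_ne hpt _ ?_ hlin
    intro i
    fin_cases i
    · exact vol_tan hpt P1 l hl
    · exact vol_tan hpt P1 l' hl'
    · exact vol_tan hpt P2 m hm
    · exact vol_tan hpt P2 m' hm'
  rcases plane_c hpt P1 P2 hP1 hP2 l l' m m' hl hl' hm hm' hne with h1 | ⟨k, l0, pl, hne0⟩
  · exact h1
  obtain ⟨θ, hθ⟩ := mats pl P1 P2 hP1 hP2 hne0
  exact key_mt8 hθ

end Pool.Agent.Helper74.Q8
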