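import Pool.Agent.Helper6.QS.KeyDich

/-!
# Q8-DICH8: the dichotomy for generic octic fourfolds (`card σ = 6`, `n + 1 = 8`)

Copy of `key_dich` with the numbers `(6, 8)`: either the point is rational or there are two
independent blocks.
-/

set_option autoImplicit false

namespace Pool.Agent.Helper74.Q8

open scoped BigOperators
open MvPolynomial
open Pool.Agent.Helper8.LG (Bdd form mon col)
open Pool.Agent.Helper49.LN hiding dt
open Pool.Agent.Helper74.LN (Moves KeyL)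
open Pool.Agent.Helper6.QS

section

variable {Ω : Type*} [Field Ω] {σ : Type*} [Fintype σ] [DecidableEq σ] {n : ℕ}

/-- the numbers -/
theorem kn8 (K kw q i t b r : ℕ) (h : K = 6 ∧ q = 8 ∧ ((kw = 6 ∧ i = 1 ∧ t = 2) ∨
      (kw = 6 ∧ i = 0 ∧ t = 4) ∨ (kw = 5 ∧ i = 0 ∧ t = 3)) ∧ r ≤ 5) (hb : b + r + 4 ≤ kw + K) :
    ∃ B C m s : ℕ, C + m = C * (K + b) ∧
      m + s = B * (t * (t + 1) / 2) + C * (r * (r + 1) / 2) ∧
      B * (kw + i + t) + C * (2 + r) + 1 ≤ q * (B + C) := by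
  by_cases hB : K + b ≤ 1 + r * (r + 1) / 2
  · refine ⟨0, 1, K + b - 1, r * (r + 1) / 2 - (K + b - 1), by omega, by omega, ?_⟩
    rcases h with ⟨rfl, rfl, ⟨rfl, rfl, rfl⟩ | ⟨rfl, rfl, rfl⟩ | ⟨rfl, rfl, rfl⟩, h⟩ <;> omega
  · obtain ⟨v, hv⟩ : ∃ v, v = r * (r + 1) / 2 := ⟨_, rfl⟩
    obtain ⟨u, hu⟩ : ∃ u, u = t * (t + 1) / 2 := ⟨_, rfl⟩
    rw [← hv, ← hu]
    rw [← hv] at hB
    refine ⟨K + b - 1 - v, u, (K + b - 1 - v) * u + u * v, 0, ?_, by ring, ?_⟩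
    · have h1 : K + b = 1 + v + (K + b - 1 - v) := by omega
      conv_rhs => rw [h1]
      ring
    · rcases h with ⟨rfl, rfl, ⟨rfl, rfl, rfl⟩ | ⟨rfl, rfl, rfl⟩ | ⟨rfl, rfl, rfl⟩, h⟩ <;>
        norm_num at hu <;> subst hu <;> interval_cases r <;> norm_num at hv <;> subst hv <;> omega

/-- the remaining cases -/
theorem kc8 (K q kw i t r : ℕ) (hnum : K = 6 ∧ q = 8)
    (hit : 2 * i + t + 2 = kw) (hK : kw ≤ K) (hA : ¬ kw + i + t + 1 ≤ q) (hi1 : ¬ 2 ≤ i)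
    (hT : ¬ 6 ≤ r) :
    K = 6 ∧ q = 8 ∧ ((kw = 6 ∧ i = 1 ∧ t = 2) ∨
      (kw = 6 ∧ i = 0 ∧ t = 4) ∨ (kw = 5 ∧ i = 0 ∧ t = 3)) ∧ r ≤ 5 := by
  obtain ⟨rfl, rfl⟩ := hnum
  refine ⟨rfl, rfl, ?_, by omega⟩
  have h2 : i ≤ 1 := by omega
  have h3 : 5 ≤ kw := by omega
  interval_cases kw <;> interval_cases i <;> omega

/-- **The dichotomy.** -/
theorem dich8 [CharZero Ω] {D : Sym σ (n + 1) → Derivation ℤ Ω Ω} {a : Sym σ (n + 1) → Ω}
    {B : Subfield Ω} (hB : Frame D a B) (x : σ → Ω) (i₀ : σ)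
    (hx : x i₀ = 1) (hF : form a x = 0) (hnum : Fintype.card σ = 6 ∧ n + 1 = 8) :
    (∀ l, x l ∈ B) ∨ ∃ (I I' J J' : Sym σ n) (j l j' l' : σ),
      LinearIndependent Ω ![x, dv D x ((mo Ω (I : Multiset σ) + mo Ω (I' : Multiset σ)) *
        Pool.Agent.Helper49.LN.hf x i₀ j), dv D x ((mo Ω (I : Multiset σ) +
          mo Ω (I' : Multiset σ)) * Pool.Agent.Helper49.LN.hf x i₀ l),
        dv D x ((mo Ω (J : Multiset σ) + mo Ω (J' : Multiset σ)) *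
        Pool.Agent.Helper49.LN.hf x i₀ j'), dv D x ((mo Ω (J : Multiset σ) +
          mo Ω (J' : Multiset σ)) * Pool.Agent.Helper49.LN.hf x i₀ l')] := by
  classical
  have hq4 : 2 * Fintype.card σ ≤ n + 1 + 4 := by omega
  have hK0 : Fintype.card K0 = 0 := rfl
  obtain ⟨nn, hn1, hn2⟩ := dv_normal D a hB.dual (by omega) x hF
  obtain ⟨lam, hlam⟩ : ∃ lam : (σ ⊕ K0 → Ω) →ₗ[Ω] Ω,
      lam = ∑ l, nn l • (LinearMap.proj (Sum.inl l) : (σ ⊕ K0 → Ω) →ₗ[Ω] Ω) := ⟨_, rfl⟩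
  have hlam' : ∀ v, lam v = ∑ l, nn l * v (Sum.inl l) := by
    intro v
    rw [hlam, LinearMap.sum_apply]
    rfl
  have hl0 : lam (pe x (ε0 Ω)) = 0 := by
    rw [hlam']
    exact hn1
  have hlc : ∀ f, lam (cP (pv D x (g0 n σ Ω)) f) = - ev (n + 1) x f := by
    intro f
    rw [hlam', ← hn2 f]
    unfold dt
    exact Finset.sum_congr rfl fun l _ => by rw [cP_dv]
  have hl1 : ∀ f ∈ Ipt x, lam (cP (pv D x (g0 n σ Ω)) f) = 0 := by
    intro f hf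
    rw [hlc, ev_ipt x f hf, neg_zero]
  have hu : lam (la (E := Ω) (pv D x (g0 n σ Ω)) i₀) ≠ 0 := by
    unfold la
    rw [hlc, neg_ne_zero]
    have h1 : ev (n + 1) x (X i₀ ^ (n + 1)) = eval x (X i₀ ^ (n + 1)) :=
      ev_hom _ _ _ (by
        have h2 := (isHomogeneous_X Ω i₀).pow (n + 1)
        rwa [one_mul] at h2)
    rw [h1, map_pow, eval_X, hx, one_pow]
    exact one_ne_zero
  have he0 : pe x (ε0 Ω) ≠ 0 := by
    intro h
    have h1 : pe x (ε0 Ω) (Sum.inl i₀) = 0 := by rw [h]; rfl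
    have h2 : pe x (ε0 Ω) (Sum.inl i₀) = x i₀ := rfl
    rw [h2, hx] at h1
    exact one_ne_zero h1
  obtain ⟨S, hSd⟩ : ∃ S, S = Submodule.span Ω (Set.range (col D x)) := ⟨_, rfl⟩
  have hS0 : (fun l => pe x (ε0 Ω) (Sum.inl l)) ∈ S := by
    rw [hSd]
    exact Submodule.subset_span ⟨none, rfl⟩
  have hSV : ∀ J, (fun l => pv D x (g0 n σ Ω) J (Sum.inl l)) ∈ S := by
    intro J
    rw [hSd]
    exact Submodule.subset_span ⟨some J, rfl⟩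
  obtain ⟨i, t, β, f, hlin, hspan, hline⟩ := ex_point (pv D x (g0 n σ Ω)) (pe x (ε0 Ω)) he0 x i₀ hx
  have hlin' := indep_right _ hlin (Fin.elim0 : Fin 0 → σ ⊕ K0 → Ω)
  obtain ⟨p, u, e, f', rr, hp, hdt⟩ := point_complete (pv D x (g0 n σ Ω)) (pe x (ε0 Ω)) x i₀ lam
    hl0 hl1 hu S hS0 hSV β _ (fun s => ⟨_, sg_mem x i₀ (f s), rfl⟩) _ (fun s => s.elim0) hlin'
  have hcard := Fintype.card_congr rr
  simp only [Fintype.card_sum, Fintype.card_prod, Fintype.card_fin] at hcard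
  have hrank := kd_rank D x i₀ hx _ hspan (Submodule.subset_span ⟨Sum.inl (Sum.inl 0), rfl⟩)
  simp only [Fintype.card_sum, Fintype.card_prod, Fintype.card_fin] at hrank
  rw [← hSd] at hrank
  have hit : 2 * i + t + 2 = Module.finrank Ω S := by omega
  have hSK : Module.finrank Ω S ≤ Fintype.card σ := by omega
  obtain ⟨kw, hkw⟩ : ∃ kw, kw = Module.finrank Ω S := ⟨_, rfl⟩
  have hxi : ∀ (O : ValuationSubring Ω) (m : σ), (∀ l, xt x m l ∈ O) → (x m)⁻¹ ∈ O := by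
    intro O m hxm
    have h1 := hxm i₀
    unfold xt at h1
    rwa [hx, one_div] at h1
  by_cases hA : kw + i + t + 1 ≤ n + 1
  · left
    refine kd_mem hB x i₀ hx _ hdt (Fintype.card (σ ⊕ K0)) ?_
    intro O Δ m hΔ hm hxm
    have hl := hxi O m hxm
    obtain ⟨N, hN, eq⟩ := g1_det (locG0 (n := n) hΔ x m) hm hxm hx β f e f' rr (by
      intro q hq
      have h1 := hspan q hq
      rw [Set.Sum.elim_range, Set.Sum.elim_range] at h1
      exact h1)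
    rw [add_assoc (Fintype.card σ) i t] at eq
    have h2 := ka_w _ _ _ hm (n + 1) p (Fintype.card σ) (Module.finrank Ω S) kw (i + t) eq hp
      hkw.ge
    rw [← add_assoc] at h2
    have h3 := ka_easy O _ (x m) Δ kw i t (n + 1) _ hA hm hl
      ⟨_, mul_mem (pow_mem hl _) hN, h2⟩
    rw [← mul_assoc]
    exact h3
  by_cases hi2 : 2 ≤ i
  · -- two blocks
    right
    have h0 : 0 < i := by omega
    have h10 : 1 < i := by omega
    obtain ⟨b0, hb0⟩ : ∃ b0, b0 = β ⟨0, h0⟩ := ⟨_, rfl⟩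
    obtain ⟨b1, hb1⟩ : ∃ b1, b1 = β ⟨1, h10⟩ := ⟨_, rfl⟩
    refine ⟨b0.1.1, b0.1.2, b1.1.1, b1.1.2, b0.2.1, b0.2.2, b1.2.1, b1.2.2, ?_⟩
    have h1 := hlin.comp (fun s : Fin 5 => (![Sum.inl (Sum.inl 0), Sum.inl (Sum.inr (⟨0, h0⟩, 0)),
      Sum.inl (Sum.inr (⟨0, h0⟩, 1)), Sum.inl (Sum.inr (⟨1, h10⟩, 0)),
      Sum.inl (Sum.inr (⟨1, h10⟩, 1))] s : (Fin 1 ⊕ (Fin i × Fin 2)) ⊕ Fin t)) (by
      intro s s' h
      fin_cases s <;> fin_cases s' <;> simp_all)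
    have h2 : LinearMap.ker (LinearMap.funLeft Ω Ω (Sum.inl : σ → σ ⊕ K0)) = ⊥ := by
      rw [LinearMap.ker_eq_bot']
      intro v hv
      funext r
      rcases r with r | (r | r)
      · exact congrFun hv r
      · exact r.elim0
      · exact r.elim0
    have h3 := h1.map' _ h2
    have h4 : (LinearMap.funLeft Ω Ω (Sum.inl : σ → σ ⊕ K0)) ∘
        (Sum.elim (Sum.elim (fun _ : Fin 1 => pe x (ε0 Ω))
          (fun p : Fin i × Fin 2 => bl (pv D x (g0 n σ Ω)) x i₀ (β p.1) p.2))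
          (fun s => sg (pv D x (g0 n σ Ω)) x i₀ (f s)) ∘
        fun s : Fin 5 => (![Sum.inl (Sum.inl 0), Sum.inl (Sum.inr (⟨0, h0⟩, 0)),
          Sum.inl (Sum.inr (⟨0, h0⟩, 1)), Sum.inl (Sum.inr (⟨1, h10⟩, 0)),
          Sum.inl (Sum.inr (⟨1, h10⟩, 1))] s : (Fin 1 ⊕ (Fin i × Fin 2)) ⊕ Fin t)) =
        ![x, dv D x ((mo Ω (b0.1.1 : Multiset σ) + mo Ω (b0.1.2 : Multiset σ)) *
          Pool.Agent.Helper49.LN.hf x i₀ b0.2.1),
          dv D x ((mo Ω (b0.1.1 : Multiset σ) + mo Ω (b0.1.2 : Multiset σ)) *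
          Pool.Agent.Helper49.LN.hf x i₀ b0.2.2),
          dv D x ((mo Ω (b1.1.1 : Multiset σ) + mo Ω (b1.1.2 : Multiset σ)) *
          Pool.Agent.Helper49.LN.hf x i₀ b1.2.1),
          dv D x ((mo Ω (b1.1.1 : Multiset σ) + mo Ω (b1.1.2 : Multiset σ)) *
          Pool.Agent.Helper49.LN.hf x i₀ b1.2.2)] := by
      rw [hb0, hb1]
      funext s l
      fin_cases s
      · rfl
      · exact cP_dv D x _ l
      · exact cP_dv D x _ l
      · exact cP_dv D x _ l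
      · exact cP_dv D x _ l
    rw [← h4]
    exact h3
  left
  have ht : 2 ≤ t := by omega
  obtain ⟨y, b₀, ha, hI⟩ := hline ht
  -- the fan
  obtain ⟨K, hK, -, hlinK, hspanK⟩ := ex_fan (pv D x (g0 n σ Ω)) _ f x y i₀ b₀ hx ha hlin hspan hI
  have hlinK' := indep_mid _ _ hlinK (Fin.elim0 : Fin 0 → σ ⊕ K0 → Ω)
  obtain ⟨p₁, u₁, e₁, f₁, rr₁, hp₁, hdt₁⟩ := point_complete (pv D x (g0 n σ Ω)) (pe x (ε0 Ω)) x i₀
    lam hl0 hl1 hu S hS0 hSV β _ (fun s => s.elim0) _ (fun s => ⟨_, fn_mem x i₀ b₀ (K s), rfl⟩)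
    hlinK'
  -- the flag
  have hcomp : ∀ q : MvPolynomial σ Ω, fp (cP (fv D x y (g0 n σ Ω)) q) =
      cP (pv D x (g0 n σ Ω)) q := by
    intro q
    have h1 : (fun J => fp (fv D x y (g0 n σ Ω) J)) = pv D x (g0 n σ Ω) :=
      funext fun J => fp_fv D x y (g0 n σ Ω) J
    rw [ka_comp, h1]
  obtain ⟨b, r, t', f₂, K₂, f₂', rr₂, hK₂, -, hdt₂, hI₂, hJ₂, hd1, hd2, hd3, hc2⟩ :=
    ex_flag (fv D x y (g0 n σ Ω)) x y (ε0 Ω) i₀ b₀ hx ha (lam.comp fp) (by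
      intro s
      fin_cases s
      · show lam (fp (tr 0 x 0)) = 0
        rw [fp_tr]
        have : (Sum.elim (0 : σ → Ω) (0 : K0 → Ω)) = 0 := by
          funext r
          rcases r with l | k <;> rfl
        rw [this, map_zero]
      · show lam (fp (tr x 0 (ε0 Ω))) = 0
        rw [fp_tr]
        exact hl0
      · show lam (fp (tr 0 y 0)) = 0
        rw [fp_tr]
        have : (Sum.elim (0 : σ → Ω) (0 : K0 → Ω)) = 0 := by
          funext r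
          rcases r with l | k <;> rfl
        rw [this, map_zero]) (by
      intro q hq
      show lam (fp (cP (fv D x y (g0 n σ Ω)) q)) = 0
      rw [hcomp]
      exact hl1 q hq) (by
      show lam (fp (cP (fv D x y (g0 n σ Ω)) _)) ≠ 0
      rw [hcomp]
      exact hu)
  have hrk := rk4 D x y (g0 n σ Ω) (ε0 Ω)
  rw [← hSd, hK0] at hrk
  have hbr : b + r + 4 ≤ kw + Fintype.card σ := by omega
  -- the line moves
  by_cases hT : 6 ≤ r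
  · obtain ⟨T, hT1, hT2⟩ : ∃ T, T ≤ r ∧ 6 * Fintype.card σ + 2 * Fintype.card (Fin 0) ≤
        T * (T + 1) + 6 := by
      rw [Fintype.card_fin]
      exact ⟨6, hT, by omega⟩
    have hmv : Moves T D (fun (j : Fin 0) _ => j.elim0) ![x, y] := by
      refine moves_of_flag (z := Fin 0) T D (fun (j : Fin 0) _ => j.elim0) x y (g0 n σ Ω)
        (fun _ j => j.elim0) (ε0 Ω) (fun j => j.elim0) ?_
      rw [hd1, Fintype.card_fin]
      refine le_trans ?_ hd3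
      omega
    obtain ⟨G, hG, hKL⟩ := Pool.Agent.Helper74.LN.k2 D (fun (j : Fin 0) _ => j.elim0) ![x, y]
      ⟨i₀, b₀, ha⟩ T hmv hT2
    exact line_mem_G hB hq4 x i₀ hx hF y ⟨i₀, b₀, ha⟩ G hG _ fun O Δ hΔ m _ _ j l =>
      hKL O Δ hΔ (fun j => j.elim0) j l
  -- the numbers
  obtain ⟨B', C, m', s, e1, e2, e3⟩ := kn8 (Fintype.card σ) kw (n + 1) i t b r
    (kc8 _ _ kw i t r hnum (by rw [hit, hkw]) (by rw [hkw]; exact hSK) hA hi2 hT) hbr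
  obtain ⟨G₂, hG₂⟩ : ∃ G₂, G₂ = Pool.Agent.Helper49.LN.dt rr₂ (vv (b3 x y (ε0 Ω)) (vb0 _)
      (fun s => lv (fv D x y (g0 n σ Ω)) (pl x y) (f₂ s))
      (fun s => fn (fv D x y (g0 n σ Ω)) x i₀ b₀ (K₂ s))
      (fun _ => la (E := Ω) (fv D x y (g0 n σ Ω)) i₀) fun s => kv x y (f₂' s)) := ⟨_, rfl⟩
  obtain ⟨G₁, hG₁⟩ : ∃ G₁, G₁ = Pool.Agent.Helper49.LN.dt rr₁ (vv (fun _ => pe x (ε0 Ω))
      (fun p => bl (pv D x (g0 n σ Ω)) x i₀ (β p.1) p.2) Fin.elim0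
      (fun s => fn (pv D x (g0 n σ Ω)) x i₀ b₀ (K s))
      (Sum.elim (fun _ => la (E := Ω) (pv D x (g0 n σ Ω)) i₀) fun s => uv (Sum.inl (e₁ s)))
      fun s => uv (f₁ s)) := ⟨_, rfl⟩
  have hdt₁' : G₁ ≠ 0 := by
    rw [hG₁]
    exact hdt₁
  rw [← hG₂] at hdt₂
  refine kd_mem hB x i₀ hx (G₁ ^ B' * G₂ ^ C / pl x y i₀ b₀ ^ m')
    (div_ne_zero (mul_ne_zero (pow_ne_zero _ hdt₁') (pow_ne_zero _ hdt₂)) (pow_ne_zero _ ha))
    (B' * Fintype.card (σ ⊕ K0) + C * Fintype.card ((σ ⊕ σ) ⊕ K0)) ?_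
  intro O Δ m hΔ hm hxm
  have hl := hxi O m hxm
  obtain ⟨j, hL⟩ := exists_j O x y i₀ b₀ ha m hm hxm
  have hδ : pl x y i₀ b₀ / pl x y m j = pl (xt x m) (yt x y m j) i₀ b₀ := by
    rw [hL.pl_eq i₀ b₀, mul_div_cancel_left₀ _ hL.hρ]
  obtain ⟨N₁, hN₁, eq₁⟩ := g1_fan (locG0 (n := n) hΔ x m) hL hx ha β K hK e₁ f₁ rr₁ (by
    intro q hq
    have h1 := hI q hq
    rw [Set.Sum.elim_range] at h1
    exact h1) (by
    intro q hq
    have h1 := hspanK q hq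
    rw [Set.Sum.elim_range, Set.Sum.elim_range] at h1
    exact h1)
  obtain ⟨N₂, hN₂, eq₂⟩ := g2_det (locG0 (n := n) hΔ x m) hL i₀ b₀ hx ha f₂ K₂ hK₂ f₂' rr₂ hI₂ hJ₂
  rw [← hG₁, add_assoc (Fintype.card σ) i t, mul_assoc (x m ^ _)] at eq₁
  rw [← hG₂] at eq₂
  have h2 := ka_w _ _ _ hm (n + 1) p₁ (Fintype.card σ) (Module.finrank Ω S) kw (i + t)
    eq₁ hp₁ hkw.ge
  rw [← add_assoc] at h2
  have h6 : Δ ^ Fintype.card (σ ⊕ K0) * G₁ * x m ^ (n + 1) = x m ^ (kw + i + t) *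
      (pl x y i₀ b₀ / pl x y m j) ^ (t * (t + 1) / 2) *
        ((x m)⁻¹ ^ (kw - Module.finrank Ω S) * N₁) := by
    rw [h2, hδ]
    ring
  have h7 : Δ ^ Fintype.card ((σ ⊕ σ) ⊕ K0) * G₂ * x m ^ (n + 1) * pl x y m j =
      x m ^ (2 + r) * pl x y m j ^ (Fintype.card σ + b) *
        (pl x y i₀ b₀ / pl x y m j) ^ (r * (r + 1) / 2) * N₂ := by
    rw [hδ, ← eq₂]
    ring
  have h8 := kd_pt (Fintype.card σ) kw (n + 1) i t b r B' C m' s e1 e2 e3 O G₁ G₂ (x m)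
    (pl x y m j) Δ (pl x y i₀ b₀) (Fintype.card (σ ⊕ K0)) (Fintype.card ((σ ⊕ σ) ⊕ K0)) hm hL.hρ
    ha (by rw [hδ]; exact hL.pl_mem i₀ b₀) hl
    ⟨_, mul_mem (pow_mem hl _) hN₁, h6⟩ ⟨_, hN₂, h7⟩
  rw [← mul_assoc]
  exact h8

end

end Pool.Agent.Helper74.Q8
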