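import Pool.Agent.Helper74.Q8.Vol

/-!
# Q8-KERDIM: the kernel of a block modulo another one

`φ(l) = D_(P l) x` maps `R = {l | l . x = 0}` (dimension 5) to `n^⊥` (dimension 5), and
`φ(l1), φ(l2)` form a basis of `n^⊥ / (x, w, w')` (dimension 2, `vol_coord`). So the kernel of
`R → n^⊥ / (x, w, w')` has dimension 3, and it is the kernel of the alternating form
`vol(φ(l), φ(l'), w, w')`.
-/

set_option autoImplicit false

namespace Pool.Agent.Helper74.Q8

open scoped BigOperators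
open MvPolynomial
open Pool.Agent.Helper8.LG (Bdd form mon)
open Pool.Agent.Helper49.LN (cP mo hf pl)
open Pool.Agent.Helper6.QS

variable {Ω : Type*} [Field Ω] [CharZero Ω] {q : ℕ} {D : Sym (Fin 6) q → Derivation ℤ Ω Ω}
  {a : Sym (Fin 6) q → Ω} {B : Subfield Ω} {x n : Fin 6 → Ω}

omit [CharZero Ω] in
theorem kerDim_det (A : Matrix (Fin 4) (Fin 4) Ω)
    (h2 : ∀ j, A 2 j = if (2 : Fin 4) = j then 1 else 0)
    (h3 : ∀ j, A 3 j = if (3 : Fin 4) = j then 1 else 0) :
    A.det = A 0 0 * A 1 1 - A 0 1 * A 1 0 := by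
  have a20 : A 2 0 = 0 := by rw [h2]; simp
  have a21 : A 2 1 = 0 := by rw [h2]; simp
  have a22 : A 2 2 = 1 := by rw [h2]; simp
  have a23 : A 2 3 = 0 := by rw [h2]; simp
  have a30 : A 3 0 = 0 := by rw [h3]; simp
  have a31 : A 3 1 = 0 := by rw [h3]; simp
  have a32 : A 3 2 = 0 := by rw [h3]; simp
  have a33 : A 3 3 = 1 := by rw [h3]; simp
  have e : A = !![A 0 0, A 0 1, A 0 2, A 0 3; A 1 0, A 1 1, A 1 2, A 1 3;
      0, 0, 1, 0; 0, 0, 0, 1] := by
    ext i j
    fin_cases i <;> fin_cases j <;> first | rfl | assumption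
  rw [e]
  simp [Matrix.det_succ_row_zero, Fin.sum_univ_succ, Fin.succAbove]
  ring

/-- the volume of two images in coordinates -/
theorem kerDim_vol (h : Pt8 D a B x n) (V : (Fin 6 → Ω) → (Fin 6 → Ω) → Ω) (v1 v2 w w' : Fin 6 → Ω)
    (eV : ∀ u v, V u v = vol D x (![u, v, w, w'] : Fin 4 → Fin 6 → Ω)) (h1 : dt n v1 = 0)
    (h2 : dt n v2 = 0) (hw : dt n w = 0) (hw' : dt n w' = 0) (hne : V v1 v2 ≠ 0) :
    ∃ θ0 θ1 : Fin 6 → Ω, dt θ0 v1 = 1 ∧ dt θ1 v1 = 0 ∧ dt θ0 v2 = 0 ∧ dt θ1 v2 = 1 ∧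
      ∀ u v, dt n u = 0 → dt n v = 0 → V u v =
        V v1 v2 * (dt θ0 u * dt θ1 v - dt θ1 u * dt θ0 v) := by
  have hW : ∀ u v, dt n u = 0 → dt n v = 0 →
      ∀ i, dt n ((![u, v, w, w'] : Fin 4 → Fin 6 → Ω) i) = 0 := by
    intro u v hu hv i
    fin_cases i
    · exact hu
    · exact hv
    · exact hw
    · exact hw'
  rw [eV] at hne
  obtain ⟨θ, -, hθ, -, -, hv⟩ := vol_coord h _ (hW v1 v2 h1 h2) hne
  refine ⟨θ 0, θ 1, ?_, ?_, ?_, ?_, ?_⟩
  · exact (hθ 0 0).trans (if_pos rfl)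
  · exact (hθ 0 1).trans (if_neg (by decide))
  · exact (hθ 1 0).trans (if_neg (by decide))
  · exact (hθ 1 1).trans (if_pos rfl)
  · intro u v hu hv'
    rw [eV, eV, hv _ (hW u v hu hv'), kerDim_det]
    · rfl
    · intro j
      exact hθ 2 j
    · intro j
      exact hθ 3 j

theorem ker_dim (h : Pt8 D a B x n) (P : MvPolynomial (Fin 6) Ω) (w w' : Fin 6 → Ω)
    (hw : dt n w = 0) (hw' : dt n w' = 0) (l1 l2 : Fin 6 → Ω) (h1 : dt l1 x = 0)
    (h2 : dt l2 x = 0) (hne : vol D x ![dl D x P l1, dl D x P l2, w, w'] ≠ 0) :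
    ∃ k : Fin 3 → Fin 6 → Ω, LinearIndependent Ω k ∧ (∀ i, dt (k i) x = 0) ∧
      (∀ i l', dt l' x = 0 → vol D x ![dl D x P (k i), dl D x P l', w, w'] = 0) ∧
      ∀ l, dt l x = 0 → (∀ l', dt l' x = 0 → vol D x ![dl D x P l, dl D x P l', w, w'] = 0) →
        l ∈ Submodule.span Ω (Set.range k) := by
  obtain ⟨V, eV⟩ : ∃ V : (Fin 6 → Ω) → (Fin 6 → Ω) → Ω, ∀ u v, V u v =
    vol D x (![u, v, w, w'] : Fin 4 → Fin 6 → Ω) := ⟨_, fun _ _ => rfl⟩
  have lit : ∀ l l', vol D x ![dl D x P l, dl D x P l', w, w'] =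
      V (dl D x P l) (dl D x P l') := by
    intro l l'
    rw [eV]
  rw [lit] at hne
  obtain ⟨θ0, θ1, t01, t11, t02, t12, key'⟩ := kerDim_vol h V (dl D x P l1) (dl D x P l2) w w' eV
    (vol_tan h P l1 h1) (vol_tan h P l2 h2) hw hw' hne
  have key := fun l l' (hl : dt l x = 0) (hl' : dt l' x = 0) =>
    key' (dl D x P l) (dl D x P l') (vol_tan h P l hl) (vol_tan h P l' hl')
  -- the linear map
  let G : (Fin 6 → Ω) →ₗ[Ω] (Fin 3 → Ω) :=
    { toFun := fun l => ![dt x l, dt θ0 (dl D x P l), dt θ1 (dl D x P l)]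
      map_add' := by
        intro l l'
        rw [dl_add_right, dt_add', dt_add', dt_add']
        ext i
        fin_cases i <;> rfl
      map_smul' := by
        intro c l
        rw [dl_smul_right, dt_smul', dt_smul', dt_smul']
        ext i
        fin_cases i <;> rfl }
  have hG : ∀ l, G l = ![dt x l, dt θ0 (dl D x P l), dt θ1 (dl D x P l)] := fun _ => rfl
  have hsurj : Function.Surjective G := by
    intro c
    obtain ⟨l3, hl3⟩ : ∃ l3 : Fin 6 → Ω, dt x l3 = 1 := by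
      refine ⟨Pi.single 0 1, ?_⟩
      unfold dt
      rw [Finset.sum_eq_single 0]
      · rw [h.one, Pi.single_eq_same, mul_one]
      · intro b _ hb
        rw [Pi.single_eq_of_ne hb, mul_zero]
      · intro h0
        exact absurd (Finset.mem_univ _) h0
    refine ⟨c 0 • l3 + (c 1 - c 0 * dt θ0 (dl D x P l3)) • l1 +
      (c 2 - c 0 * dt θ1 (dl D x P l3)) • l2, ?_⟩
    rw [hG]
    rw [dl_add_right, dl_add_right, dl_smul_right, dl_smul_right, dl_smul_right]
    rw [dt_add', dt_add', dt_add', dt_add', dt_add', dt_add']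
    rw [dt_smul', dt_smul', dt_smul', dt_smul', dt_smul', dt_smul', dt_smul', dt_smul', dt_smul']
    rw [hl3, dt_comm' x l1, dt_comm' x l2, h1, h2, t01, t11, t02, t12]
    ext i
    fin_cases i
    · show c 0 * 1 + _ * 0 + _ * 0 = c 0
      ring
    · show c 0 * dt θ0 (dl D x P l3) + (c 1 - c 0 * dt θ0 (dl D x P l3)) * 1 + _ * 0 = c 1
      ring
    · show c 0 * dt θ1 (dl D x P l3) + _ * 0 + (c 2 - c 0 * dt θ1 (dl D x P l3)) * 1 = c 2
      ring
  have hfin : Module.finrank Ω (LinearMap.ker G) = 3 := by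
    have e := LinearMap.finrank_range_add_finrank_ker G
    rw [LinearMap.range_eq_top.2 hsurj, finrank_top, Module.finrank_fin_fun,
      Module.finrank_fin_fun] at e
    omega
  let b := Module.finBasisOfFinrankEq Ω (LinearMap.ker G) hfin
  have hk : ∀ l ∈ LinearMap.ker G, dt l x = 0 ∧ dt θ0 (dl D x P l) = 0 ∧
      dt θ1 (dl D x P l) = 0 := by
    intro l hl
    have e : ![dt x l, dt θ0 (dl D x P l), dt θ1 (dl D x P l)] = (0 : Fin 3 → Ω) := by
      rw [← hG]
      exact LinearMap.mem_ker.1 hl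
    refine ⟨?_, congrFun e 1, congrFun e 2⟩
    rw [dt_comm']
    exact congrFun e 0
  refine ⟨fun i => (b i : Fin 6 → Ω), ?_, ?_, ?_, ?_⟩
  · exact b.linearIndependent.map' (LinearMap.ker G).subtype (Submodule.ker_subtype _)
  · intro i
    exact (hk _ (b i).2).1
  · intro i l' hl'
    rw [lit, key _ _ (hk _ (b i).2).1 hl', (hk _ (b i).2).2.1, (hk _ (b i).2).2.2]
    ring
  · intro l hl hz
    have e1 := hz l1 h1
    have e2 := hz l2 h2
    rw [lit, key _ _ hl h1, t01, t11] at e1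
    rw [lit, key _ _ hl h2, t02, t12] at e2
    have f1 : dt θ1 (dl D x P l) = 0 := by
      rcases mul_eq_zero.1 e1 with e | e
      · exact absurd e hne
      · linear_combination -e
    have f0 : dt θ0 (dl D x P l) = 0 := by
      rcases mul_eq_zero.1 e2 with e | e
      · exact absurd e hne
      · linear_combination e
    have hl' : l ∈ LinearMap.ker G := by
      rw [LinearMap.mem_ker, hG, dt_comm' x l, hl, f0, f1]
      ext i
      fin_cases i <;> rfl
    have hr : Set.range (fun i => (b i : Fin 6 → Ω)) = (LinearMap.ker G).subtype '' Set.range b := by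
      rw [← Set.range_comp]
      rfl
    rw [hr, Submodule.span_image, b.span_eq, Submodule.map_top, Submodule.range_subtype]
    exact hl'

end Pool.Agent.Helper74.Q8
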