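import Pool.Agent.Helper74.Q8.TRat
import Pool.Agent.Helper74.Q8.KerRat

/-!
# Q8-KERSPAN: the kernel of a block modulo a rational block is rational

Let `T_bc = T4 D x P Q (rr x 0 b) (rr x 0 c) (rr x 0 b') (rr x 0 c')` and
`t_jbc = x_j T_bc - x_b T_jc + x_c T_jb ∈ B` (`t_rat`). For `l, l'` in `R` (orthogonal to `x`):
`T4 .. l l' .. = ∑ l_b l'_c T_bc` (`rr_span`). For any vector `m`, with `S_c = ∑_j m_j T_jc`:
`∑_j m_j t_jbc = (m . x) T_bc - x_b S_c + x_c S_b`. If `m ∈ R` is in the kernel, then `S_c = 0` for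
all `c` (`T4 .. m (rr x 0 c) ..`), so `∑_j m_j t_jbc = 0`. Conversely, if `∑_j m_j t_jbc = 0` for
all `b, c` and `m . x ≠ 0`, then `(m . x) t_jbc = 0` for all `j, b, c` (insert
`(m . x) T_bc = x_b S_c - x_c S_b`), against `hne` (`t_0bc = T_bc`, some `T_bc ≠ 0`). So
`m . x = 0`. Now apply `ker_rat` to the system `∑_j m_j t_jbc = 0`, indices `(b, c)`.
-/

set_option autoImplicit false

namespace Pool.Agent.Helper74.Q8

open scoped BigOperators
open MvPolynomial
open Pool.Agent.Helper8.LG (Bdd form mon)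
open Pool.Agent.Helper49.LN (cP mo hf pl)
open Pool.Agent.Helper6.QS

variable {Ω : Type*} [Field Ω]

/-- sums in the first direction -/
theorem kerSpan_left {q : ℕ} (D : Sym (Fin 6) q → Derivation ℤ Ω Ω) (x : Fin 6 → Ω)
    (P Q : MvPolynomial (Fin 6) Ω) {ι : Type*} (s : Finset ι) (c : ι → Ω)
    (r : ι → Fin 6 → Ω) (l' m m' : Fin 6 → Ω) :
    T4 D x P Q (∑ i ∈ s, c i • r i) l' m m' = ∑ i ∈ s, c i * T4 D x P Q (r i) l' m m' := by
  have h0 : ∀ l, T4 D x P Q l l' m m' =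
      (vol D x).curryLeft (dlm D x P l) ![dl D x P l', dl D x Q m, dl D x Q m'] := by
    intro l
    unfold T4
    rw [AlternatingMap.curryLeft_apply_apply, dlm_apply]
  generalize (![dl D x P l', dl D x Q m, dl D x Q m'] : Fin 3 → Fin 6 → Ω) = w at h0
  generalize (vol D x).curryLeft = F at h0
  generalize dlm D x P = d at h0
  let L : (Fin 6 → Ω) →ₗ[Ω] Ω :=
    { toFun := fun l => F (d l) w
      map_add' := fun l l'' => by rw [map_add, map_add, AlternatingMap.add_apply]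
      map_smul' := fun e l => by
        rw [map_smul, map_smul, AlternatingMap.smul_apply, RingHom.id_apply] }
  have h1 : L (∑ i ∈ s, c i • r i) = ∑ i ∈ s, c i * L (r i) := by
    rw [map_sum]
    exact Finset.sum_congr rfl fun i _ => by rw [map_smul, smul_eq_mul]
  rw [h0]
  refine h1.trans (Finset.sum_congr rfl fun i _ => ?_)
  rw [h0]
  rfl

/-- the determinant is alternating in the two directions -/
theorem kerSpan_swap {q : ℕ} (D : Sym (Fin 6) q → Derivation ℤ Ω Ω) (x : Fin 6 → Ω)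
    (P Q : MvPolynomial (Fin 6) Ω) (l l' m m' : Fin 6 → Ω) :
    T4 D x P Q l l' m m' = - T4 D x P Q l' l m m' := by
  unfold T4
  rw [← (vol D x).map_swap _ (i := 0) (j := 1) (by decide)]
  congr 1
  funext i
  fin_cases i <;> rfl

/-- sums in the second direction -/
theorem kerSpan_right {q : ℕ} (D : Sym (Fin 6) q → Derivation ℤ Ω Ω) (x : Fin 6 → Ω)
    (P Q : MvPolynomial (Fin 6) Ω) {ι : Type*} (s : Finset ι) (c : ι → Ω)
    (r : ι → Fin 6 → Ω) (l m m' : Fin 6 → Ω) :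
    T4 D x P Q l (∑ i ∈ s, c i • r i) m m' = ∑ i ∈ s, c i * T4 D x P Q l (r i) m m' := by
  rw [kerSpan_swap, kerSpan_left, ← Finset.sum_neg_distrib]
  refine Finset.sum_congr rfl fun i _ => ?_
  rw [kerSpan_swap D x P Q l (r i)]
  ring

/-- the zero direction -/
theorem kerSpan_zero {q : ℕ} (D : Sym (Fin 6) q → Derivation ℤ Ω Ω) (x : Fin 6 → Ω)
    (P Q : MvPolynomial (Fin 6) Ω) (l' m m' : Fin 6 → Ω) : T4 D x P Q 0 l' m m' = 0 := by
  have := kerSpan_left D x P Q (∅ : Finset (Fin 6)) (fun _ => 0) (fun _ => 0) l' m m'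
  simpa using this

/-- the algebra of the system -/
theorem kerSpan_alg (x m : Fin 6 → Ω) (T : Fin 6 → Fin 6 → Ω) (b c : Fin 6) :
    ∑ j, m j * (x j * T b c - x b * T j c + x c * T j b) =
      (∑ j, m j * x j) * T b c - x b * (∑ j, m j * T j c) + x c * ∑ j, m j * T j b := by
  rw [Finset.sum_mul, Finset.mul_sum, Finset.mul_sum, ← Finset.sum_sub_distrib,
    ← Finset.sum_add_distrib]
  exact Finset.sum_congr rfl fun j _ => by ring

variable [CharZero Ω] {q : ℕ} {D : Sym (Fin 6) q → Derivation ℤ Ω Ω}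
  {a : Sym (Fin 6) q → Ω} {B : Subfield Ω} {x n : Fin 6 → Ω}

theorem ker_span (h : Pt8 D a B x n) (P Q : MvPolynomial (Fin 6) Ω) (hP : RatP B P)
    (hQ : RatP B Q) (b' c' : Fin 6) (l1 l2 : Fin 6 → Ω) (h1 : dt l1 x = 0) (h2 : dt l2 x = 0)
    (hne : T4 D x P Q l1 l2 (rr x 0 b') (rr x 0 c') ≠ 0) (l : Fin 6 → Ω) (hl : dt l x = 0)
    (hker : ∀ l', dt l' x = 0 → T4 D x P Q l l' (rr x 0 b') (rr x 0 c') = 0) :
    l ∈ Submodule.span Ω {m : Fin 6 → Ω | (∀ j, m j ∈ B) ∧ dt m x = 0} := by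
  set T : Fin 6 → Fin 6 → Ω := fun b c =>
    T4 D x P Q (rr x 0 b) (rr x 0 c) (rr x 0 b') (rr x 0 c') with hT
  have hrat : ∀ j b c, x j * T b c - x b * T j c + x c * T j b ∈ B := fun j b c =>
    t_rat h P Q hP hQ j b c b' c'
  have hT0 : ∀ c, T 0 c = 0 := by
    intro c
    simp only [hT]
    rw [rr_zero]
    exact kerSpan_zero D x P Q _ _ _
  -- the kernel
  have hS : ∀ c, ∑ j, l j * T j c = 0 := by
    intro c
    have h3 := hker (rr x 0 c) (rr_dt 0 c)
    rw [rr_span h.one l hl, kerSpan_left] at h3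
    exact h3
  have hsys := ker_rat B (fun (i : Fin 6 × Fin 6) (j : Fin 6) =>
    x j * T i.1 i.2 - x i.1 * T j i.2 + x i.2 * T j i.1) (fun i j => hrat j i.1 i.2) l (by
      rintro ⟨b, c⟩
      have h3 := kerSpan_alg x l T b c
      rw [hS, hS] at h3
      have h4 : ∑ j, l j * x j = 0 := hl
      rw [h4] at h3
      simpa using h3)
  refine Submodule.span_mono ?_ hsys
  rintro m ⟨hmB, hm⟩
  refine ⟨hmB, ?_⟩
  by_contra hmx
  have h4 : ∑ j, m j * x j ≠ 0 := hmx
  -- `(m . x) T_bc = x_b S_c - x_c S_b`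
  have h5 : ∀ b c, (∑ j, m j * x j) * T b c =
      x b * (∑ j, m j * T j c) - x c * ∑ j, m j * T j b := by
    intro b c
    have h3 := kerSpan_alg x m T b c
    rw [hm (b, c)] at h3
    linear_combination -h3
  have h6 : ∀ b c, T b c = 0 := by
    intro b c
    have h7 : (∑ j, m j * x j) * (x 0 * T b c - x b * T 0 c + x c * T 0 b) = 0 := by
      linear_combination x 0 * h5 b c - x b * h5 0 c + x c * h5 0 b
    rw [hT0, hT0, h.one] at h7
    have h8 := (mul_eq_zero.1 h7).resolve_left h4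
    linear_combination h8
  apply hne
  rw [rr_span h.one l1 h1, kerSpan_left]
  refine Finset.sum_eq_zero fun b _ => ?_
  rw [rr_span h.one l2 h2, kerSpan_right]
  have h9 : ∑ c, l2 c * T4 D x P Q (rr x 0 b) (rr x 0 c) (rr x 0 b') (rr x 0 c') = 0 :=
    Finset.sum_eq_zero fun c _ => by
      have h10 := h6 b c
      simp only [hT] at h10
      rw [h10, mul_zero]
  rw [h9, mul_zero]

end Pool.Agent.Helper74.Q8
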