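import Pool.Agent.Helper74.Q8.Dich8
import Pool.Agent.Helper74.Q8.KeyBlk8
import Pool.Agent.Helper6.QS.KeyAll

/-!
# Q8: the key statement for `(N, q) = (5, 8)`
-/

set_option autoImplicit false

namespace Pool.Agent.Helper74.Q8

open scoped BigOperators
open MvPolynomial
open Pool.Agent.Helper8.LG (Bdd form mon)
open Pool.Agent.Helper49.LN (cP mo hf pl)
open Pool.Agent.Helper6.QS

theorem key8n {Ω : Type*} [Field Ω] [CharZero Ω] {n : ℕ} (hn : n + 1 = 8)
    {D : Sym (Fin 6) (n + 1) → Derivation ℤ Ω Ω} {a : Sym (Fin 6) (n + 1) → Ω} {B : Subfield Ω}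
    (hB : Frame D a B) (x : Fin 6 → Ω) (hx : x 0 = 1) (hF : form a x = 0) : ∀ l, x l ∈ B := by
  rcases dich8 hB x 0 hx hF ⟨Fintype.card_fin _, hn⟩ with h | ⟨I, I', J, J', j, l, j', l', hlin⟩
  · exact h
  · rw [hf_lf, hf_lf, hf_lf, hf_lf] at hlin
    exact key_blk8 hn hB x hx hF _ _
      (fun m => by
        rw [coeff_add]
        exact add_mem (ratP_mo B _ m) (ratP_mo B _ m))
      (fun m => by
        rw [coeff_add]
        exact add_mem (ratP_mo B _ m) (ratP_mo B _ m)) _ _ _ _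
      (dt_hf x 0 j) (dt_hf x 0 l) (dt_hf x 0 j') (dt_hf x 0 l') hlin

theorem key8 {Ω : Type*} [Field Ω] [CharZero Ω] {q : ℕ} (hq : q = 8)
    {D : Sym (Fin 6) q → Derivation ℤ Ω Ω} {a : Sym (Fin 6) q → Ω} {B : Subfield Ω}
    (hB : Frame D a B) (x : Fin 6 → Ω) (hx : x 0 = 1) (hF : form a x = 0) : ∀ l, x l ∈ B := by
  obtain ⟨n, rfl⟩ : ∃ n, q = n + 1 := ⟨7, hq⟩
  exact key8n hq hB x hx hF

universe u

/-- **The key statement for generic octic fourfolds.** -/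
theorem keyQ58 : KeyQ.{u} 5 8 := by
  intro Ω _ _ D a B hB x hx hF
  exact key8 rfl hB x hx hF

end Pool.Agent.Helper74.Q8
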