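import Pool.Agent.Helper74.Q8.Defs
import Pool.Agent.Helper74.Q8.KerRat

/-!
# Q8-LINES6: points on a rational line

`two_line`: if `α = 0`, or `β = 0`, or `z'` is a multiple of `z`, then `x` is a multiple of a
rational vector and `x_0 = 1`. Otherwise `y = α⁻¹ z'` satisfies `pl x y j l = pl z z' j l ∈ B`, not all
zero, and `line_mem` applies (`2 * 6 ≤ 8 + 4`).
`four_line`: the vectors `y` with `k_i . y = 0` form a space of dimension 2 which contains `x`;
`ker_rat`: it is spanned by its rational elements, choose a rational basis `z, z'`.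
-/

set_option autoImplicit false

namespace Pool.Agent.Helper74.Q8

open scoped BigOperators
open MvPolynomial
open Pool.Agent.Helper8.LG (Bdd form mon)
open Pool.Agent.Helper49.LN (cP mo hf pl)
open Pool.Agent.Helper6.QS

/-- a multiple of a rational vector with a coordinate `1` is rational -/
theorem Lines6_mul {Ω : Type*} [Field Ω] {σ : Type*} {B : Subfield Ω} {x z : σ → Ω} {i₀ : σ}
    (hx1 : x i₀ = 1) (hz : ∀ i, z i ∈ B) (β : Ω) (h : ∀ i, x i = β * z i) : ∀ i, x i ∈ B := by
  have h1 : β * z i₀ = 1 := by rw [← h, hx1]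
  have h2 : z i₀ ≠ 0 := by
    intro h0
    rw [h0, mul_zero] at h1
    exact zero_ne_one h1
  have h3 : β = (z i₀)⁻¹ := eq_inv_of_mul_eq_one_left h1
  intro i
  rw [h i, h3]
  exact B.mul_mem (B.inv_mem (hz i₀)) (hz i)

/-- the two-dimensional space of solutions of four independent equations in dimension `6` -/
theorem Lines6_span {Ω : Type*} [Field Ω] (k : Fin 4 → Fin 6 → Ω) (hk : LinearIndependent Ω k)
    (z z' : Fin 6 → Ω) (hz : ∀ i, ∑ j, z j * k i j = 0) (hz' : ∀ i, ∑ j, z' j * k i j = 0)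
    (hzz : LinearIndependent Ω ![z, z']) (x : Fin 6 → Ω) (hx : ∀ i, ∑ j, x j * k i j = 0) :
    ∃ α β : Ω, x = α • z + β • z' := by
  set K : Matrix (Fin 4) (Fin 6) Ω := Matrix.of k with hK
  have hrank : K.rank = 4 := by
    have h1 := LinearIndependent.rank_matrix (M := K) hk
    rwa [Fintype.card_fin] at h1
  have hmem : ∀ y : Fin 6 → Ω, (∀ i, ∑ j, y j * k i j = 0) → y ∈ LinearMap.ker K.mulVecLin := by
    intro y hy
    rw [LinearMap.mem_ker, Matrix.mulVecLin_apply]
    funext i
    rw [Pi.zero_apply, ← hy i]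
    show ∑ j, k i j * y j = _
    exact Finset.sum_congr rfl fun j _ => mul_comm _ _
  have hker : Module.finrank Ω (LinearMap.ker K.mulVecLin) = 2 := by
    have h1 := LinearMap.finrank_range_add_finrank_ker K.mulVecLin
    have h2 : Module.finrank Ω (LinearMap.range K.mulVecLin) = 4 := hrank
    rw [h2, Module.finrank_fin_fun] at h1
    omega
  have hle : Submodule.span Ω (Set.range ![z, z']) ≤ LinearMap.ker K.mulVecLin := by
    rw [Submodule.span_le]
    rintro _ ⟨i, rfl⟩
    fin_cases i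
    · exact hmem z hz
    · exact hmem z' hz'
  have heq : Submodule.span Ω (Set.range ![z, z']) = LinearMap.ker K.mulVecLin := by
    apply Submodule.eq_of_le_of_finrank_le hle
    rw [hker, finrank_span_eq_card hzz, Fintype.card_fin]
  have h3 := hmem x hx
  rw [← heq, Matrix.range_cons, Matrix.range_cons, Matrix.range_empty, Set.union_empty,
    Set.singleton_union, Submodule.mem_span_pair] at h3
  obtain ⟨α, β, h4⟩ := h3
  exact ⟨α, β, h4.symm⟩

variable {Ω : Type*} [Field Ω] [CharZero Ω] {q : ℕ} {D : Sym (Fin 6) q → Derivation ℤ Ω Ω}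
  {a : Sym (Fin 6) q → Ω} {B : Subfield Ω} {x n : Fin 6 → Ω}

theorem two_line (h : Pt8 D a B x n) (z z' : Fin 6 → Ω) (hz : ∀ i, z i ∈ B)
    (hz' : ∀ i, z' i ∈ B) (α β : Ω) (hx : x = α • z + β • z') : ∀ i, x i ∈ B := by
  have hxi : ∀ i, x i = α * z i + β * z' i := by
    intro i
    conv_lhs => rw [hx]
    rfl
  by_cases hα : α = 0
  · refine Lines6_mul (i₀ := 0) h.one hz' β fun i => ?_
    rw [hxi i, hα, zero_mul, zero_add]
  by_cases hpl : ∃ j l, pl z z' j l ≠ 0
  · have hy : ∀ j l, pl x (α⁻¹ • z') j l = pl z z' j l := by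
      intro j l
      unfold pl
      rw [hxi j, hxi l, Pi.smul_apply, Pi.smul_apply, smul_eq_mul, smul_eq_mul]
      field_simp
      ring
    refine line_mem h.frame (by rw [Fintype.card_fin, h.hq]) x 0 h.one h.zero (α⁻¹ • z') ?_ ?_
    · obtain ⟨j, l, hjl⟩ := hpl
      exact ⟨j, l, by rw [hy]; exact hjl⟩
    · intro j l
      rw [hy]
      unfold pl
      exact B.sub_mem (B.mul_mem (hz _) (hz' _)) (B.mul_mem (hz _) (hz' _))
  · push Not at hpl
    have hp : ∀ j l, z j * z' l = z l * z' j := by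
      intro j l
      have h1 := hpl j l
      unfold pl at h1
      exact sub_eq_zero.1 h1
    have h0 : α * z 0 + β * z' 0 = 1 := by rw [← hxi, h.one]
    by_cases hz0 : z 0 = 0
    · have hz0' : z' 0 ≠ 0 := by
        intro h1
        rw [hz0, h1, mul_zero, mul_zero, add_zero] at h0
        exact zero_ne_one h0
      refine Lines6_mul (i₀ := 0) h.one hz' (z' 0)⁻¹ fun i => ?_
      have h1 := hp 0 i
      rw [hxi i]
      field_simp
      linear_combination (-α) * h1 + z' i * h0
    · refine Lines6_mul (i₀ := 0) h.one hz (z 0)⁻¹ fun i => ?_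
      have h1 := hp 0 i
      rw [hxi i]
      field_simp
      linear_combination β * h1 + z i * h0

theorem four_line (h : Pt8 D a B x n) (k : Fin 4 → Fin 6 → Ω) (hkB : ∀ i j, k i j ∈ B)
    (hkx : ∀ i, dt (k i) x = 0) (hk : LinearIndependent Ω k) : ∀ i, x i ∈ B := by
  have hx : ∀ i, ∑ j, x j * k i j = 0 := by
    intro i
    rw [← hkx i]
    unfold dt
    exact Finset.sum_congr rfl fun j _ => mul_comm _ _
  have hspan := ker_rat B k hkB x hx
  by_cases hcase : ∃ z z' : Fin 6 → Ω, ((∀ j, z j ∈ B) ∧ ∀ i, ∑ j, z j * k i j = 0) ∧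
      ((∀ j, z' j ∈ B) ∧ ∀ i, ∑ j, z' j * k i j = 0) ∧ LinearIndependent Ω ![z, z']
  · obtain ⟨z, z', h1, h2, h3⟩ := hcase
    obtain ⟨α, β, h4⟩ := Lines6_span k hk z z' h1.2 h2.2 h3 x hx
    exact two_line h z z' h1.1 h2.1 α β h4
  · push Not at hcase
    obtain ⟨z, hzS, hz0⟩ : ∃ z : Fin 6 → Ω, ((∀ j, z j ∈ B) ∧ ∀ i, ∑ j, z j * k i j = 0) ∧
        z ≠ 0 := by
      by_contra hcon
      push Not at hcon
      have h1 : Submodule.span Ω {m : Fin 6 → Ω | (∀ j, m j ∈ B) ∧ ∀ i, ∑ j, m j * k i j = 0} ≤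
          ⊥ := by
        rw [Submodule.span_le]
        intro m hm
        exact (Submodule.mem_bot Ω).2 (hcon m hm)
      have h2 := h1 hspan
      rw [Submodule.mem_bot] at h2
      have h3 := h.one
      rw [h2] at h3
      exact zero_ne_one h3
    have h1 : Submodule.span Ω {m : Fin 6 → Ω | (∀ j, m j ∈ B) ∧ ∀ i, ∑ j, m j * k i j = 0} ≤
        Submodule.span Ω {z} := by
      rw [Submodule.span_le]
      intro m hm
      have h2 := hcase z m hzS hm
      rw [LinearIndependent.pair_iff' hz0] at h2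
      push Not at h2
      obtain ⟨c, hc⟩ := h2
      exact Submodule.mem_span_singleton.2 ⟨c, hc⟩
    obtain ⟨c, hc⟩ := Submodule.mem_span_singleton.1 (h1 hspan)
    refine two_line h z z hzS.1 hzS.1 c 0 ?_
    rw [zero_smul, add_zero, hc]

end Pool.Agent.Helper74.Q8
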