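import Pool.Agent.Helper74.Q8.KerDim
import Pool.Agent.Helper74.Q8.KerSpan
import Pool.Agent.Helper74.Q8.Lines6

/-!
# Q8-PLANEA: the rational plane through the point

Let `S` be the span of the rational vectors orthogonal to `x`. If four of them are independent,
`four_line`. So `dim S ≤ 3`. By `ker_dim` (`w = D_(P2 (rr x 0 b)) x`, ..) and `ker_span` the kernel of
the block `P1` modulo the block of `P2` has dimension 3 and is contained in `S`: so `dim S = 3`; let
`k` be a basis of `S` of rational vectors. For all other `P, Q, b', c'` with a nonzero `T4` the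
kernel has dimension 3 and is contained in `S`, so it is `S`.
-/

set_option autoImplicit false

namespace Pool.Agent.Helper74.Q8

open scoped BigOperators
open MvPolynomial
open Pool.Agent.Helper8.LG (Bdd form mon)
open Pool.Agent.Helper49.LN (cP mo hf pl)
open Pool.Agent.Helper6.QS

/-- a spanning set of a subspace which contains three independent vectors, but has no four
independent vectors, has three elements which are a basis -/
theorem PlaneA_basis {Ω V : Type*} [Field Ω] [AddCommGroup V] [Module Ω V] [FiniteDimensional Ω V]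
    (S : Set V) (h4 : ∀ k : Fin 4 → V, (∀ i, k i ∈ S) → ¬ LinearIndependent Ω k)
    (h3 : ∃ k : Fin 3 → V, LinearIndependent Ω k ∧ ∀ i, k i ∈ Submodule.span Ω S) :
    (∃ k : Fin 3 → V, (∀ i, k i ∈ S) ∧ LinearIndependent Ω k) ∧
      ∀ k : Fin 3 → V, LinearIndependent Ω k → (∀ i, k i ∈ Submodule.span Ω S) →
        Submodule.span Ω (Set.range k) = Submodule.span Ω S := by
  obtain ⟨s, hsS, hspan, hlin⟩ := exists_linearIndependent Ω S
  have : Fintype s := hlin.setFinite.fintype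
  have hW : Module.finrank Ω (Submodule.span Ω S) = Fintype.card s := by
    have h1 := finrank_span_eq_card hlin
    rw [Subtype.range_coe, hspan] at h1
    exact h1
  have hle : Fintype.card s ≤ 3 := by
    by_contra hcon
    have h5 : Fintype.card (Fin 4) ≤ Fintype.card s := by
      rw [Fintype.card_fin]
      omega
    obtain ⟨e⟩ := Function.Embedding.nonempty_of_card_le h5
    exact h4 (fun i => (e i).1) (fun i => hsS (e i).2) (hlin.comp e e.injective)
  have hge : ∀ k : Fin 3 → V, LinearIndependent Ω k → (∀ i, k i ∈ Submodule.span Ω S) →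
      Submodule.span Ω (Set.range k) ≤ Submodule.span Ω S ∧
      Module.finrank Ω (Submodule.span Ω (Set.range k)) = 3 := by
    intro k hk hkS
    refine ⟨?_, ?_⟩
    · rw [Submodule.span_le]
      rintro _ ⟨i, rfl⟩
      exact hkS i
    · rw [finrank_span_eq_card hk, Fintype.card_fin]
  obtain ⟨k0, hk0, hk0S⟩ := h3
  have h6 : 3 ≤ Fintype.card s := by
    rw [← hW, ← (hge k0 hk0 hk0S).2]
    exact Submodule.finrank_mono (hge k0 hk0 hk0S).1
  have hcard : Fintype.card s = 3 := le_antisymm hle h6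
  refine ⟨?_, ?_⟩
  · obtain ⟨e⟩ : Nonempty (s ≃ Fin 3) := ⟨Fintype.equivFinOfCardEq hcard⟩
    exact ⟨fun i => (e.symm i).1, fun i => hsS (e.symm i).2, hlin.comp e.symm e.symm.injective⟩
  · intro k hk hkS
    apply Submodule.eq_of_le_of_finrank_le (hge k hk hkS).1
    rw [hW, hcard, (hge k hk hkS).2]

variable {Ω : Type*} [Field Ω] [CharZero Ω] {q : ℕ} {D : Sym (Fin 6) q → Derivation ℤ Ω Ω}
  {a : Sym (Fin 6) q → Ω} {B : Subfield Ω} {x n : Fin 6 → Ω}

omit [CharZero Ω] in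
/-- `T4` with names for the last two rows (the unifier does not see it otherwise) -/
theorem PlaneA_T4 (P Q : MvPolynomial (Fin 6) Ω) (l l' m m' w w' : Fin 6 → Ω)
    (hw : w = dl D x Q m) (hw' : w' = dl D x Q m') :
    T4 D x P Q l l' m m' = vol D x ![dl D x P l, dl D x P l', w, w'] := by
  rw [T4, hw, hw']

/-- the kernel of a block modulo a rational block -/
theorem PlaneA_ker (h : Pt8 D a B x n) (P Q : MvPolynomial (Fin 6) Ω) (hP : RatP B P)
    (hQ : RatP B Q) (b' c' : Fin 6) (l l' : Fin 6 → Ω) (hl : dt l x = 0) (hl' : dt l' x = 0)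
    (hne : T4 D x P Q l l' (rr x 0 b') (rr x 0 c') ≠ 0) :
    ∃ k : Fin 3 → Fin 6 → Ω, LinearIndependent Ω k ∧
      (∀ i, k i ∈ Submodule.span Ω {m : Fin 6 → Ω | (∀ j, m j ∈ B) ∧ dt m x = 0}) ∧
      ∀ l'', dt l'' x = 0 → ∀ m ∈ Submodule.span Ω (Set.range k),
        T4 D x P Q m l'' (rr x 0 b') (rr x 0 c') = 0 := by
  obtain ⟨w, hw⟩ : ∃ w, w = dl D x Q (rr x 0 b') := ⟨_, rfl⟩
  obtain ⟨w', hw'⟩ : ∃ w', w' = dl D x Q (rr x 0 c') := ⟨_, rfl⟩
  have hn : dt n w = 0 := by
    rw [hw]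
    exact vol_tan h Q _ (trat_rr_dt x 0 b')
  have hn' : dt n w' = 0 := by
    rw [hw']
    exact vol_tan h Q _ (trat_rr_dt x 0 c')
  have hne' : vol D x ![dl D x P l, dl D x P l', w, w'] ≠ 0 := by
    rw [← PlaneA_T4 P Q l l' _ _ w w' hw hw']
    exact hne
  obtain ⟨k, hk1, hk2, hk3, -⟩ := ker_dim h P w w' hn hn' l l' hl hl' hne'
  have hk4 : ∀ i l'', dt l'' x = 0 → T4 D x P Q (k i) l'' (rr x 0 b') (rr x 0 c') = 0 := by
    intro i l'' hl''
    rw [PlaneA_T4 P Q (k i) l'' _ _ w w' hw hw']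
    exact hk3 i l'' hl''
  refine ⟨k, hk1, fun i => ?_, ?_⟩
  · exact ker_span h P Q hP hQ b' c' l l' hl hl' hne (k i) (hk2 i) (hk4 i)
  · intro l'' hl'' m hm
    induction hm using Submodule.span_induction with
    | mem m hm =>
      obtain ⟨i, rfl⟩ := hm
      exact hk4 i l'' hl''
    | zero =>
      have e := trat_left D x P Q 0 0 0 0 l'' (rr x 0 b') (rr x 0 c')
      rw [zero_smul, add_zero, zero_mul, add_zero] at e
      exact e
    | add u v _ _ hu hv =>
      have e := trat_left D x P Q 1 1 u v l'' (rr x 0 b') (rr x 0 c')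
      rw [one_smul, one_smul, one_mul, one_mul, hu, hv, add_zero] at e
      exact e
    | smul r u _ hu =>
      have e := trat_left D x P Q r 0 u 0 l'' (rr x 0 b') (rr x 0 c')
      rw [zero_smul, add_zero, zero_mul, add_zero, hu, mul_zero] at e
      exact e

theorem plane_a (h : Pt8 D a B x n) (P1 P2 : MvPolynomial (Fin 6) Ω) (hP1 : RatP B P1)
    (hP2 : RatP B P2) (l1 l2 : Fin 6 → Ω) (h1 : dt l1 x = 0) (h2 : dt l2 x = 0) (b c : Fin 6)
    (hne : T4 D x P1 P2 l1 l2 (rr x 0 b) (rr x 0 c) ≠ 0) :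
    (∀ i, x i ∈ B) ∨ ∃ k : Fin 3 → Fin 6 → Ω, (∀ i j, k i j ∈ B) ∧ (∀ i, dt (k i) x = 0) ∧
      LinearIndependent Ω k ∧ ∀ P Q, RatP B P → RatP B Q → ∀ (b' c' : Fin 6) (l l' : Fin 6 → Ω),
        dt l x = 0 → dt l' x = 0 → T4 D x P Q l l' (rr x 0 b') (rr x 0 c') ≠ 0 →
        ∀ i l'', dt l'' x = 0 → T4 D x P Q (k i) l'' (rr x 0 b') (rr x 0 c') = 0 := by
  by_cases hfour : ∃ k : Fin 4 → Fin 6 → Ω,
      (∀ i, k i ∈ {m : Fin 6 → Ω | (∀ j, m j ∈ B) ∧ dt m x = 0}) ∧ LinearIndependent Ω k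
  · obtain ⟨k, hk1, hk2⟩ := hfour
    exact Or.inl (four_line h k (fun i => (hk1 i).1) (fun i => (hk1 i).2) hk2)
  · right
    push Not at hfour
    obtain ⟨k0, hk0, hk0S, -⟩ := PlaneA_ker h P1 P2 hP1 hP2 b c l1 l2 h1 h2 hne
    obtain ⟨⟨k, hkS, hk⟩, hall⟩ := PlaneA_basis _ hfour ⟨k0, hk0, hk0S⟩
    refine ⟨k, fun i => (hkS i).1, fun i => (hkS i).2, hk, ?_⟩
    intro P Q hP hQ b' c' l l' hl hl' hne' i l'' hl''
    obtain ⟨k', hk', hk'S, hk'0⟩ := PlaneA_ker h P Q hP hQ b' c' l l' hl hl' hne'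
    apply hk'0 l'' hl''
    rw [hall k' hk' hk'S]
    exact Submodule.subset_span (hkS i)

end Pool.Agent.Helper74.Q8
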