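import Pool.Agent.Helper74.Q8.Vol

/-!
# Q8-PLANEB: the rational linear forms do not move the point

Write `φ_P(l) = D_(P l) x` and `m = rr x 0 b`, `m' = rr x 0 c`. `l1, l2` are combinations of the
`rr x 0 b''` (`rr_span`), so for some `b'', c''` we have `T4 P1 P2 (rr b'') (rr c'') m m' ≠ 0`;
exchanging the blocks (`vol` is alternating) `T4 P2 P1 m m' (rr b'') (rr c'') ≠ 0`. `hall` for
`(P1, P2, b, c)` and for `(P2, P1, b'', c'')`: `rr b'', rr c''` and `m, m'` are both bases of `R`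
modulo the span of `k` (dimension 5 - 3). So `m = α rr b'' + β rr c'' + k`-part, `m'` the same, and
`T4 P1 P2 m m' m m' = det * T4 P1 P2 (rr b'') (rr c'') m m' ≠ 0` (`hall`). So
`v0 = φ_P1(m), v1 = φ_P1(m'), w0 = φ_P2(m), w1 = φ_P2(m')` is a basis of `U` (`vol_coord`).
`hall` for `(P1, P2, b, c)`: `φ_P1(k_i) = α w0 + β w1` in `U`. `hall` for `(P1, P2 + P1, b, c)` (same
nonzero value): `vol(φ_P1(k_i), v0, w0 + v0, w1 + v1) = ± β vol = 0` and the same with `v1`: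
`α = 0`. So `φ_P1(k_i)` is a multiple of `x` (`vol_coord`, `vol_tan`). For a rational `P` choose
`s ∈ ℕ`, `s ≠ 0`, with `T4 (P1 + s P) P2 m m' m m' ≠ 0` (a polynomial in `s` of degree 2 which is
not zero at `0`): the same argument for `P1 + s P` gives `φ_(P1 + s P)(k_i) ∥ x`, so
`φ_P(k_i) ∥ x`. For all `P` by linearity (monomials are rational).
-/

set_option autoImplicit false

namespace Pool.Agent.Helper74.Q8

open scoped BigOperators
open MvPolynomial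
open Pool.Agent.Helper8.LG (Bdd form mon)
open Pool.Agent.Helper49.LN (cP mo hf pl)
open Pool.Agent.Helper6.QS

section alt

variable {Ω : Type*} [Field Ω] {V : Type*} [AddCommGroup V] [Module Ω V]

theorem PlaneB_s01 (f : V [⋀^Fin 4]→ₗ[Ω] Ω) (a b c d : V) : f ![b, a, c, d] = - f ![a, b, c, d] := by
  rw [← f.map_swap ![a, b, c, d] (i := 0) (j := 1) (by decide)]
  congr 1
  ext i
  fin_cases i <;> rfl

theorem PlaneB_s12 (f : V [⋀^Fin 4]→ₗ[Ω] Ω) (a b c d : V) : f ![a, c, b, d] = - f ![a, b, c, d] := by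
  rw [← f.map_swap ![a, b, c, d] (i := 1) (j := 2) (by decide)]
  congr 1
  ext i
  fin_cases i <;> rfl

theorem PlaneB_s23 (f : V [⋀^Fin 4]→ₗ[Ω] Ω) (a b c d : V) : f ![a, b, d, c] = - f ![a, b, c, d] := by
  rw [← f.map_swap ![a, b, c, d] (i := 2) (j := 3) (by decide)]
  congr 1
  ext i
  fin_cases i <;> rfl

theorem PlaneB_e01 (f : V [⋀^Fin 4]→ₗ[Ω] Ω) (a c d : V) : f ![a, a, c, d] = 0 :=
  f.map_eq_zero_of_eq _ (i := 0) (j := 1) rfl (by decide)

theorem PlaneB_blk (f : V [⋀^Fin 4]→ₗ[Ω] Ω) (a b c d : V) : f ![c, d, a, b] = f ![a, b, c, d] := by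
  rw [PlaneB_s12 f c a d b, PlaneB_s01 f a c d b, PlaneB_s23 f a c b d, PlaneB_s12 f a b c d]
  ring

/-- the first slot as a linear map -/
noncomputable def PlaneB_l0 (f : V [⋀^Fin 4]→ₗ[Ω] Ω) (b c d : V) : V →ₗ[Ω] Ω where
  toFun a := f ![a, b, c, d]
  map_add' _ _ := f.map_vecCons_add _ _ _
  map_smul' _ _ := f.map_vecCons_smul _ _ _

theorem PlaneB_l0_apply (f : V [⋀^Fin 4]→ₗ[Ω] Ω) (a b c d : V) :
    PlaneB_l0 f b c d a = f ![a, b, c, d] := rfl

theorem PlaneB_exp (f : V [⋀^Fin 4]→ₗ[Ω] Ω) (s : Ω) (a b c d p r : V) :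
    f ![a + s • p, b + s • r, c, d] = f ![a, b, c, d] + s * (f ![p, b, c, d] + f ![a, r, c, d]) +
      s ^ 2 * f ![p, r, c, d] := by
  have h1 : ∀ u, f ![a + s • p, u, c, d] = f ![a, u, c, d] + s * f ![p, u, c, d] := by
    intro u
    rw [← PlaneB_l0_apply, map_add, map_smul, PlaneB_l0_apply, PlaneB_l0_apply, smul_eq_mul]
  have h2 : ∀ u, f ![u, b + s • r, c, d] = f ![u, b, c, d] + s * f ![u, r, c, d] := by
    intro u
    rw [PlaneB_s01, ← PlaneB_l0_apply, map_add, map_smul, PlaneB_l0_apply, PlaneB_l0_apply,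
      smul_eq_mul, PlaneB_s01 f u b, PlaneB_s01 f u r]
    ring
  rw [h1, h2, h2]
  ring

theorem PlaneB_d4 (a0 a1 a2 a3 b0 b1 b2 b3 c0 c1 c2 c3 d0 d1 d2 d3 : Ω) :
    Matrix.det !![a0, a1, a2, a3; b0, b1, b2, b3; c0, c1, c2, c3; d0, d1, d2, d3] =
      a0 * (b1 * (c2 * d3 - c3 * d2) - b2 * (c1 * d3 - c3 * d1) + b3 * (c1 * d2 - c2 * d1)) -
      a1 * (b0 * (c2 * d3 - c3 * d2) - b2 * (c0 * d3 - c3 * d0) + b3 * (c0 * d2 - c2 * d0)) +
      a2 * (b0 * (c1 * d3 - c3 * d1) - b1 * (c0 * d3 - c3 * d0) + b3 * (c0 * d1 - c1 * d0)) -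
      a3 * (b0 * (c1 * d2 - c2 * d1) - b1 * (c0 * d2 - c2 * d0) + b2 * (c0 * d1 - c1 * d0)) := by
  simp [Matrix.det_succ_row_zero, Fin.sum_univ_succ, Fin.succAbove]
  ring

end alt

section gen

variable {Ω : Type*} [Field Ω] {q : ℕ} {D : Sym (Fin 6) q → Derivation ℤ Ω Ω}
  {B : Subfield Ω} {x : Fin 6 → Ω}

/-- `vol` with the index type `Fin 6` -/
noncomputable def PlaneB_vol (D : Sym (Fin 6) q → Derivation ℤ Ω Ω) (x : Fin 6 → Ω) :
    (Fin 6 → Ω) [⋀^Fin 4]→ₗ[Ω] Ω := vol D x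

theorem PlaneB_v0 (v : Fin 4 → Fin 6 → Ω) : vol D x v = PlaneB_vol D x v := rfl

omit [Field Ω] in
theorem PlaneB_v1 (b c d e : Fin 6 → Ω) :
    (![b, c, d, e] : Fin 4 → Fin (4 + 2) → Ω) = (![b, c, d, e] : Fin 4 → Fin 6 → Ω) := rfl

theorem PlaneB_v2 (b c d e : Fin 6 → Ω) :
    vol D x (![b, c, d, e] : Fin 4 → Fin (4 + 2) → Ω) = PlaneB_vol D x ![b, c, d, e] := by
  have h1 := PlaneB_v0 (D := D) (x := x) (![b, c, d, e] : Fin 4 → Fin 6 → Ω)
  rw [PlaneB_v1 b c d e]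
  exact h1

theorem PlaneB_v3 (b c d e b' c' d' e' : Fin 6 → Ω) (hb : b = b') (hc : c = c') (hd : d = d')
    (he : e = e') : vol D x (![b, c, d, e] : Fin 4 → Fin (4 + 2) → Ω) =
      PlaneB_vol D x ![b', c', d', e'] := by
  subst hb hc hd he
  exact PlaneB_v2 _ _ _ _

theorem PlaneB_T4 (P Q : MvPolynomial (Fin 6) Ω) (l l' m m' : Fin 6 → Ω) :
    T4 D x P Q l l' m m' =
      PlaneB_vol D x ![dl D x P l, dl D x P l', dl D x Q m, dl D x Q m'] := by
  unfold T4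
  exact PlaneB_v3 _ _ _ _ _ _ _ _ rfl rfl rfl rfl

/-- `T4` as a linear map in the first slot -/
noncomputable def PlaneB_t0 (D : Sym (Fin 6) q → Derivation ℤ Ω Ω) (x : Fin 6 → Ω)
    (P Q : MvPolynomial (Fin 6) Ω) (l' m m' : Fin 6 → Ω) : (Fin 6 → Ω) →ₗ[Ω] Ω :=
  (PlaneB_l0 (PlaneB_vol D x) (dl D x P l') (dl D x Q m) (dl D x Q m')).comp (dlm D x P)

theorem PlaneB_t0_apply (P Q : MvPolynomial (Fin 6) Ω) (l l' m m' : Fin 6 → Ω) :
    PlaneB_t0 D x P Q l' m m' l = T4 D x P Q l l' m m' := by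
  unfold PlaneB_t0
  rw [LinearMap.comp_apply, dlm_apply, PlaneB_l0_apply, PlaneB_T4]

theorem PlaneB_t_swap (P Q : MvPolynomial (Fin 6) Ω) (l l' m m' : Fin 6 → Ω) :
    T4 D x P Q l' l m m' = - T4 D x P Q l l' m m' := by
  rw [PlaneB_T4, PlaneB_T4, PlaneB_s01]

theorem PlaneB_t_self (P Q : MvPolynomial (Fin 6) Ω) (l m m' : Fin 6 → Ω) :
    T4 D x P Q l l m m' = 0 := by
  rw [PlaneB_T4, PlaneB_e01]

theorem PlaneB_t_blk (P Q : MvPolynomial (Fin 6) Ω) (l l' m m' : Fin 6 → Ω) :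
    T4 D x Q P m m' l l' = T4 D x P Q l l' m m' := by
  rw [PlaneB_T4, PlaneB_T4, PlaneB_blk]

theorem PlaneB_t_add (P Q : MvPolynomial (Fin 6) Ω) (l0 l1 l' m m' : Fin 6 → Ω) :
    T4 D x P Q (l0 + l1) l' m m' = T4 D x P Q l0 l' m m' + T4 D x P Q l1 l' m m' := by
  rw [← PlaneB_t0_apply, map_add, PlaneB_t0_apply, PlaneB_t0_apply]

theorem PlaneB_t_smul (P Q : MvPolynomial (Fin 6) Ω) (r : Ω) (l0 l' m m' : Fin 6 → Ω) :
    T4 D x P Q (r • l0) l' m m' = r * T4 D x P Q l0 l' m m' := by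
  rw [← PlaneB_t0_apply, map_smul, PlaneB_t0_apply, smul_eq_mul]

theorem PlaneB_t_sum {ι : Type*} (s : Finset ι) (P Q : MvPolynomial (Fin 6) Ω)
    (g : ι → Fin 6 → Ω) (r : ι → Ω) (l' m m' : Fin 6 → Ω) :
    T4 D x P Q (∑ i ∈ s, r i • g i) l' m m' = ∑ i ∈ s, r i * T4 D x P Q (g i) l' m m' := by
  rw [← PlaneB_t0_apply, map_sum]
  exact Finset.sum_congr rfl fun i _ => by rw [PlaneB_t0_apply, PlaneB_t_smul]

/-- step 1 -/
theorem PlaneB_ex (P Q : MvPolynomial (Fin 6) Ω) (l1 l2 m m' : Fin 6 → Ω)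
    (hsp : ∀ l : Fin 6 → Ω, dt l x = 0 → l = ∑ b, l b • rr x 0 b)
    (h1 : dt l1 x = 0) (h2 : dt l2 x = 0) (hne : T4 D x P Q l1 l2 m m' ≠ 0) :
    ∃ b c, T4 D x P Q (rr x 0 b) (rr x 0 c) m m' ≠ 0 := by
  by_contra hcon
  push Not at hcon
  apply hne
  rw [hsp l1 h1, PlaneB_t_sum]
  refine Finset.sum_eq_zero fun b _ => ?_
  rw [PlaneB_t_swap, hsp l2 h2, PlaneB_t_sum]
  rw [Finset.sum_eq_zero, neg_zero, mul_zero]
  intro c _
  rw [hcon c b, mul_zero]

/-- the linear forms vanishing at `x` have dimension 5 -/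
theorem PlaneB_span (hx : x 0 = 1) (g : Fin 3 ⊕ Fin 2 → Fin 6 → Ω) (hg : ∀ i, dt (g i) x = 0)
    (hlin : LinearIndependent Ω g) (l : Fin 6 → Ω) (hl : dt l x = 0) :
    ∃ r : Fin 3 ⊕ Fin 2 → Ω, ∑ i, r i • g i = l := by
  let φ : (Fin 6 → Ω) →ₗ[Ω] Ω :=
    { toFun := fun u => dt u x
      map_add' := fun u v => by
        rw [dt_comm', dt_add', dt_comm' x u, dt_comm' x v]
      map_smul' := fun r u => by
        rw [dt_comm', dt_smul', dt_comm' x u]
        rfl }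
  have hφ : ∀ u, φ u = dt u x := fun u => rfl
  have hr : LinearMap.range φ = ⊤ := by
    rw [LinearMap.range_eq_top]
    intro y
    refine ⟨y • Pi.single 0 1, ?_⟩
    rw [map_smul, hφ, smul_eq_mul]
    unfold dt
    simp [Pi.single_apply, hx]
  have hk : Module.finrank Ω (LinearMap.ker φ) = 5 := by
    have := LinearMap.finrank_range_add_finrank_ker φ
    rw [hr, finrank_top, Module.finrank_self, Module.finrank_fin_fun] at this
    omega
  have hle : Submodule.span Ω (Set.range g) ≤ LinearMap.ker φ := by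
    rw [Submodule.span_le]
    rintro _ ⟨i, rfl⟩
    exact hg i
  have hs : Module.finrank Ω (Submodule.span Ω (Set.range g)) = 5 := by
    rw [finrank_span_eq_card hlin]
    rfl
  have heq := Submodule.eq_of_le_of_finrank_eq hle (hs.trans hk.symm)
  have hm : l ∈ Submodule.span Ω (Set.range g) := by
    rw [heq]
    exact hl
  exact (Submodule.mem_span_range_iff_exists_fun Ω).1 hm

theorem PlaneB_par_add {u v : Fin 6 → Ω} (hu : Par x u) (hv : Par x v) : Par x (u + v) := by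
  obtain ⟨c, rfl⟩ := hu
  obtain ⟨d, rfl⟩ := hv
  exact ⟨c + d, (add_smul c d x).symm⟩

theorem PlaneB_par_smul {u : Fin 6 → Ω} (r : Ω) (hu : Par x u) : Par x (r • u) := by
  obtain ⟨c, rfl⟩ := hu
  exact ⟨r * c, (mul_smul r c x).symm⟩

theorem PlaneB_rat_add {P Q : MvPolynomial (Fin 6) Ω} (hP : RatP B P) (hQ : RatP B Q) :
    RatP B (P + Q) := fun m => by
  rw [coeff_add]
  exact B.add_mem (hP m) (hQ m)

theorem PlaneB_rat_smul {P : MvPolynomial (Fin 6) Ω} (s : ℕ) (hP : RatP B P) :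
    RatP B ((s : Ω) • P) := fun m => by
  rw [coeff_smul, smul_eq_mul]
  exact B.mul_mem (natCast_mem B s) (hP m)

theorem PlaneB_rat_mono (m : Fin 6 →₀ ℕ) : RatP B (monomial m (1 : Ω)) := fun m' => by
  rw [coeff_monomial]
  split_ifs
  · exact B.one_mem
  · exact B.zero_mem

end gen

variable {Ω : Type*} [Field Ω] [CharZero Ω] {q : ℕ} {D : Sym (Fin 6) q → Derivation ℤ Ω Ω}
  {a : Sym (Fin 6) q → Ω} {B : Subfield Ω} {x n : Fin 6 → Ω}

/-- `k_i` does not move `x` along `P1` -/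
theorem PlaneB_core (h : Pt8 D a B x n) (k : Fin 3 → Fin 6 → Ω) (hkx : ∀ i, dt (k i) x = 0)
    (hall : ∀ P Q, RatP B P → RatP B Q → ∀ (b' c' : Fin 6) (l l' : Fin 6 → Ω),
      dt l x = 0 → dt l' x = 0 → T4 D x P Q l l' (rr x 0 b') (rr x 0 c') ≠ 0 →
      ∀ i l'', dt l'' x = 0 → T4 D x P Q (k i) l'' (rr x 0 b') (rr x 0 c') = 0)
    (P1 P2 : MvPolynomial (Fin 6) Ω) (hP1 : RatP B P1) (hP2 : RatP B P2) (b c : Fin 6)
    (hne : T4 D x P1 P2 (rr x 0 b) (rr x 0 c) (rr x 0 b) (rr x 0 c) ≠ 0) (i : Fin 3) :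
    Par x (dl D x P1 (k i)) := by
  have hb : dt (rr x 0 b) x = 0 := rr_dt 0 b
  have hc : dt (rr x 0 c) x = 0 := rr_dt 0 c
  have hA := hall P1 P2 hP1 hP2 b c _ _ hb hc hne i
  have hB : T4 D x P1 (P2 + P1) (rr x 0 b) (rr x 0 c) (rr x 0 b) (rr x 0 c) ≠ 0 →
      ∀ l'', dt l'' x = 0 → T4 D x P1 (P2 + P1) (k i) l'' (rr x 0 b) (rr x 0 c) = 0 :=
    fun hne' => hall P1 (P2 + P1) hP1 (PlaneB_rat_add hP2 hP1) b c _ _ hb hc hne' i
  clear hall
  have hki := hkx i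
  generalize rr x 0 b = m at *
  generalize rr x 0 c = m' at *
  generalize k i = u at *
  have hvn : PlaneB_vol D x ![dl D x P1 m, dl D x P1 m', dl D x P2 m, dl D x P2 m'] ≠ 0 := by
    rw [← PlaneB_T4]
    exact hne
  generalize hw : (![dl D x P1 m, dl D x P1 m', dl D x P2 m, dl D x P2 m'] :
    Fin 4 → Fin 6 → Ω) = w at hvn
  have w0 : w 0 = dl D x P1 m := by rw [← hw]; rfl
  have w1 : w 1 = dl D x P1 m' := by rw [← hw]; rfl
  have w2 : w 2 = dl D x P2 m := by rw [← hw]; rfl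
  have w3 : w 3 = dl D x P2 m' := by rw [← hw]; rfl
  have hwn : ∀ i, dt n (w i) = 0 := by
    intro i
    rw [← hw]
    fin_cases i
    · exact vol_tan h P1 m hb
    · exact vol_tan h P1 m' hc
    · exact vol_tan h P2 m hb
    · exact vol_tan h P2 m' hc
  obtain ⟨θ, -, hθw, -, hθp, hdet⟩ := vol_coord h w hwn hvn
  have hun : dt n (dl D x P1 u) = 0 := vol_tan h P1 u hki
  have hw02 : ∀ v : Fin 6 → Ω, dt n v = 0 → ∀ s t r : Fin 6 → Ω, dt n s = 0 → dt n t = 0 →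
      dt n r = 0 → PlaneB_vol D x ![v, s, t, r] = PlaneB_vol D x w * Matrix.det
        !![dt (θ 0) v, dt (θ 1) v, dt (θ 2) v, dt (θ 3) v;
          dt (θ 0) s, dt (θ 1) s, dt (θ 2) s, dt (θ 3) s;
          dt (θ 0) t, dt (θ 1) t, dt (θ 2) t, dt (θ 3) t;
          dt (θ 0) r, dt (θ 1) r, dt (θ 2) r, dt (θ 3) r] := by
    intro v hv s t r hs ht hr
    rw [← PlaneB_v0, ← PlaneB_v0, hdet ![v, s, t, r] (by
      intro i
      fin_cases i
      · exact hv
      · exact hs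
      · exact ht
      · exact hr)]
    congr 2
    ext i j
    fin_cases i <;> fin_cases j <;> rfl
  have t00 : dt (θ 0) (w 0) = 1 := by rw [hθw]; exact if_pos rfl
  have t01 : dt (θ 0) (w 1) = 0 := by rw [hθw]; exact if_neg (by decide)
  have t02 : dt (θ 0) (w 2) = 0 := by rw [hθw]; exact if_neg (by decide)
  have t03 : dt (θ 0) (w 3) = 0 := by rw [hθw]; exact if_neg (by decide)
  have t10 : dt (θ 1) (w 0) = 0 := by rw [hθw]; exact if_neg (by decide)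
  have t11 : dt (θ 1) (w 1) = 1 := by rw [hθw]; exact if_pos rfl
  have t12 : dt (θ 1) (w 2) = 0 := by rw [hθw]; exact if_neg (by decide)
  have t13 : dt (θ 1) (w 3) = 0 := by rw [hθw]; exact if_neg (by decide)
  have t20 : dt (θ 2) (w 0) = 0 := by rw [hθw]; exact if_neg (by decide)
  have t21 : dt (θ 2) (w 1) = 0 := by rw [hθw]; exact if_neg (by decide)
  have t22 : dt (θ 2) (w 2) = 1 := by rw [hθw]; exact if_pos rfl
  have t23 : dt (θ 2) (w 3) = 0 := by rw [hθw]; exact if_neg (by decide)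
  have t30 : dt (θ 3) (w 0) = 0 := by rw [hθw]; exact if_neg (by decide)
  have t31 : dt (θ 3) (w 1) = 0 := by rw [hθw]; exact if_neg (by decide)
  have t32 : dt (θ 3) (w 2) = 0 := by rw [hθw]; exact if_neg (by decide)
  have t33 : dt (θ 3) (w 3) = 1 := by rw [hθw]; exact if_pos rfl
  have e1 : dt (θ 1) (dl D x P1 u) = 0 := by
    have := hA m hb
    rw [PlaneB_T4] at this
    rw [← w0, ← w2, ← w3, hw02 _ hun _ _ _ (hwn 0) (hwn 2) (hwn 3)] at this
    have h2 := (mul_eq_zero.1 this).resolve_left hvn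
    rw [PlaneB_d4] at h2
    simp only [t00, t01, t02, t03, t10, t11, t12, t13, t20, t21, t22, t23, t30, t31, t32, t33] at h2
    linear_combination -h2
  have e0 : dt (θ 0) (dl D x P1 u) = 0 := by
    have := hA m' hc
    rw [PlaneB_T4] at this
    rw [← w1, ← w2, ← w3, hw02 _ hun _ _ _ (hwn 1) (hwn 2) (hwn 3)] at this
    have h2 := (mul_eq_zero.1 this).resolve_left hvn
    rw [PlaneB_d4] at h2
    simp only [t00, t01, t02, t03, t10, t11, t12, t13, t20, t21, t22, t23, t30, t31, t32, t33] at h2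
    linear_combination h2
  have hs20 : dt n (w 2 + w 0) = 0 := by rw [dt_add', hwn, hwn, add_zero]
  have hs31 : dt n (w 3 + w 1) = 0 := by rw [dt_add', hwn, hwn, add_zero]
  have hne' : T4 D x P1 (P2 + P1) m m' m m' ≠ 0 := by
    rw [PlaneB_T4, dl_add, dl_add, ← w0, ← w1, ← w2, ← w3, hw02 _ (hwn 0) _ _ _ (hwn 1) hs20 hs31]
    refine mul_ne_zero hvn ?_
    rw [PlaneB_d4]
    simp only [dt_add', t00, t01, t02, t03, t10, t11, t12, t13, t20, t21, t22, t23, t30, t31, t32,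
      t33]
    norm_num
  have e3 : dt (θ 3) (dl D x P1 u) = 0 := by
    have := hB hne' m hb
    rw [PlaneB_T4] at this
    rw [dl_add, dl_add, ← w0, ← w1, ← w2, ← w3, hw02 _ hun _ _ _ (hwn 0) hs20 hs31] at this
    have h2 := (mul_eq_zero.1 this).resolve_left hvn
    rw [PlaneB_d4] at h2
    simp only [dt_add', t00, t01, t02, t03, t10, t11, t12, t13, t20, t21, t22, t23, t30, t31, t32,
      t33, e0, e1] at h2
    linear_combination h2
  have e2 : dt (θ 2) (dl D x P1 u) = 0 := by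
    have := hB hne' m' hc
    rw [PlaneB_T4] at this
    rw [dl_add, dl_add, ← w0, ← w1, ← w2, ← w3, hw02 _ hun _ _ _ (hwn 1) hs20 hs31] at this
    have h2 := (mul_eq_zero.1 this).resolve_left hvn
    rw [PlaneB_d4] at h2
    simp only [dt_add', t00, t01, t02, t03, t10, t11, t12, t13, t20, t21, t22, t23, t30, t31, t32,
      t33, e0, e1] at h2
    linear_combination -h2
  refine hθp _ hun fun j => ?_
  fin_cases j
  · exact e0
  · exact e1
  · exact e2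
  · exact e3

theorem plane_b (h : Pt8 D a B x n) (k : Fin 3 → Fin 6 → Ω) (hkx : ∀ i, dt (k i) x = 0)
    (hk : LinearIndependent Ω k)
    (hall : ∀ P Q, RatP B P → RatP B Q → ∀ (b' c' : Fin 6) (l l' : Fin 6 → Ω),
      dt l x = 0 → dt l' x = 0 → T4 D x P Q l l' (rr x 0 b') (rr x 0 c') ≠ 0 →
      ∀ i l'', dt l'' x = 0 → T4 D x P Q (k i) l'' (rr x 0 b') (rr x 0 c') = 0)
    (P1 P2 : MvPolynomial (Fin 6) Ω) (hP1 : RatP B P1) (hP2 : RatP B P2) (l1 l2 : Fin 6 → Ω)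
    (h1 : dt l1 x = 0) (h2 : dt l2 x = 0) (b c : Fin 6)
    (hne : T4 D x P1 P2 l1 l2 (rr x 0 b) (rr x 0 c) ≠ 0) :
    (∀ P i, Par x (dl D x P (k i))) ∧
      LinearIndependent Ω (Sum.elim k ![rr x 0 b, rr x 0 c]) ∧
      T4 D x P1 P2 (rr x 0 b) (rr x 0 c) (rr x 0 b) (rr x 0 c) ≠ 0 := by
  have hx := h.one
  have hb : dt (rr x 0 b) x = 0 := rr_dt 0 b
  have hc : dt (rr x 0 c) x = 0 := rr_dt 0 c
  have hA := hall P1 P2 hP1 hP2 b c l1 l2 h1 h2 hne
  obtain ⟨b2, c2, hbc⟩ := PlaneB_ex P1 P2 l1 l2 (rr x 0 b) (rr x 0 c) (fun l hl => rr_span hx l hl)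
    h1 h2 hne
  have hbc' : T4 D x P2 P1 (rr x 0 b) (rr x 0 c) (rr x 0 b2) (rr x 0 c2) ≠ 0 := by
    rw [PlaneB_t_blk]
    exact hbc
  have hC := hall P2 P1 hP2 hP1 b2 c2 _ _ hb hc hbc'
  have hlin : LinearIndependent Ω (Sum.elim k ![rr x 0 b, rr x 0 c]) := by
    rw [Fintype.linearIndependent_iff]
    intro g hg
    rw [Fintype.sum_sum_type, Fin.sum_univ_two] at hg
    have hg' : ∑ i, g (Sum.inl i) • k i +
      (g (Sum.inr 0) • rr x 0 b + g (Sum.inr 1) • rr x 0 c) = 0 := hg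
    have g0 : g (Sum.inr 0) = 0 := by
      have e := congrArg (PlaneB_t0 D x P2 P1 (rr x 0 c) (rr x 0 b2) (rr x 0 c2)) hg'
      rw [map_zero, PlaneB_t0_apply, PlaneB_t_add, PlaneB_t_sum, PlaneB_t_add, PlaneB_t_smul,
        PlaneB_t_smul, PlaneB_t_self, Finset.sum_eq_zero (fun i _ => by rw [hC i _ hc, mul_zero]),
        zero_add, mul_zero, add_zero] at e
      exact (mul_eq_zero.1 e).resolve_right hbc'
    have g1 : g (Sum.inr 1) = 0 := by
      have e := congrArg (PlaneB_t0 D x P2 P1 (rr x 0 b) (rr x 0 b2) (rr x 0 c2)) hg'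
      rw [map_zero, PlaneB_t0_apply, PlaneB_t_add, PlaneB_t_sum, PlaneB_t_add, PlaneB_t_smul,
        PlaneB_t_smul, PlaneB_t_self, Finset.sum_eq_zero (fun i _ => by rw [hC i _ hb, mul_zero]),
        zero_add, mul_zero, zero_add, PlaneB_t_swap] at e
      exact (mul_eq_zero.1 e).resolve_right (neg_ne_zero.2 hbc')
    rw [g0, g1, zero_smul, zero_smul, add_zero, add_zero] at hg'
    have gk := (Fintype.linearIndependent_iff.1 hk) (fun i => g (Sum.inl i)) hg'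
    rintro (i | i)
    · exact gk i
    · fin_cases i
      · exact g0
      · exact g1
  have hsp := PlaneB_span hx (Sum.elim k ![rr x 0 b, rr x 0 c]) (by
    rintro (i | i)
    · exact hkx i
    · fin_cases i
      · exact hb
      · exact hc) hlin
  have hsp' : ∀ l, dt l x = 0 → ∃ (α : Fin 3 → Ω) (β γ : Ω),
      l = ∑ i, α i • k i + (β • rr x 0 b + γ • rr x 0 c) := by
    intro l hl
    obtain ⟨r, hr⟩ := hsp l hl
    refine ⟨fun i => r (Sum.inl i), r (Sum.inr 0), r (Sum.inr 1), ?_⟩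
    rw [← hr, Fintype.sum_sum_type, Fin.sum_univ_two]
    rfl
  have h3 : T4 D x P1 P2 (rr x 0 b) (rr x 0 c) (rr x 0 b) (rr x 0 c) ≠ 0 := by
    intro h0
    have hlast : ∀ l, dt l x = 0 → T4 D x P1 P2 l (rr x 0 b) (rr x 0 b) (rr x 0 c) = 0 := by
      intro l hl
      obtain ⟨α, β, γ, rfl⟩ := hsp' l hl
      rw [PlaneB_t_add, PlaneB_t_sum, PlaneB_t_add, PlaneB_t_smul, PlaneB_t_smul, PlaneB_t_self,
        Finset.sum_eq_zero (fun i _ => by rw [hA i _ hb, mul_zero]), PlaneB_t_swap, h0]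
      ring
    have hlast' : ∀ l, dt l x = 0 → T4 D x P1 P2 l (rr x 0 c) (rr x 0 b) (rr x 0 c) = 0 := by
      intro l hl
      obtain ⟨α, β, γ, rfl⟩ := hsp' l hl
      rw [PlaneB_t_add, PlaneB_t_sum, PlaneB_t_add, PlaneB_t_smul, PlaneB_t_smul, PlaneB_t_self,
        Finset.sum_eq_zero (fun i _ => by rw [hA i _ hc, mul_zero]), h0]
      ring
    apply hne
    obtain ⟨α, β, γ, hl1⟩ := hsp' l1 h1
    rw [hl1, PlaneB_t_add, PlaneB_t_sum, PlaneB_t_add, PlaneB_t_smul, PlaneB_t_smul,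
      Finset.sum_eq_zero (fun i _ => by rw [hA i _ h2, mul_zero]),
      PlaneB_t_swap P1 P2 l2 (rr x 0 b), PlaneB_t_swap P1 P2 l2 (rr x 0 c), hlast l2 h2,
      hlast' l2 h2]
    ring
  refine ⟨?_, hlin, h3⟩
  have hrat : ∀ P, RatP B P → ∀ i, Par x (dl D x P (k i)) := by
    intro P hP i
    have hcore : ∀ s : ℕ, T4 D x (P1 + (s : Ω) • P) P2 (rr x 0 b) (rr x 0 c) (rr x 0 b)
        (rr x 0 c) ≠ 0 → Par x (dl D x (P1 + (s : Ω) • P) (k i)) := fun s hs =>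
      PlaneB_core h k hkx hall _ P2 (PlaneB_rat_add hP1 (PlaneB_rat_smul s hP)) hP2 b c hs i
    have hP1i : Par x (dl D x P1 (k i)) := PlaneB_core h k hkx hall P1 P2 hP1 hP2 b c h3 i
    have hfin : ∀ s : ℕ, s ≠ 0 → Par x (dl D x (P1 + (s : Ω) • P) (k i)) →
        Par x (dl D x P (k i)) := by
      intro s hs hp
      have hs' : (s : Ω) ≠ 0 := Nat.cast_ne_zero.2 hs
      have e : dl D x P (k i) =
          (s : Ω)⁻¹ • (dl D x (P1 + (s : Ω) • P) (k i) + (-1 : Ω) • dl D x P1 (k i)) := by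
        rw [dl_add, dl_smul, neg_one_smul, add_neg_cancel_comm, smul_smul, inv_mul_cancel₀ hs',
          one_smul]
      rw [e]
      exact PlaneB_par_smul _ (PlaneB_par_add hp (PlaneB_par_smul _ hP1i))
    have hexp : ∀ s : ℕ, T4 D x (P1 + (s : Ω) • P) P2 (rr x 0 b) (rr x 0 c) (rr x 0 b)
        (rr x 0 c) = T4 D x P1 P2 (rr x 0 b) (rr x 0 c) (rr x 0 b) (rr x 0 c) + (s : Ω) *
          (PlaneB_vol D x ![dl D x P (rr x 0 b), dl D x P1 (rr x 0 c), dl D x P2 (rr x 0 b),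
            dl D x P2 (rr x 0 c)] + PlaneB_vol D x ![dl D x P1 (rr x 0 b), dl D x P (rr x 0 c),
              dl D x P2 (rr x 0 b), dl D x P2 (rr x 0 c)]) + (s : Ω) ^ 2 *
          T4 D x P P2 (rr x 0 b) (rr x 0 c) (rr x 0 b) (rr x 0 c) := by
      intro s
      rw [PlaneB_T4, PlaneB_T4, PlaneB_T4, dl_add, dl_smul, dl_add, dl_smul]
      rw [PlaneB_exp]
    by_cases s1 : T4 D x (P1 + ((1 : ℕ) : Ω) • P) P2 (rr x 0 b) (rr x 0 c) (rr x 0 b)
        (rr x 0 c) ≠ 0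
    · exact hfin 1 (by norm_num) (hcore 1 s1)
    by_cases s2 : T4 D x (P1 + ((2 : ℕ) : Ω) • P) P2 (rr x 0 b) (rr x 0 c) (rr x 0 b)
        (rr x 0 c) ≠ 0
    · exact hfin 2 (by norm_num) (hcore 2 s2)
    by_cases s3 : T4 D x (P1 + ((3 : ℕ) : Ω) • P) P2 (rr x 0 b) (rr x 0 c) (rr x 0 b)
        (rr x 0 c) ≠ 0
    · exact hfin 3 (by norm_num) (hcore 3 s3)
    exfalso
    apply h3
    rw [not_not] at s1 s2 s3
    rw [hexp] at s1 s2 s3
    push_cast at s1 s2 s3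
    linear_combination 3 * s1 - 3 * s2 + s3
  intro P i
  induction P using MvPolynomial.induction_on' with
  | monomial u r =>
    have e : (monomial u r : MvPolynomial (Fin 6) Ω) = r • monomial u 1 := by
      rw [smul_monomial, smul_eq_mul, mul_one]
    rw [e, dl_smul]
    exact PlaneB_par_smul _ (hrat _ (PlaneB_rat_mono u) i)
  | add p r hp hr =>
    rw [dl_add]
    exact PlaneB_par_add hp hr

end Pool.Agent.Helper74.Q8
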