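import Pool.Agent.Helper74.Q8.PlaneA
import Pool.Agent.Helper74.Q8.PlaneB
import Pool.Agent.Helper74.Q8.TRat

/-!
# Q8-PLANEC: a rational line or the plane case

`m, m'` are combinations of the `rr x 0 b` (`rr_span`): choose `b, c` with
`T4 P1 P2 l l' (rr x 0 b) (rr x 0 c) ≠ 0`; `plane_a`, `plane_b`; `l = ![rr x 0 b, rr x 0 c]`. `rat` is
`t_rat0`; `span`: the vectors orthogonal to `x` form a space of dimension 5.
-/

set_option autoImplicit false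

namespace Pool.Agent.Helper74.Q8

open scoped BigOperators
open MvPolynomial
open Pool.Agent.Helper8.LG (Bdd form mon)
open Pool.Agent.Helper49.LN (cP mo hf pl)
open Pool.Agent.Helper6.QS

variable {Ω : Type*} [Field Ω] [CharZero Ω] {q : ℕ} {D : Sym (Fin 6) q → Derivation ℤ Ω Ω}
  {a : Sym (Fin 6) q → Ω} {B : Subfield Ω} {x n : Fin 6 → Ω}

theorem plane_c (h : Pt8 D a B x n) (P1 P2 : MvPolynomial (Fin 6) Ω) (hP1 : RatP B P1)
    (hP2 : RatP B P2) (l l' m m' : Fin 6 → Ω) (hl : dt l x = 0) (hl' : dt l' x = 0)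
    (hm : dt m x = 0) (hm' : dt m' x = 0) (hne : T4 D x P1 P2 l l' m m' ≠ 0) :
    (∀ i, x i ∈ B) ∨ ∃ (k : Fin 3 → Fin 6 → Ω) (l : Fin 2 → Fin 6 → Ω),
      Pl8 D a B x n k l ∧ T4 D x P1 P2 (l 0) (l 1) (l 0) (l 1) ≠ 0 := by
  have hne' : T4 D x P2 P1 m m' l l' ≠ 0 := by
    rw [PlaneB_t_blk]
    exact hne
  obtain ⟨b, c, hbc⟩ := PlaneB_ex P2 P1 m m' l l' (fun u hu => rr_span h.one u hu) hm hm' hne'
  have hbc' : T4 D x P1 P2 l l' (rr x 0 b) (rr x 0 c) ≠ 0 := by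
    rw [← PlaneB_t_blk]
    exact hbc
  rcases plane_a h P1 P2 hP1 hP2 l l' hl hl' b c hbc' with hB | ⟨k, hkB, hkx, hk, hall⟩
  · exact Or.inl hB
  obtain ⟨hpar, hind, hT⟩ := plane_b h k hkx hk hall P1 P2 hP1 hP2 l l' hl hl' b c hbc'
  have hlx : ∀ i, dt ((![rr x 0 b, rr x 0 c] : Fin 2 → Fin 6 → Ω) i) x = 0 := by
    intro i
    refine Fin.cases ?_ (fun i => ?_) i
    · exact rr_dt 0 b
    · rw [Subsingleton.elim i 0]
      exact rr_dt 0 c
  refine Or.inr ⟨k, ![rr x 0 b, rr x 0 c], ⟨h, hkB, hkx, hpar, hlx, hind, ?_, ?_⟩, hT⟩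
  · intro u hu
    have hg : ∀ i, dt (Sum.elim k (![rr x 0 b, rr x 0 c] : Fin 2 → Fin 6 → Ω) i) x = 0 := by
      intro i
      rcases i with i | i
      · exact hkx i
      · exact hlx i
    obtain ⟨r, hr⟩ := PlaneB_span h.one _ hg hind u hu
    refine ⟨fun i => r (Sum.inl i), fun i => r (Sum.inr i), ?_⟩
    rw [← hr, Fintype.sum_sum_type]
    rfl
  · intro P Q hP hQ
    exact t_rat0 h P Q hP hQ b c b c

end Pool.Agent.Helper74.Q8
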